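import Pool.Agent.Helper47.Gomoku.Sem

set_option autoImplicit false

namespace Pool.Agent.Gomoku

open Finset

/-- cap that remains for the environment when the white reply `y` counts as well -/
def capy (capJ : Finset Cell → ℕ) (y : Cell) (L : Finset Cell) : ℕ :=
  capJ L - (if y ∈ L then 1 else 0)

/-- AND node with joint caps: the windows conditions are imposed on `X ∪ {y}` where `y` is the
reply. -/
def GValid (B W K : Finset Cell) (capJ : Finset Cell → ℕ) : Prop :=
  ∃ n, ∀ y, y ∉ B → y ∉ W → ∀ X Y P, Env B K (capy capJ y) X Y P → y ∉ Y → y ∉ X →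
    (∀ p q, P = some (p, q) → y ≠ p ∧ y ≠ q) →
    ¬ HasFive (insert y (W ∪ X)) ∧ Win n (B ∪ Y) (insert y (W ∪ X))

theorem gValid_of_items {B W K : Finset Cell} {capJ : Finset Cell → ℕ}
    (hBK : B ⊆ K) (hWK : W ⊆ K) (hBW : Disjoint B W)
    (hchk : ∀ y, y ∉ B → y ∉ W → ∀ L, IsLine L → Disjoint L B →
      (L ∩ W).card + ceff K (capy capJ y) L ≤ 3)
    (I : List Data) (hI : ∀ D ∈ I, Valid D)
    (hcov : ∀ y, y ∉ B → y ∉ W →
      ImmWin B W K y ∨ ∃ D ∈ I, Covers B W K (capy capJ y) D y) :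
    GValid B W K capJ := by
  obtain ⟨n, hn⟩ := exists_bound I hI
  refine ⟨n + 1, fun y hyB hyW X Y P hE hyY hyX hyP => ?_⟩
  exact and_step hBK hWK hBW (hchk y hyB hyW) hn (hcov y) hE
    (by rw [Finset.mem_union]; tauto) (by rw [Finset.mem_union]; tauto) hyP

theorem GValid.andValid {B W K : Finset Cell} {capJ cap : Finset Cell → ℕ}
    (hBK : B ⊆ K) (hWK : W ⊆ K) (hBW : Disjoint B W)
    (hchk : ∀ L, IsLine L → Disjoint L B → (L ∩ W).card + ceff K cap L ≤ 3)
    (hcap : ∀ L, IsLine L → cap L + 1 ≤ capJ L)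
    (h : GValid B W K capJ) : AndValid ⟨B, W, K, cap⟩ := by
  obtain ⟨n, hn⟩ := h
  apply andValid_of_step (n := n) hBK hWK hBW hchk
  intro X Y P hE y hyB hyW hyP
  rw [Finset.mem_union, not_or] at hyB hyW
  refine hn y hyB.1 hyW.1 X Y P ?_ hyB.2 hyW.2 hyP
  have := hE.transfer (A := ∅) (C := ∅) (B' := B) (K' := K) (cap' := capy capJ y)
      (Finset.Subset.refl _)
      (by rw [Finset.union_empty])
      (Finset.empty_subset _) (Finset.disjoint_empty_left _) (Finset.disjoint_empty_left _)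
      (Finset.disjoint_empty_left _) (Finset.disjoint_empty_left _) (by simp)
      (by
        intro L hL hd
        have h1 : ceff K cap L ≤ cap L := min_le_left _ _
        have h2 := hcap L hL
        have h3 : cap L ≤ capy capJ y L := by
          unfold capy
          split_ifs <;> omega
        simp only [Finset.inter_empty, Finset.card_empty]
        omega)
  rwa [Finset.empty_union, Finset.empty_union] at this

/-! ### Geometry on one line -/

/-- the cell at position `s` on the line through `a` with direction `v` -/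
def at' (a v : Cell) (s : ℤ) : Cell := (a.1 + s * v.1, a.2 + s * v.2)

theorem at'_inj {a v : Cell} (hv : IsDir v) {s t : ℤ} (h : at' a v s = at' a v t) : s = t := by
  unfold at' at h
  simp only [Prod.mk.injEq] at h
  rcases hv with rfl | rfl | rfl | rfl <;> simp at h <;> omega

theorem line_interval {a v : Cell} (hv : IsDir v) {L : Finset Cell} (hL : IsLine L) {i j : ℤ}
    (hi : at' a v i ∈ L) (hj : at' a v j ∈ L) (hij : i ≠ j) :
    ∃ s : ℤ, ∀ t : ℤ, at' a v t ∈ L ↔ s ≤ t ∧ t ≤ s + 4 := by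
  obtain ⟨p, w, hw, rfl⟩ := hL
  rw [mem_win5] at hi hj
  obtain ⟨m, hm, hi⟩ := hi
  obtain ⟨m', hm', hj⟩ := hj
  unfold at' at hi hj
  simp only [Prod.mk.injEq] at hi hj
  have hvw : v = w := by
    rcases hv with rfl | rfl | rfl | rfl <;> rcases hw with rfl | rfl | rfl | rfl <;>
      first
      | rfl
      | (exfalso; simp at hi hj; omega)
  subst hvw
  refine ⟨i - m, fun t => ?_⟩
  rw [mem_win5]
  constructor
  · rintro ⟨l, hl, h⟩
    unfold at' at h
    simp only [Prod.mk.injEq] at h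
    rcases hv with rfl | rfl | rfl | rfl <;> simp at h hi <;> omega
  · rintro ⟨h1, h2⟩
    refine ⟨(t - (i - m)).toNat, by omega, ?_⟩
    have h3 : ((t - (i - m)).toNat : ℤ) = t - (i - m) := Int.toNat_of_nonneg (by omega)
    unfold at'
    rw [h3]
    rcases hv with rfl | rfl | rfl | rfl <;> simp at hi ⊢ <;> omega

/-- `t` lies in the window `[s, s+4]`. -/
def Inw (s t : ℤ) : Prop := s ≤ t ∧ t ≤ s + 4

/-- The answer `b` together with the protected pair `p, q` neutralises the white stones at the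
positions in `S`. -/
def Good (S : Finset ℤ) (b p q : ℤ) : Prop :=
  (b ∉ S ∧ p ∉ S ∧ q ∉ S ∧ b ≠ p ∧ b ≠ q ∧ p ≠ q) ∧
  (∀ i ∈ S, (i - 6 ≤ b ∧ b ≤ i + 6) ∧ (i - 6 ≤ p ∧ p ≤ i + 6) ∧ (i - 6 ≤ q ∧ q ≤ i + 6)) ∧
  ∀ s, ¬ Inw s b →
    (¬ (Inw s p ∧ Inw s q) → ∀ i ∈ S, ∀ j ∈ S, Inw s i → Inw s j → i = j) ∧
    (¬ Inw s q → ∀ i ∈ insert p S, ∀ j ∈ insert p S, Inw s i → Inw s j → i = j) ∧
    (¬ Inw s p → ∀ i ∈ insert q S, ∀ j ∈ insert q S, Inw s i → Inw s j → i = j)

theorem good_of_explicit {i j k b p q : ℤ}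
    (h0 : (b ≠ i ∧ b ≠ j ∧ b ≠ k) ∧ (p ≠ i ∧ p ≠ j ∧ p ≠ k) ∧ (q ≠ i ∧ q ≠ j ∧ q ≠ k) ∧
      b ≠ p ∧ b ≠ q ∧ p ≠ q)
    (h1 : ∀ l, l = i ∨ l = j ∨ l = k →
      (l - 6 ≤ b ∧ b ≤ l + 6) ∧ (l - 6 ≤ p ∧ p ≤ l + 6) ∧ (l - 6 ≤ q ∧ q ≤ l + 6))
    (h2 : ∀ s, ¬ Inw s b →
      (¬ (Inw s p ∧ Inw s q) → ¬ (Inw s i ∧ Inw s j) ∧ ¬ (Inw s i ∧ Inw s k) ∧
        ¬ (Inw s j ∧ Inw s k)) ∧
      (¬ Inw s q → ¬ (Inw s i ∧ Inw s j) ∧ ¬ (Inw s i ∧ Inw s k) ∧
        ¬ (Inw s j ∧ Inw s k) ∧ ¬ (Inw s p ∧ Inw s i) ∧ ¬ (Inw s p ∧ Inw s j) ∧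
        ¬ (Inw s p ∧ Inw s k)) ∧
      (¬ Inw s p → ¬ (Inw s i ∧ Inw s j) ∧ ¬ (Inw s i ∧ Inw s k) ∧
        ¬ (Inw s j ∧ Inw s k) ∧ ¬ (Inw s q ∧ Inw s i) ∧ ¬ (Inw s q ∧ Inw s j) ∧
        ¬ (Inw s q ∧ Inw s k))) : Good {i, j, k} b p q := by
  refine ⟨?_, ?_, ?_⟩
  · simp only [Finset.mem_insert, Finset.mem_singleton]
    tauto
  · intro l hl
    simp only [Finset.mem_insert, Finset.mem_singleton] at hl
    exact h1 l hl
  · intro s hs
    obtain ⟨ha, hb, hc⟩ := h2 s hs
    refine ⟨fun h => ?_, fun h => ?_, fun h => ?_⟩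
    · obtain ⟨a1, a2, a3⟩ := ha h
      intro x hx y hy hix hiy
      simp only [Finset.mem_insert, Finset.mem_singleton] at hx hy
      rcases hx with rfl | rfl | rfl <;> rcases hy with rfl | rfl | rfl <;>
      first
        | rfl
        | exact (a1 ⟨hix, hiy⟩).elim
        | exact (a1 ⟨hiy, hix⟩).elim
        | exact (a2 ⟨hix, hiy⟩).elim
        | exact (a2 ⟨hiy, hix⟩).elim
        | exact (a3 ⟨hix, hiy⟩).elim
        | exact (a3 ⟨hiy, hix⟩).elim
    · obtain ⟨a1, a2, a3, a4, a5, a6⟩ := hb h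
      intro x hx y hy hix hiy
      simp only [Finset.mem_insert, Finset.mem_singleton] at hx hy
      rcases hx with rfl | rfl | rfl | rfl <;> rcases hy with rfl | rfl | rfl | rfl <;>
      first
        | rfl
        | exact (a1 ⟨hix, hiy⟩).elim
        | exact (a1 ⟨hiy, hix⟩).elim
        | exact (a2 ⟨hix, hiy⟩).elim
        | exact (a2 ⟨hiy, hix⟩).elim
        | exact (a3 ⟨hix, hiy⟩).elim
        | exact (a3 ⟨hiy, hix⟩).elim
        | exact (a4 ⟨hix, hiy⟩).elim
        | exact (a4 ⟨hiy, hix⟩).elim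
        | exact (a5 ⟨hix, hiy⟩).elim
        | exact (a5 ⟨hiy, hix⟩).elim
        | exact (a6 ⟨hix, hiy⟩).elim
        | exact (a6 ⟨hiy, hix⟩).elim
    · obtain ⟨a1, a2, a3, a4, a5, a6⟩ := hc h
      intro x hx y hy hix hiy
      simp only [Finset.mem_insert, Finset.mem_singleton] at hx hy
      rcases hx with rfl | rfl | rfl | rfl <;> rcases hy with rfl | rfl | rfl | rfl <;>
      first
        | rfl
        | exact (a1 ⟨hix, hiy⟩).elim
        | exact (a1 ⟨hiy, hix⟩).elim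
        | exact (a2 ⟨hix, hiy⟩).elim
        | exact (a2 ⟨hiy, hix⟩).elim
        | exact (a3 ⟨hix, hiy⟩).elim
        | exact (a3 ⟨hiy, hix⟩).elim
        | exact (a4 ⟨hix, hiy⟩).elim
        | exact (a4 ⟨hiy, hix⟩).elim
        | exact (a5 ⟨hix, hiy⟩).elim
        | exact (a5 ⟨hiy, hix⟩).elim
        | exact (a6 ⟨hix, hiy⟩).elim
        | exact (a6 ⟨hiy, hix⟩).elim

theorem good_sorted {i j k : ℤ} (hij : i < j) (hjk : j < k) (hk : k ≤ i + 4) :
    ∃ b p q, Good {i, j, k} b p q := by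
  have h : (j = i+1 ∧ k = i+2) ∨ (j = i+1 ∧ k = i+3) ∨ (j = i+2 ∧ k = i+3) ∨
      (j = i+1 ∧ k = i+4) ∨ (j = i+2 ∧ k = i+4) ∨ (j = i+3 ∧ k = i+4) := by omega
  rcases h with ⟨rfl, rfl⟩ | ⟨rfl, rfl⟩ | ⟨rfl, rfl⟩ | ⟨rfl, rfl⟩ | ⟨rfl, rfl⟩ | ⟨rfl, rfl⟩
  · refine ⟨i - 1, i + 3, i + 4, good_of_explicit ?_ ?_ ?_⟩
    · omega
    · omega
    · unfold Inw; omega
  · refine ⟨i + 2, i - 1, i - 2, good_of_explicit ?_ ?_ ?_⟩
    · omega
    · omega
    · unfold Inw; omega
  · refine ⟨i + 1, i + 4, i + 5, good_of_explicit ?_ ?_ ?_⟩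
    · omega
    · omega
    · unfold Inw; omega
  · refine ⟨i + 2, i - 1, i - 2, good_of_explicit ?_ ?_ ?_⟩
    · omega
    · omega
    · unfold Inw; omega
  · refine ⟨i + 1, i + 5, i + 6, good_of_explicit ?_ ?_ ?_⟩
    · omega
    · omega
    · unfold Inw; omega
  · refine ⟨i + 2, i + 5, i + 6, good_of_explicit ?_ ?_ ?_⟩
    · omega
    · omega
    · unfold Inw; omega

theorem good_exists {i j k : ℤ} (hi : 0 ≤ i ∧ i ≤ 4) (hj : 0 ≤ j ∧ j ≤ 4) (hk : 0 ≤ k ∧ k ≤ 4)
    (hij : i ≠ j) (hik : i ≠ k) (hjk : j ≠ k) : ∃ b p q, Good {i, j, k} b p q := by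
  have perm : ∀ i' j' k' : ℤ, ({i', j', k'} : Finset ℤ) = {i, j, k} →
      i' < j' → j' < k' → k' ≤ i' + 4 → ∃ b p q, Good {i, j, k} b p q := by
    intro i' j' k' h h1 h2 h3
    rw [← h]
    exact good_sorted h1 h2 h3
  rcases lt_or_gt_of_ne hij with h1 | h1 <;> rcases lt_or_gt_of_ne hik with h2 | h2 <;>
    rcases lt_or_gt_of_ne hjk with h3 | h3
  · exact perm i j k rfl h1 h3 (by omega)
  · exact perm i k j (by ext x; simp only [Finset.mem_insert, Finset.mem_singleton]; tauto)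
      h2 h3 (by omega)
  · exfalso; omega
  · exact perm k i j (by ext x; simp only [Finset.mem_insert, Finset.mem_singleton]; tauto)
      h2 h1 (by omega)
  · exact perm j i k (by ext x; simp only [Finset.mem_insert, Finset.mem_singleton]; tauto)
      h1 h2 (by omega)
  · exfalso; omega
  · exact perm j k i (by ext x; simp only [Finset.mem_insert, Finset.mem_singleton]; tauto)
      h3 h2 (by omega)
  · exact perm k j i (by ext x; simp only [Finset.mem_insert, Finset.mem_singleton]; tauto)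
      h3 h1 (by omega)

/-! ### The far lemma -/

def InBox (R : ℤ) (c : Cell) : Prop := -R ≤ c.1 ∧ c.1 ≤ R ∧ -R ≤ c.2 ∧ c.2 ≤ R

theorem InBox.mono {R R' : ℤ} (h : R ≤ R') {c : Cell} (hc : InBox R c) : InBox R' c := by
  unfold InBox at *
  omega

theorem at'_far {a v : Cell} (hv : IsDir v) {R i t : ℤ} (h : ¬ InBox R (at' a v i))
    (h1 : i - 6 ≤ t) (h2 : t ≤ i + 6) : ¬ InBox (R - 6) (at' a v t) := by
  intro h3
  apply h
  unfold InBox at' at *
  rcases hv with rfl | rfl | rfl | rfl <;> simp at h3 ⊢ <;> omega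

theorem win5_eq_at' {p v c : Cell} (h : c ∈ win5 p v) : ∃ i : ℤ, (0 ≤ i ∧ i ≤ 4) ∧ c = at' p v i := by
  rw [mem_win5] at h
  obtain ⟨i, hi, rfl⟩ := h
  exact ⟨i, by omega, rfl⟩

/-- The far open three: Black answers `b` and uses the protected pair `p, q`. -/
theorem exists_env_three {B K : Finset Cell} {R : ℤ} (hbox : ∀ c ∈ K, InBox (R - 6) c)
    {x1 y2 y3 : Cell} (hx1 : ¬ InBox R x1)
    (h12 : x1 ≠ y2) (h13 : x1 ≠ y3) (h23 : y2 ≠ y3) {L0 : Finset Cell} (hL0 : IsLine L0)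
    (hx : x1 ∈ L0) (hy2 : y2 ∈ L0) (hy3 : y3 ∈ L0) :
    ∃ b, b ∉ K ∧ b ∉ ({x1, y2, y3} : Finset Cell) ∧
      ∃ p q, Env B K (fun _ => 1) {x1, y2, y3} {b} (some (p, q)) := by
  obtain ⟨a, v, hv, rfl⟩ := hL0
  obtain ⟨i, hi, rfl⟩ := win5_eq_at' hx
  obtain ⟨j, hj, rfl⟩ := win5_eq_at' hy2
  obtain ⟨k, hk, rfl⟩ := win5_eq_at' hy3
  have hij : i ≠ j := fun h => h12 (by rw [h])
  have hik : i ≠ k := fun h => h13 (by rw [h])
  have hjk : j ≠ k := fun h => h23 (by rw [h])
  obtain ⟨b, p, q, ⟨⟨hbS, hpS, hqS, hbp, hbq, hpq⟩, hb, hs⟩⟩ := good_exists hi hj hk hij hik hjk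
  have hX : ({at' a v i, at' a v j, at' a v k} : Finset Cell) =
      ({i, j, k} : Finset ℤ).image (at' a v) := by
    ext c
    simp only [Finset.mem_insert, Finset.mem_singleton, Finset.mem_image]
    constructor
    · rintro (rfl | rfl | rfl)
      · exact ⟨i, by simp, rfl⟩
      · exact ⟨j, by simp, rfl⟩
      · exact ⟨k, by simp, rfl⟩
    · rintro ⟨t, (rfl | rfl | rfl), rfl⟩ <;> simp
  rw [hX]
  have hfar : ∀ t, i - 6 ≤ t → t ≤ i + 6 → at' a v t ∉ K := fun t h1 h2 h3 =>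
    at'_far hv hx1 h1 h2 (hbox _ h3)
  have hmem : ∀ (S : Finset ℤ) (t : ℤ), t ∉ S → at' a v t ∉ S.image (at' a v) := by
    intro S t ht h
    rw [Finset.mem_image] at h
    obtain ⟨t', ht', h⟩ := h
    exact ht (at'_inj hv h ▸ ht')
  have hbi := hb i (by simp)
  have hSK : Disjoint (({i, j, k} : Finset ℤ).image (at' a v)) K := by
    rw [Finset.disjoint_left]
    intro c hc
    rw [Finset.mem_image] at hc
    obtain ⟨t, ht, rfl⟩ := hc
    simp only [Finset.mem_insert, Finset.mem_singleton] at ht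
    apply hfar t <;> omega
  -- general counting lemma
  have count : ∀ (S : Finset ℤ) (L : Finset Cell), IsLine L →
      (∀ s, (∀ t, at' a v t ∈ L ↔ s ≤ t ∧ t ≤ s + 4) →
        ∀ i ∈ S, ∀ j ∈ S, Inw s i → Inw s j → i = j) →
      (L ∩ S.image (at' a v)).card ≤ 1 := by
    intro S L hL h
    rw [Finset.card_le_one]
    intro u hu w hw
    rw [Finset.mem_inter, Finset.mem_image] at hu hw
    obtain ⟨huL, t, ht, rfl⟩ := hu
    obtain ⟨hwL, t', ht', rfl⟩ := hw
    by_contra hne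
    have htt : t ≠ t' := fun h => hne (by rw [h])
    obtain ⟨s, hs'⟩ := line_interval hv hL huL hwL htt
    exact htt (h s hs' t ht t' ht' ((hs' t).1 huL) ((hs' t').1 hwL))
  refine ⟨at' a v b, hfar b hbi.1.1 hbi.1.2, hmem _ b hbS, at' a v p, at' a v q, ?_⟩
  have hpK := hfar p hbi.2.1.1 hbi.2.1.2
  have hqK := hfar q hbi.2.2.1 hbi.2.2.2
  have hbK := hfar b hbi.1.1 hbi.1.2
  refine ⟨⟨?_, hpK, hqK, hmem _ p hpS, hmem _ q hqS, ?_, ?_⟩, ?_, hSK, ?_, ?_, ?_, ?_⟩
  · exact fun h => hpq (at'_inj hv h)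
  · rw [Finset.mem_singleton]; exact fun h => hbp (at'_inj hv h).symm
  · rw [Finset.mem_singleton]; exact fun h => hbq (at'_inj hv h).symm
  · rw [Finset.disjoint_singleton_right]
    exact hmem _ b hbS
  · rw [Finset.disjoint_singleton_left]
    exact hbK
  · intro L hL hd hn
    apply count _ L hL
    intro s hs'
    have hb' : ¬ Inw s b := by
      intro h
      have := (hs' b).2 h
      exact Finset.disjoint_left.1 hd this (by simp)
    exact (hs s hb').1 (fun h => hn ⟨(hs' p).2 h.1, (hs' q).2 h.2⟩)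
  · intro L hL hd
    rw [← Finset.image_insert]
    apply count _ L hL
    intro s hs'
    have hb' : ¬ Inw s b := by
      intro h
      have := (hs' b).2 h
      exact Finset.disjoint_left.1 hd this (by simp)
    have hq' : ¬ Inw s q := by
      intro h
      have := (hs' q).2 h
      exact Finset.disjoint_left.1 hd this (by simp)
    exact (hs s hb').2.1 hq'
  · intro L hL hd
    rw [← Finset.image_insert]
    apply count _ L hL
    intro s hs'
    have hb' : ¬ Inw s b := by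
      intro h
      have := (hs' b).2 h
      exact Finset.disjoint_left.1 hd this (by simp)
    have hp' : ¬ Inw s p := by
      intro h
      have := (hs' p).2 h
      exact Finset.disjoint_left.1 hd this (by simp)
    exact (hs s hb').2.2 hp'

theorem far_lemma {R : ℤ} {B2 : Finset Cell} {b3 : Cell} {KG : Finset Cell}
    (hb3 : b3 ∉ B2) (hBK : insert b3 B2 ⊆ KG) (hbox : ∀ c ∈ KG, InBox (R - 6) c)
    (hG : GValid (insert b3 B2) ∅ KG (fun _ => 2))
    (hF : ∀ y ∈ KG, y ∉ B2 →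
      ∃ K, (∀ c ∈ K, InBox R c) ∧ Valid ⟨B2, {y}, K, fun _ => 1⟩) :
    ∃ n, ∀ x1, ¬ InBox R x1 → AndWin n B2 {x1} := by
  classical
  -- uniform bound for the F family
  have hF' : ∀ y, ∃ n, y ∈ KG → y ∉ B2 → ∀ x1, x1 ≠ y → ¬ InBox R x1 →
      Win n B2 (insert y {x1}) := by
    intro y
    by_cases hy : y ∈ KG ∧ y ∉ B2
    · obtain ⟨K, hKb, n, hn⟩ := hF y hy.1 hy.2
      refine ⟨n, fun _ _ x1 hx1y hx1 => ?_⟩
      have hE : Env B2 K (fun _ => 1) {x1} ∅ none := by
        refine ⟨Finset.disjoint_empty_right _, ?_, Finset.disjoint_empty_left _, ?_⟩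
        · rw [Finset.disjoint_singleton_left]
          exact fun h => hx1 (hKb _ h)
        · intro L _ _
          exact (Finset.card_le_card Finset.inter_subset_right).trans (by simp)
      have := hn {x1} ∅ none hE
      simpa using this
    · refine ⟨0, fun h1 h2 => (hy ⟨h1, h2⟩).elim⟩
  choose f hf using hF'
  -- G as an AND node with caps 1
  have hG1 : AndValid ⟨insert b3 B2, ∅, KG, fun _ => 1⟩ := by
    apply hG.andValid hBK (Finset.empty_subset _) (Finset.disjoint_empty_right _)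
    · intro L hL hd
      have : ceff KG (fun _ => 1) L ≤ 1 := min_le_left _ _
      simp only [Finset.inter_empty, Finset.card_empty]
      omega
    · intro L hL
      exact le_refl _
  obtain ⟨m, hm⟩ := hG
  obtain ⟨m1, hm1⟩ := hG1
  refine ⟨KG.sup f + (m + m1 + 2), fun x1 hx1 y2 hy2B hy2x => ?_⟩
  rw [Finset.mem_singleton] at hy2x
  have hcard2 : (insert y2 ({x1} : Finset Cell)).card < 5 := by
    have := Finset.card_insert_le y2 ({x1} : Finset Cell)
    simp at this
    omega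
  refine ⟨not_hasFive_of_card hcard2, ?_⟩
  by_cases hyK : y2 ∈ KG
  · refine (hf y2 hyK hy2B x1 (fun h => hy2x h.symm) hx1).mono ?_
    have := Finset.le_sup (f := f) hyK
    omega
  -- y2 is not near: play b3
  have hb3K : b3 ∈ KG := hBK (Finset.mem_insert_self _ _)
  have hx1K : x1 ∉ KG := fun h => hx1 ((hbox _ h).mono (by omega))
  refine Win.mono (n := m + m1 + 2) (by omega) ?_
  refine Win.of_and (b := b3) hb3 ?_ ?_
  · rw [Finset.mem_insert, Finset.mem_singleton, not_or]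
    exact ⟨fun h => hyK (h ▸ hb3K), fun h => hx1K (h ▸ hb3K)⟩
  intro y3 hy3B hy3W
  rw [Finset.mem_insert, Finset.mem_singleton, not_or] at hy3W
  have hcard3 : (insert y3 (insert y2 ({x1} : Finset Cell))).card < 5 := by
    have h1 := Finset.card_insert_le y2 ({x1} : Finset Cell)
    have h2 := Finset.card_insert_le y3 (insert y2 ({x1} : Finset Cell))
    simp at h1
    omega
  refine ⟨not_hasFive_of_card hcard3, ?_⟩
  by_cases hT : ∃ L, IsLine L ∧ x1 ∈ L ∧ y2 ∈ L ∧ y3 ∈ L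
  · -- T-case
    obtain ⟨L0, hL0, hx, hy2, hy3⟩ := hT
    obtain ⟨b, hbK, hbX, p, q, hE⟩ := exists_env_three (B := insert b3 B2) hbox hx1
      (fun h => hy2x h.symm) (fun h => hy3W.2 h.symm) (fun h => hy3W.1 h.symm) hL0 hx hy2 hy3
    have hw := hm1 _ _ _ hE
    simp only at hw
    refine Win.mono (n := m1 + 1) (by omega) ?_
    refine Win.of_and (b := b) (fun h => hbK (hBK h)) ?_ ?_
    · simp only [Finset.mem_insert, Finset.mem_singleton] at hbX ⊢
      tauto
    · have e1 : insert b (insert b3 B2) = insert b3 B2 ∪ {b} := by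
        rw [Finset.union_comm, ← Finset.insert_eq]
      have e2 : insert y3 (insert y2 ({x1} : Finset Cell)) = ∅ ∪ {x1, y2, y3} := by
        rw [Finset.empty_union]
        ext c
        simp only [Finset.mem_insert, Finset.mem_singleton]
        tauto
      rw [e1, e2]
      exact hw
  · -- G with X = {x1, y2}
    have hE : Env (insert b3 B2) KG (capy (fun _ => 2) y3) (insert y2 {x1}) ∅ none := by
      refine ⟨Finset.disjoint_empty_right _, ?_, Finset.disjoint_empty_left _, ?_⟩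
      · rw [Finset.disjoint_insert_left, Finset.disjoint_singleton_left]
        exact ⟨hyK, hx1K⟩
      · intro L hL _
        unfold capy
        have h2 : (L ∩ insert y2 {x1}).card ≤ 2 :=
          (Finset.card_le_card Finset.inter_subset_right).trans
            ((Finset.card_insert_le _ _).trans (by simp))
        split_ifs with hy3L
        · -- y3 in L, so not both others
          show (L ∩ insert y2 {x1}).card ≤ 2 - 1
          by_contra hlt
          have h3 : (L ∩ insert y2 {x1}).card = 2 := by omega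
          have h4 : (insert y2 ({x1} : Finset Cell)).card = 2 := by
            rw [Finset.card_insert_of_notMem (by simpa using hy2x)]
            simp
          have h5 : L ∩ insert y2 {x1} = insert y2 {x1} :=
            Finset.eq_of_subset_of_card_le Finset.inter_subset_right (by omega)
          have h6 : insert y2 ({x1} : Finset Cell) ⊆ L := by
            rw [← h5]
            exact Finset.inter_subset_left
          exact hT ⟨L, hL, h6 (by simp), h6 (by simp), hy3L⟩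
        · exact h2
    have := hm y3 hy3B (Finset.notMem_empty _) _ _ _ hE (Finset.notMem_empty _)
      (by rw [Finset.mem_insert, Finset.mem_singleton, not_or]; exact hy3W)
      (by intro p q h; simp at h)
    have hw := this.2
    rw [Finset.union_empty, Finset.empty_union] at hw
    exact hw.mono (by omega)

end Pool.Agent.Gomoku
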