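import Pool.Agent.Helper47.Gomoku.ItemSem

set_option autoImplicit false

namespace Pool.Agent.Gomoku

open Finset

/-- cap function of the level: level 2 (`v = true`): 1 on `C1`, 2 elsewhere; level 1: 1. -/
noncomputable def capV (off : Cell) (v : Bool) (C1 : ℕ) : Finset Cell → ℕ :=
  if v = true then capOf off C1 0 2 else fun _ => 1

noncomputable def dataV (off : Cell) (v : Bool) (s : St) (K C1 : ℕ) : Data :=
  ⟨dec off s.b, dec off s.w, dec off K, capV off v C1⟩

theorem capV_le2 {off : Cell} {v : Bool} {C1 : ℕ} {L : Finset Cell} : capV off v C1 L ≤ 2 := by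
  unfold capV
  split_ifs
  · exact capOf_le_g2
  · exact Nat.le_succ 1

theorem capV_le1 {off : Cell} {v : Bool} {C1 : ℕ} {L : Finset Cell}
    (h : v = false ∨ InMask off C1 L) : capV off v C1 L ≤ 1 := by
  unfold capV
  split_ifs with hv
  · rcases h with h | h
    · rw [h] at hv; exact absurd hv (by simp)
    · rw [capOf_le_of_c1 h]
  · exact le_refl _

theorem capV_le_cap3 {off : Cell} {v : Bool} {C1 C2 : ℕ} {L : Finset Cell} :
    capV off v C1 L ≤ capOf off C1 C2 3 L := by
  by_cases hm : InMask off C1 L
  · rw [capOf_le_of_c1 hm]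
    exact capV_le1 (Or.inr hm)
  · have h1 : 2 ≤ capOf off C1 C2 3 L := by
      unfold capOf
      rw [if_neg hm]
      split_ifs <;> omega
    exact capV_le2.trans h1

theorem capV_mono {off : Cell} {v : Bool} {C1 C1' : ℕ} (h : Sub C1 C1') {L : Finset Cell} :
    capV off v C1' L ≤ capV off v C1 L := by
  by_cases hv : v = false
  · unfold capV
    rw [hv]
    simp
  · by_cases hm : InMask off C1 L
    · have h1 : capV off v C1 L = 1 := by
        unfold capV
        rw [if_pos (by simpa using hv), capOf_le_of_c1 hm]
      rw [h1]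
      exact capV_le1 (Or.inr (h.inMask hm))
    · have h1 : capV off v C1 L = 2 := by
        unfold capV capOf
        rw [if_pos (by simpa using hv), if_neg hm]
        split_ifs <;> rfl
      rw [h1]
      exact capV_le2

theorem validV_mono {off : Cell} {v : Bool} {s : St} {K C1 K' C1' : ℕ} (hK : Sub K K')
    (hC : Sub C1 C1') (h : Valid (dataV off v s K C1)) : Valid (dataV off v s K' C1') := by
  unfold dataV at *
  apply h.weaken (hK.dec off)
  intro L _ _
  exact (min_le_left _ _).trans (capV_mono hC)

/-- AND-check at level `v` -/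
theorem checkV {off : Cell} {v : Bool} {s : St} (h : Inv off s) (h4 : s.a4 = 0) {K C1 : ℕ}
    (hK : Sub (cellsOf0 s.a3) K) (h1 : Sub s.a2 C1) (L : Finset Cell)
    (hL : IsLine L) (hd : Disjoint L (dec off s.b)) :
    (L ∩ dec off s.w).card + ceff (dec off K) (capV off v C1) L ≤ 3 := by
  have hle := h.le_of_a4 h4 hL hd
  have hc : ceff (dec off K) (capV off v C1) L ≤ capV off v C1 L := min_le_left _ _
  by_cases c3 : 3 ≤ (L ∩ dec off s.w).card
  · rw [ceff_zero (h.a3' hL hd c3) hK]
    omega
  by_cases c2 : 2 ≤ (L ∩ dec off s.w).card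
  · have := capV_le1 (v := v) (Or.inr (h1.inMask (h.a2' hL hd c2)))
    omega
  · have := capV_le2 (off := off) (v := v) (C1 := C1) (L := L)
    omega

/-- `y` is covered by `D` for all final accumulators above `K, C1`. -/
def CovV (off : Cell) (v : Bool) (s : St) (K C1 : ℕ) (D : Data) (y : Cell) : Prop :=
  ∀ K' C1', Sub K K' → Sub C1 C1' →
    Covers (dec off s.b) (dec off s.w) (dec off K') (capV off v C1') D y

theorem CovV.mono {off : Cell} {v : Bool} {s : St} {K C1 K2 C12 : ℕ} {D : Data} {y : Cell}
    (h : CovV off v s K C1 D y) (hK : Sub K K2) (hC : Sub C1 C12) : CovV off v s K2 C12 D y :=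
  fun K' C1' h1 h2 => h K' C1' (hK.trans h1) (hC.trans h2)

theorem notMem_of_inMask {off : Cell} {E : ℕ} {L : Finset Cell} (hE : InMask off E L) {y : Cell}
    (hy : y ∉ dec off (cellsOf0 E)) : y ∉ L := by
  obtain ⟨k, hk, hE, rfl⟩ := hE
  intro hyL
  apply hy
  have h2 : cellsOf0 E = cellsOf E := by
    unfold cellsOf0
    have : Nat.beq E 0 = false := by
      cases hb : Nat.beq E 0
      · rfl
      · have := eq_of_beq hb
        subst this
        simp at hE
    rw [this]; rfl
  rw [h2]
  exact winK_subset_cellsOf hk hE hyL

theorem card_ins_sdiff_le {L W W' : Finset Cell} {y : Cell} :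
    (L ∩ (insert y W \ W')).card ≤ (L ∩ W).card + 1 := by
  have : L ∩ (insert y W \ W') ⊆ insert y (L ∩ W) := by
    intro c hc
    simp only [Finset.mem_inter, Finset.mem_sdiff, Finset.mem_insert] at hc ⊢
    tauto
  exact (Finset.card_le_card this).trans (Finset.card_insert_le _ _)

theorem card_ins_sdiff_le' {L W W' : Finset Cell} {y : Cell} (hy : y ∉ L) :
    (L ∩ (insert y W \ W')).card ≤ (L ∩ W).card := by
  apply Finset.card_le_card
  intro c hc
  simp only [Finset.mem_inter, Finset.mem_sdiff, Finset.mem_insert] at hc ⊢
  obtain ⟨h1, h2 | h2, h3⟩ := hc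
  · subst h2; exact absurd h1 hy
  · exact ⟨h1, h2⟩

/-- a library item as null item -/
theorem covV_item {off : Cell} {v : Bool} {s : St} (hI : Inv off s) {it : Item} {dx dy : ℕ}
    (h2 : 2 ≤ it.g) (h3 : it.g ≤ 3) (hv : v = true → it.g = 3)
    (hf : fits s (it.inst dx dy) = true) {y : Cell} (hyW : y ∉ dec off s.w)
    (hy : y ∉ dec off (Nat.lor (it.inst dx dy).K (cellsOf0 (mR0 s (it.inst dx dy))))) :
    CovV off v s (Nat.lor (it.inst dx dy).K (cellsOf0 (mR1 s (it.inst dx dy))))
      (mR2 s (it.inst dx dy)) (it.data off dx dy) y := by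
  set i := it.inst dx dy with hi
  intro K' C1' hK hC
  obtain ⟨hb, hw, hm, h4⟩ := fits_spec hf
  have hB := land_eq_spec (off := off) hb
  have hW := land_eq_spec (off := off) hw
  rw [dec_lor, Finset.mem_union, not_or] at hy
  have hcapG : (it.data off dx dy).cap = capOf off i.C1 i.C2 it.g := by
    show capG off it.g i.C1 i.C2 = _
    unfold capG
    rw [if_neg (by omega)]
  refine ⟨hB.1, hB.2, ?_, ?_, ?_, ?_⟩
  · exact hW.1.trans (Finset.subset_insert _ _)
  · rw [Finset.disjoint_left]
    intro c hc
    rw [Finset.mem_sdiff, Finset.mem_insert] at hc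
    rcases hc.1 with rfl | h
    · exact hy.1
    · exact fun hcK => Finset.disjoint_left.1 hW.2 (Finset.mem_sdiff.2 ⟨h, hc.2⟩) hcK
  · exact hK.of_lor_left.dec off
  · intro L hL hd
    have hOK : InsOK it.g i := insOK_inst h2 h3
    obtain ⟨c0, c1, c2, c3⟩ := fits_cap (off := off) hI hOK h4 hm hL hd
    rw [hcapG]
    have hle := card_ins_sdiff_le (L := L) (W := dec off s.w) (W' := (it.data off dx dy).W)
      (y := y)
    have hceff : ceff (dec off K') (capV off v C1') L ≤ capV off v C1' L := min_le_left _ _
    have hK1 : Sub (cellsOf0 (mR1 s i)) K' := hK.of_lor_right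
    by_cases d0 : capOf off i.C1 i.C2 it.g L ≤ (L ∩ dec off s.w).card
    · have hle' := card_ins_sdiff_le' (L := L) (W := dec off s.w)
        (W' := (it.data off dx dy).W) (notMem_of_inMask (c1 d0) hy.2)
      rw [ceff_zero (c2 (by omega)) hK1]
      omega
    by_cases d1 : capOf off i.C1 i.C2 it.g L ≤ (L ∩ dec off s.w).card + 1
    · rw [ceff_zero (c2 d1) hK1]
      omega
    cases v
    · have := capV_le1 (off := off) (v := false) (C1 := C1') (L := L) (Or.inl rfl)
      omega
    · by_cases d2 : capOf off i.C1 i.C2 it.g L = (L ∩ dec off s.w).card + 2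
      · have := capV_le1 (off := off) (v := true) (C1 := C1') (L := L)
          (Or.inr (hC.inMask (c3 (hv rfl) d2)))
        omega
      · have := capV_le2 (off := off) (v := true) (C1 := C1') (L := L)
        omega

/-- a VCF line at the current position as null item -/
theorem covV_line {off : Cell} {v : Bool} {s : St} {Kv C1v C2v : ℕ}
    {y : Cell} (hyW : y ∉ dec off s.w)
    (hy : y ∉ dec off Kv) :
    CovV off v s (Nat.lor Kv (cellsOf0 C1v)) C2v
      ⟨dec off s.b, dec off s.w, dec off Kv, capOf off C1v C2v 3⟩ y := by
  intro K' C1' hK hC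
  have hsd : insert y (dec off s.w) \ dec off s.w = {y} := by
    ext c
    simp only [Finset.mem_sdiff, Finset.mem_insert, Finset.mem_singleton]
    constructor
    · rintro ⟨h | h, h'⟩
      · exact h
      · exact absurd h h'
    · rintro rfl
      exact ⟨Or.inl rfl, hyW⟩
  refine ⟨Finset.Subset.refl _, ?_, Finset.subset_insert _ _, ?_, ?_, ?_⟩
  · simp
  · simp only
    rw [hsd, Finset.disjoint_singleton_left]
    exact hy
  · exact hK.of_lor_left.dec off
  · intro L hL hd
    simp only
    rw [hsd]
    have h1 : (L ∩ {y}).card ≤ 1 :=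
      (Finset.card_le_card Finset.inter_subset_right).trans (by simp)
    have hceff : ceff (dec off K') (capV off v C1') L ≤ capV off v C1' L := min_le_left _ _
    by_cases d1 : InMask off C1v L
    · rw [ceff_zero d1 hK.of_lor_right, capOf_le_of_c1 d1]
      omega
    by_cases d2 : InMask off C2v L
    · have h3 : capOf off C1v C2v 3 L = 2 := by
        unfold capOf
        rw [if_neg d1, if_pos d2]
      have := capV_le1 (off := off) (v := v) (C1 := C1') (L := L) (Or.inr (hC.inMask d2))
      omega
    · have h3 : capOf off C1v C2v 3 L = 3 := by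
        unfold capOf
        rw [if_neg d1, if_neg d2]
      have := capV_le2 (off := off) (v := v) (C1 := C1') (L := L)
      omega

/-- board cells -/
def OnBoard (off : Cell) (y : Cell) : Prop := ∃ i, i < 1024 ∧ y = cellOf off i

theorem onBoard_of_mem {off : Cell} {n : ℕ} {y : Cell} (h : y ∈ dec off n) : OnBoard off y := by
  rw [mem_dec] at h
  obtain ⟨i, hi, -, rfl⟩ := h
  exact ⟨i, hi, rfl⟩

/-- general form; `Q K C1 D y`: the data `D` cover `y` for accumulators above `K, C1` -/
theorem nullsG_gen {off : Cell} {gt : ℕ → Item} (hgt : ∀ i, ItemValid (gt i)) {v : Bool}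
    {s : St} (hI : Inv off s) (Q : ℕ → ℕ → Data → Cell → Prop)
    (hmono : ∀ {K C1 K2 C12 : ℕ} {D : Data} {y : Cell}, Q K C1 D y → Sub K K2 → Sub C1 C12 →
      Q K2 C12 D y)
    (hitem : ∀ {it : Item} {dx dy : ℕ}, 2 ≤ it.g → it.g ≤ 3 → (v = true → it.g = 3) →
      fits s (it.inst dx dy) = true → ∀ {y : Cell}, y ∉ dec off s.w →
      y ∉ dec off (Nat.lor (it.inst dx dy).K (cellsOf0 (mR0 s (it.inst dx dy)))) →
      Q (Nat.lor (it.inst dx dy).K (cellsOf0 (mR1 s (it.inst dx dy))))
        (mR2 s (it.inst dx dy)) (it.data off dx dy) y)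
    (hline : ∀ {Kv C1v C2v : ℕ} {y : Cell}, y ∉ dec off s.w → y ∉ dec off Kv →
      Q (Nat.lor Kv (cellsOf0 C1v)) C2v
        ⟨dec off s.b, dec off s.w, dec off Kv, capOf off C1v C2v 3⟩ y) : ∀ (m wd : ℕ) (st : List ℕ) (K C1 U wd' : ℕ) (st' : List ℕ)
    (K' C1' U' : ℕ), nullsG gt v m wd s st K C1 U = RN.ok wd' st' K' C1' U' →
    Sub K K' ∧ Sub C1 C1' ∧ ∃ I : List Data, (∀ D ∈ I, Valid D) ∧
      ∀ y, y ∉ dec off s.w →
        (y ∉ dec off U' → y ∉ dec off U ∨ ∃ D ∈ I, Q K' C1' D y) ∧
        (1 ≤ m → ¬ OnBoard off y → ∃ D ∈ I, Q K' C1' D y) := by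
  intro m
  induction m with
  | zero =>
    intro wd st K C1 U wd' st' K' C1' U' h
    unfold nullsG at h
    simp only [RN.ok.injEq] at h
    obtain ⟨-, -, rfl, rfl, rfl⟩ := h
    refine ⟨Sub.refl _, Sub.refl _, [], by simp, ?_⟩
    intro y hy
    exact ⟨fun h => Or.inl h, fun h => absurd h (by omega)⟩
  | succ m ih =>
    intro wd st K C1 U wd' st' K' C1' U' h
    unfold nullsG at h
    simp only at h
    rw [cond_eq_ite] at h
    split_ifs at h with hidx
    · -- inline line
      split at h
      · simp at h
      · rename_i w0 st1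
        split at h
        · simp at h
        · rename_i Kv C1v C2v hev
          obtain ⟨hK0, hC0, hC20, hV⟩ := evF_sound (off := off) _ _ _ _ _ _ _ _ _ hI
            (sub_lor_left _ _) (sub_lor_right _ _) hev
          obtain ⟨hKK, hCC, I, hIv, hcov⟩ := ih _ _ _ _ _ _ _ _ _ _ h
          refine ⟨hKK.of_lor_left.of_lor_left, hCC.of_lor_left,
            ⟨dec off s.b, dec off s.w, dec off Kv, capOf off C1v C2v 3⟩ :: I, ?_, ?_⟩
          · intro D hD
            rw [List.mem_cons] at hD
            rcases hD with rfl | hD
            · exact hV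
            · exact hIv D hD
          · intro y hy
            obtain ⟨h1, h2⟩ := hcov y hy
            have hcv : y ∉ dec off Kv → Q K' C1'
                ⟨dec off s.b, dec off s.w, dec off Kv, capOf off C1v C2v 3⟩ y := by
              intro hyK
              refine hmono (hline (C1v := C1v) (C2v := C2v) hy hyK) ?_ hCC.of_lor_right
              exact (hKK.of_lor_left.of_lor_right).lor hKK.of_lor_right
            constructor
            · intro hyU
              rcases h1 hyU with h1 | ⟨D, hD, hc⟩
              · rw [dec_land, Finset.mem_inter, not_and_or] at h1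
                rcases h1 with h1 | h1
                · exact Or.inl h1
                · exact Or.inr ⟨_, List.mem_cons_self, hcv h1⟩
              · exact Or.inr ⟨D, List.mem_cons_of_mem _ hD, hc⟩
            · intro _ hout
              exact ⟨_, List.mem_cons_self, hcv fun hc => hout (onBoard_of_mem hc)⟩
    · -- library item
      rw [cond_eq_ite] at h
      split_ifs at h with hcond
      · simp only [Bool.and_eq_true] at hcond
        obtain ⟨⟨hge, hf⟩, hgv⟩ := hcond
        obtain ⟨hdx, hdy⟩ := geOK_spec hge
        set it := gt (Nat.mod wd 1048576) with hit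
        set dx := Nat.mod (Nat.shiftRight wd 20) 32 with hdx'
        set dy := Nat.mod (Nat.shiftRight wd 25) 32 with hdy'
        obtain ⟨hg1, hg3, hval⟩ := hgt (Nat.mod wd 1048576)
        have hg2 : 2 ≤ it.g := by
          cases v
          · exact Nat.le_of_ble_eq_true hgv
          · have := eq_of_beq hgv
            rw [this]; norm_num
        have hgv' : v = true → it.g = 3 := by
          rintro rfl
          exact eq_of_beq hgv
        obtain ⟨hKK, hCC, I, hIv, hcov⟩ := ih _ _ _ _ _ _ _ _ _ _ h
        refine ⟨hKK.of_lor_left.of_lor_left, hCC.of_lor_left,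
          it.data off dx dy :: I, ?_, ?_⟩
        · intro D hD
          rw [List.mem_cons] at hD
          rcases hD with rfl | hD
          · exact hval off dx dy hdx hdy
          · exact hIv D hD
        · intro y hy
          obtain ⟨h1, h2⟩ := hcov y hy
          have hcv : y ∉ dec off (Nat.lor (it.inst dx dy).K (cellsOf0 (mR0 s (it.inst dx dy)))) →
              Q K' C1' (it.data off dx dy) y := by
            intro hyK
            refine hmono (hitem hg2 hg3 hgv' hf hy hyK) ?_ hCC.of_lor_right
            exact (hKK.of_lor_left.of_lor_right).lor hKK.of_lor_right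
          constructor
          · intro hyU
            rcases h1 hyU with h1 | ⟨D, hD, hc⟩
            · rw [dec_land, Finset.mem_inter, not_and_or] at h1
              rcases h1 with h1 | h1
              · exact Or.inl h1
              · exact Or.inr ⟨_, List.mem_cons_self, hcv h1⟩
            · exact Or.inr ⟨D, List.mem_cons_of_mem _ hD, hc⟩
          · intro _ hout
            exact ⟨_, List.mem_cons_self, hcv fun hc => hout (onBoard_of_mem hc)⟩

theorem nullsG_sound {off : Cell} {gt : ℕ → Item} (hgt : ∀ i, ItemValid (gt i)) {v : Bool}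
    {s : St} (hI : Inv off s) : ∀ (m wd : ℕ) (st : List ℕ) (K C1 U wd' : ℕ) (st' : List ℕ)
    (K' C1' U' : ℕ), nullsG gt v m wd s st K C1 U = RN.ok wd' st' K' C1' U' →
    Sub K K' ∧ Sub C1 C1' ∧ ∃ I : List Data, (∀ D ∈ I, Valid D) ∧
      ∀ y, y ∉ dec off s.w →
        (y ∉ dec off U' → y ∉ dec off U ∨ ∃ D ∈ I, CovV off v s K' C1' D y) ∧
        (1 ≤ m → ¬ OnBoard off y → ∃ D ∈ I, CovV off v s K' C1' D y) :=
  nullsG_gen hgt hI (CovV off v s) (fun h h1 h2 => h.mono h1 h2)
    (fun h2 h3 hv hf _ hyW hy => covV_item hI h2 h3 hv hf hyW hy)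
    (fun hyW hy => covV_line hyW hy)

theorem loopG_sound {off : Cell} {v : Bool} {f : St → List ℕ → ℕ → ℕ → RG}
    (hf : ∀ (s : St) (st : List ℕ) (K C1 : ℕ) (st' : List ℕ) (K' C1' : ℕ),
      Inv off s → Sub s.b K → Sub s.w K → f s st K C1 = RG.ok st' K' C1' →
      Sub K K' ∧ Sub C1 C1' ∧ Valid (dataV off v s K' C1'))
    {s : St} (hI : Inv off s) : ∀ (n cw U : ℕ) (st : List ℕ) (K C1 : ℕ) (st' : List ℕ)
    (K' C1' : ℕ), Sub s.b K → Sub s.w K → loopG f n cw U s st K C1 = RG.ok st' K' C1' →
    Sub K K' ∧ Sub C1 C1' ∧ ∃ I : List Data, (∀ D ∈ I, Valid D) ∧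
      ∀ y, y ∈ dec off U → y ∉ dec off s.b → y ∉ dec off s.w →
        ∃ D ∈ I, CovV off v s K' C1' D y := by
  intro n
  induction n with
  | zero =>
    intro cw U st K C1 st' K' C1' hbK hwK h
    unfold loopG at h
    simp only at h
    rw [cond_eq_ite] at h
    split_ifs at h with hcond
    · simp only [RG.ok.injEq] at h
      obtain ⟨-, rfl, rfl⟩ := h
      refine ⟨Sub.refl _, Sub.refl _, [], by simp, ?_⟩
      intro y hyU hyb hyw
      exfalso
      have h1 : Nat.lor U (Nat.lor s.b s.w) = Nat.lor s.b s.w := eq_of_beq hcond
      have h2 : y ∈ dec off (Nat.lor U (Nat.lor s.b s.w)) := by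
        rw [dec_lor, Finset.mem_union]; exact Or.inl hyU
      have h3 : dec off (Nat.lor U (Nat.lor s.b s.w)) = dec off (Nat.lor s.b s.w) :=
        congrArg _ h1
      have h4 : y ∈ dec off (Nat.lor s.b s.w) := h3 ▸ h2
      rcases Finset.mem_union.1 ((dec_lor (off := off)) ▸ h4) with h | h
      · exact hyb h
      · exact hyw h
  | succ n ih =>
    intro cw U st K C1 st' K' C1' hbK hwK h
    unfold loopG at h
    simp only at h
    set y0 := Nat.mod cw 1024 with hy0
    have hlt : y0 < 1024 := Nat.mod_lt _ (by norm_num)
    rw [cond_eq_ite] at h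
    split_ifs at h with hcond
    · obtain ⟨hin, hb, hw⟩ := isFree_spec hlt hcond
      split at h
      · simp at h
      · rename_i st1 K1 C11 hev
        have hsw : Sub (s.addW y0).w (Nat.lor K (Nat.shiftLeft 1 y0)) := by
          show Sub (Nat.lor s.w (Nat.shiftLeft 1 y0)) _
          exact (hwK.trans (sub_lor_left _ _)).lor (sub_lor_right _ _)
        have hsb : Sub (s.addW y0).b (Nat.lor K (Nat.shiftLeft 1 y0)) :=
          hbK.trans (sub_lor_left _ _)
        obtain ⟨hK1, hC1, hV⟩ := hf _ _ _ _ _ _ _ (hI.addW hin hb) hsb hsw hev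
        have hKK1 := hK1.of_lor_left
        obtain ⟨hK2, hC2, I, hIv, hcov⟩ := ih _ _ _ _ _ _ _ _
          (hbK.trans hKK1) (hwK.trans hKK1) h
        refine ⟨hKK1.trans hK2, hC1.trans hC2, dataV off v (s.addW y0) K' C1' :: I, ?_, ?_⟩
        · intro D hD
          rw [List.mem_cons] at hD
          rcases hD with rfl | hD
          · exact validV_mono hK2 hC2 hV
          · exact hIv D hD
        · intro y hyU hyb hyw
          by_cases hy : y = cellOf off y0
          · refine ⟨_, List.mem_cons_self, ?_⟩
            subst hy
            have hins : dec off (s.addW y0).w = insert (cellOf off y0) (dec off s.w) :=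
              dec_insert hlt
            intro K'' C'' hK'' hC''
            unfold dataV
            refine ⟨Finset.Subset.refl _, ?_, ?_, ?_, hK''.dec off, ?_⟩
            · show Disjoint (dec off s.b \ dec off s.b) _
              simp
            · show dec off (s.addW y0).w ⊆ _
              rw [hins]
            · show Disjoint (insert (cellOf off y0) (dec off s.w) \ dec off (s.addW y0).w) _
              rw [hins]; simp
            · intro L hL hd
              show (L ∩ (insert (cellOf off y0) (dec off s.w) \ dec off (s.addW y0).w)).card + _ ≤ _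
              rw [hins]
              simp only [sdiff_self, Finset.bot_eq_empty, Finset.inter_empty, Finset.card_empty,
                zero_add]
              exact (min_le_left _ _).trans (capV_mono hC'')
          · have hyU' : y ∈ dec off (minus U (Nat.shiftLeft 1 y0)) := by
              rw [mem_dec] at hyU ⊢
              obtain ⟨i, hi, hbit, rfl⟩ := hyU
              refine ⟨i, hi, ?_, rfl⟩
              rw [tb_minus, hbit, tb_bit]
              have : y0 ≠ i := fun h => hy (by rw [h])
              simp [this]
            obtain ⟨D, hD, hc⟩ := hcov y hyU' hyb hyw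
            exact ⟨D, List.mem_cons_of_mem _ hD, hc⟩

theorem nat_lt_1024 (x : ℕ) : Nat.mod x 1024 < 1024 := Nat.mod_lt _ (by norm_num)

theorem fm_onBoard : ∀ i, i < 1024 → FM.testBit i = true := by
  decide +kernel

/-- soundness of the accumulating evaluator -/
theorem evG_sound {off : Cell} {gt : ℕ → Item} (hgt : ∀ i, ItemValid (gt i)) {v : Bool} :
    ∀ (n : ℕ) (s : St) (st : List ℕ) (K C1 : ℕ) (st' : List ℕ) (K' C1' : ℕ),
      Inv off s → Sub s.b K → Sub s.w K → evG gt v n s st K C1 = RG.ok st' K' C1' →
      Sub K K' ∧ Sub C1 C1' ∧ Valid (dataV off v s K' C1') := by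
  intro n
  induction n with
  | zero =>
    intro s st K C1 st' K' C1' hI hbK hwK h
    unfold evG at h
    simp at h
  | succ n ih =>
    intro s st0 K C1 st' K' C1' hI hbK hwK h
    rcases st0 with _ | ⟨w0, st⟩
    · unfold evG at h
      simp at h
    unfold evG at h
    simp only at h
    rw [cond_eq_ite] at h
    split_ifs at h with htag3
    · -- QUIET
      set c := Nat.mod (Nat.shiftRight w0 2) 1024 with hc
      have hclt : c < 1024 := nat_lt_1024 _
      rw [cond_eq_ite] at h
      split_ifs at h with hcond
      · simp only [Bool.and_eq_true] at hcond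
        obtain ⟨hfree, h4⟩ := hcond
        obtain ⟨hin, hb, hw⟩ := isFree_spec hclt hfree
        have h4 := eq_of_beq h4
        have hI1 : Inv off (s.addB c) := hI.addB hin hw
        split at h
        · simp at h
        · rename_i wd1 st1 K1 C11 U1 hnull
          obtain ⟨hK1, hC1, I1, hI1v, hcov1⟩ := nullsG_sound hgt hI1 _ _ _ _ _ _ _ _ _ _ _ hnull
          have hcK : Sub (Nat.shiftLeft 1 c) K1 := hK1.of_lor_left.of_lor_right
          have hKK1 : Sub K K1 := hK1.of_lor_left.of_lor_left
          have hbK1 : Sub (s.addB c).b K1 := (hbK.trans hKK1).lor hcK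
          have hwK1 : Sub (s.addB c).w K1 := hwK.trans hKK1
          obtain ⟨hK2, hC2, I2, hI2v, hcov2⟩ := loopG_sound (off := off) (v := v) ih hI1
            _ _ _ _ _ _ _ _ _ hbK1 hwK1 h
          refine ⟨hKK1.trans hK2, hC1.of_lor_left.trans hC2, ?_⟩
          have hbK2 := hbK1.trans hK2
          have hwK2 := hwK1.trans hK2
          have hins : dec off (s.addB c).b = insert (cellOf off c) (dec off s.b) :=
            dec_insert hclt
          unfold dataV
          apply valid_of_and (b := cellOf off c) (K' := dec off K') (cap' := capV off v C1')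
          · rw [cellOf_mem_dec hclt, hb]; simp
          · rw [cellOf_mem_dec hclt, hw]; simp
          · rw [cellOf_mem_dec hclt]; exact (hcK.trans hK2).bit
          · exact Finset.Subset.refl _
          · intro L _ _
            exact min_le_left _ _
          rw [← hins]
          show AndValid ⟨dec off (s.addB c).b, dec off (s.addB c).w, dec off K', capV off v C1'⟩
          apply andValid_of_items (hbK2.dec off) (hwK2.dec off) hI1.disj _ (I1 ++ I2)
          · intro D hD
            rw [List.mem_append] at hD
            rcases hD with hD | hD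
            · exact hI1v D hD
            · exact hI2v D hD
          · intro y hyb hyw
            right
            obtain ⟨h1, h2⟩ := hcov1 y hyw
            by_cases hout : OnBoard off y
            · by_cases hyU : y ∈ dec off U1
              · obtain ⟨D, hD, hcv⟩ := hcov2 y hyU hyb hyw
                exact ⟨D, List.mem_append_right _ hD, hcv K' C1' (Sub.refl _) (Sub.refl _)⟩
              · rcases h1 hyU with h3 | ⟨D, hD, hcv⟩
                · exfalso
                  apply h3
                  obtain ⟨i, hi, rfl⟩ := hout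
                  rw [cellOf_mem_dec hi]
                  exact fm_onBoard i hi
                · exact ⟨D, List.mem_append_left _ hD, hcv K' C1' hK2 hC2⟩
            · obtain ⟨D, hD, hcv⟩ := h2 (by omega) hout
              exact ⟨D, List.mem_append_left _ hD, hcv K' C1' hK2 hC2⟩
          · exact checkV hI1 h4 (hK1.of_lor_right.trans hK2) (hC1.of_lor_right.trans hC2)
    rw [cond_eq_ite] at h
    split_ifs at h with htag0
    · -- LINE
      split at h
      · simp at h
      · rename_i K1 C11 C21 hev
        simp only [RG.ok.injEq] at h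
        obtain ⟨-, rfl, rfl⟩ := h
        obtain ⟨hKK, hCC, -, hV⟩ := evF_sound (off := off) _ _ _ _ _ _ _ _ _ hI hbK hwK hev
        refine ⟨hKK, hCC, ?_⟩
        unfold dataV
        apply hV.weaken (Finset.Subset.refl _)
        intro L _ _
        exact (min_le_left _ _).trans capV_le_cap3
    rw [cond_eq_ite] at h
    split_ifs at h with htag1
    · -- LEAF
      set it := gt (Nat.mod (Nat.shiftRight w0 2) 1048576) with hit
      set dx := Nat.mod (Nat.shiftRight (Nat.shiftRight w0 2) 20) 32 with hdx'
      set dy := Nat.mod (Nat.shiftRight (Nat.shiftRight w0 2) 25) 32 with hdy'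
      obtain ⟨hg1, hg3, hval⟩ := hgt (Nat.mod (Nat.shiftRight w0 2) 1048576)
      rw [← hit] at hg1 hg3 hval
      rw [cond_eq_ite] at h
      split_ifs at h with hg2
      · have hg2 : 2 ≤ it.g := Nat.le_of_ble_eq_true hg2
        rw [cond_eq_ite] at h
        split_ifs at h with hcond
        · simp only [RG.ok.injEq] at h
          obtain ⟨-, rfl, rfl⟩ := h
          simp only [Bool.and_eq_true] at hcond
          obtain ⟨hge, hf⟩ := hcond
          obtain ⟨hdx, hdy⟩ := geOK_spec hge
          obtain ⟨hb, hw, hm, h4⟩ := fits_spec hf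
          have hB := land_eq_spec (off := off) hb
          have hW := land_eq_spec (off := off) hw
          have hKK : Sub K (Nat.lor (Nat.lor K (it.inst dx dy).K)
            (cellsOf0 (mR0 s (it.inst dx dy)))) := (sub_lor_left _ _).trans (sub_lor_left _ _)
          refine ⟨hKK, sub_lor_left _ _, ?_⟩
          unfold dataV
          apply valid_of_item (D := it.data off dx dy) ((hbK.trans hKK).dec off)
            ((hwK.trans hKK).dec off) hI.disj hB.1 hB.2 hW.1 hW.2
            (((sub_lor_right _ _).trans (sub_lor_left _ _)).dec off) _ (hval off dx dy hdx hdy)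
          intro L hL hd
          have hOK : InsOK it.g (it.inst dx dy) := insOK_inst hg2 hg3
          obtain ⟨c0, c1, c2, c3⟩ := fits_cap (off := off) hI hOK h4 hm hL hd
          have hcapG : (it.data off dx dy).cap =
              capOf off (it.inst dx dy).C1 (it.inst dx dy).C2 it.g := by
            show capG off it.g _ _ = _
            unfold capG
            rw [if_neg (by omega)]
          rw [hcapG]
          have hle : (L ∩ (dec off s.w \ (it.data off dx dy).W)).card ≤
              (L ∩ dec off s.w).card := by
            apply Finset.card_le_card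
            exact Finset.inter_subset_inter (Finset.Subset.refl _) Finset.sdiff_subset
          have hceff : ceff (dec off (Nat.lor (Nat.lor K (it.inst dx dy).K)
              (cellsOf0 (mR0 s (it.inst dx dy)))))
              (capV off v (Nat.lor C1 (mR1 s (it.inst dx dy)))) L ≤
              capV off v (Nat.lor C1 (mR1 s (it.inst dx dy))) L := min_le_left _ _
          by_cases d0 : capOf off (it.inst dx dy).C1 (it.inst dx dy).C2 it.g L ≤
              (L ∩ dec off s.w).card
          · rw [ceff_zero (c1 d0) (sub_lor_right _ _)]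
            omega
          by_cases d1 : capOf off (it.inst dx dy).C1 (it.inst dx dy).C2 it.g L ≤
              (L ∩ dec off s.w).card + 1
          · have := capV_le1 (off := off) (v := v) (C1 := Nat.lor C1 (mR1 s (it.inst dx dy)))
              (L := L) (Or.inr ((sub_lor_right _ _).inMask (c2 d1)))
            omega
          · have := capV_le2 (off := off) (v := v)
              (C1 := Nat.lor C1 (mR1 s (it.inst dx dy))) (L := L)
            omega
      · have hg2' : it.g = 1 := by
          have : ¬ 2 ≤ it.g := fun h => hg2 (Nat.ble_eq_true_of_le h)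
          omega
        rw [cond_eq_ite] at h
        split_ifs at h with hcond
        · simp only [RG.ok.injEq] at h
          obtain ⟨-, rfl, rfl⟩ := h
          simp only [Bool.and_eq_true, Bool.not_eq_true'] at hcond
          obtain ⟨⟨⟨hge, hv⟩, hb⟩, hw⟩ := hcond
          obtain ⟨hdx, hdy⟩ := geOK_spec hge
          have hB := land_eq_spec (off := off) (eq_of_beq hb)
          have hw := eq_of_beq hw
          have hW : dec off s.w = (it.data off dx dy).W := congrArg _ hw
          have hKK : Sub K (Nat.lor K (it.inst dx dy).K) := sub_lor_left _ _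
          refine ⟨hKK, Sub.refl _, ?_⟩
          unfold dataV
          apply valid_of_item (D := it.data off dx dy) ((hbK.trans hKK).dec off)
            ((hwK.trans hKK).dec off) hI.disj hB.1 hB.2 (by rw [hW]) (by rw [hW]; simp)
            ((sub_lor_right _ _).dec off) _ (hval off dx dy hdx hdy)
          intro L hL hd
          rw [← hW]
          have hcapG : (it.data off dx dy).cap = fun _ => 1 := by
            show capG off it.g _ _ = _
            unfold capG
            rw [if_pos hg2']
          rw [hcapG]
          simp only [sdiff_self, Finset.bot_eq_empty, Finset.inter_empty, Finset.card_empty,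
                zero_add]
          exact (min_le_left _ _).trans (capV_le1 (Or.inl hv))
    · -- FOUR
      set c := Nat.mod (Nat.shiftRight w0 2) 1024 with hc
      set t := Nat.mod (Nat.shiftRight (Nat.shiftRight w0 2) 10) 1024 with ht
      have hclt : c < 1024 := nat_lt_1024 _
      have htlt : t < 1024 := nat_lt_1024 _
      rw [cond_eq_ite] at h
      split_ifs at h with hcond
      · simp only [Bool.and_eq_true] at hcond
        obtain ⟨⟨⟨hf, hf2⟩, h5⟩, ha4⟩ := hcond
        have ha4 := eq_of_beq ha4
        obtain ⟨hin, hb, hw⟩ := isFree_spec hclt hf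
        obtain ⟨htin, htb, htw⟩ := isFree_spec htlt hf2
        obtain ⟨hl1, hl2⟩ := fiveOK_spec h5 off
        have hI1 : Inv off (s.addB c) := hI.addB hin hw
        have hI2 : Inv off ((s.addB c).addW t) := hI1.addW htin htb
        have hs1b : (s.addB c).b = Nat.lor s.b (Nat.shiftLeft 1 c) := rfl
        have hs1w : (s.addB c).w = s.w := rfl
        obtain ⟨hKK, hC1, hV⟩ := ih _ _ _ _ _ _ _ hI2 (by
            show Sub (Nat.lor s.b (Nat.shiftLeft 1 c)) _
            apply Sub.lor
            · exact hbK.trans ((sub_lor_left _ _).trans (sub_lor_left _ _))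
            · exact (sub_lor_left _ _).trans ((sub_lor_right _ _).trans (sub_lor_left _ _)))
          (by
            show Sub (Nat.lor s.w (Nat.shiftLeft 1 t)) _
            apply Sub.lor
            · exact hwK.trans ((sub_lor_left _ _).trans (sub_lor_left _ _))
            · exact (sub_lor_right _ _).trans ((sub_lor_right _ _).trans (sub_lor_left _ _))) h
        have hKc := hKK.of_lor_left.of_lor_right.of_lor_left
        have hKt := hKK.of_lor_left.of_lor_right.of_lor_right
        have hKK0 := hKK.of_lor_left.of_lor_left
        have hK3 := hKK.of_lor_right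
        refine ⟨hKK0, hC1.of_lor_left, ?_⟩
        unfold dataV
        apply valid_of_and (b := cellOf off c) (K' := dec off K') (cap' := capV off v C1')
        · rw [cellOf_mem_dec hclt, hb]; simp
        · rw [cellOf_mem_dec hclt, hw]; simp
        · rw [cellOf_mem_dec hclt]; exact hKc.bit
        · exact Finset.Subset.refl _
        · intro L _ _
          exact min_le_left _ _
        rw [← dec_insert hclt]
        apply andValid_four (t := cellOf off t) (K' := dec off K') (cap' := capV off v C1')
        · apply Sub.dec
          exact (hbK.trans hKK0).lor hKc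
        · apply Sub.dec
          exact hwK.trans hKK0
        · exact hI1.disj
        · rw [cellOf_mem_dec htlt]; rw [hs1b] at htb; rw [htb]; simp
        · rw [cellOf_mem_dec htlt]; rw [hs1w] at htw; rw [htw]; simp
        · rw [cellOf_mem_dec htlt]; exact hKt.bit
        · refine ⟨_, hl1, ?_⟩
          rw [← dec_insert htlt]
          exact hl2
        · exact checkV hI1 ha4 hK3 hC1.of_lor_right
        · exact Finset.Subset.refl _
        · intro L _ _
          exact min_le_left _ _
        · have e : insert (cellOf off t) (dec off s.w) = dec off ((s.addB c).addW t).w := by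
            show _ = dec off (Nat.lor s.w (Nat.shiftLeft 1 t))
            rw [dec_insert htlt]
          rw [e]
          exact hV

end Pool.Agent.Gomoku
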