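import Pool.Agent.Helper47.Gomoku.ItemSem

set_option autoImplicit false

namespace Pool.Agent.Gomoku

open Finset

/-- plain application of valid data (no protected pair) -/
theorem Valid.apply_plain {D : Data} (h : Valid D) : ∃ n, ∀ B W : Finset Cell, D.B ⊆ B →
    Disjoint (B \ D.B) D.K → D.W ⊆ W → Disjoint (W \ D.W) D.K → Disjoint B W →
    (∀ L, IsLine L → Disjoint L B → (L ∩ (W \ D.W)).card ≤ D.cap L) → Win n B W := by
  obtain ⟨n, hn⟩ := h
  refine ⟨n, fun B W h1 h2 h3 h4 h5 h6 => ?_⟩
  have h7 : Env D.B D.K D.cap (W \ D.W) (B \ D.B) none := by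
    refine ⟨?_, h4, h2, ?_⟩
    · exact (Finset.disjoint_of_subset_left Finset.sdiff_subset
        (Finset.disjoint_of_subset_right Finset.sdiff_subset h5)).symm
    · intro L hL hd
      rw [Finset.union_sdiff_of_subset h1] at hd
      exact h6 L hL hd
  have h8 := hn _ _ _ h7
  rwa [Finset.union_sdiff_of_subset h1, Finset.union_sdiff_of_subset h3] at h8

theorem inMask_cells {off : Cell} {E : ℕ} {L : Finset Cell} (h : InMask off E L) :
    L ⊆ dec off (cellsOf0 E) := by
  obtain ⟨k, hk, hE, rfl⟩ := h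
  have h2 : cellsOf0 E = cellsOf E := by
    unfold cellsOf0
    have : Nat.beq E 0 = false := by
      cases hb : Nat.beq E 0
      · rfl
      · have := eq_of_beq hb
        subst this
        simp at hE
    rw [this]; rfl
  rw [h2]
  exact winK_subset_cellsOf hk hE

theorem card_inter_insert {L W : Finset Cell} {y : Cell} :
    (L ∩ insert y W).card ≤ (L ∩ W).card + 1 := by
  by_cases hy : y ∈ L
  · rw [Finset.inter_insert_of_mem hy]
    exact Finset.card_insert_le _ _
  · rw [Finset.inter_insert_of_notMem hy]; omega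

theorem notHasFive_insert {off : Cell} {s : St} (hI : Inv off s) (h4 : s.a4 = 0) {y : Cell}
    (hy : y ∉ dec off s.b) : ¬ HasFive (insert y (dec off s.w)) := by
  rintro ⟨L, hL, hLS⟩
  have hd : Disjoint L (dec off s.b) := by
    rw [Finset.disjoint_left]
    intro c hc hcb
    have h1 := hLS hc
    rw [Finset.mem_insert] at h1
    rcases h1 with rfl | h1
    · exact hy hcb
    · exact Finset.disjoint_left.1 hI.disj hcb h1
  have h3 := hI.le_of_a4 h4 hL hd
  have h5 : L.card ≤ (L ∩ dec off s.w).card + 1 := by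
    have h6 : L ∩ insert y (dec off s.w) = L := Finset.inter_eq_left.2 hLS
    have h7 := card_inter_insert (L := L) (W := dec off s.w) (y := y)
    rwa [h6] at h7
  rw [hL.card] at h5
  omega

/-- all empty cells outside `U` are covered within `N` moves (White to move) -/
def Cov (off : Cell) (s : St) (N U : ℕ) : Prop :=
  ∀ y, y ∉ dec off s.b → y ∉ dec off s.w → y ∉ dec off U →
    Win N (dec off s.b) (insert y (dec off s.w))

theorem Cov.mono {off : Cell} {s : St} {N M U : ℕ} (h : Cov off s N U) (hNM : N ≤ M) :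
    Cov off s M U := fun y h1 h2 h3 => (h y h1 h2 h3).mono hNM

theorem Cov.land {off : Cell} {s : St} {N M U O : ℕ} (h : Cov off s N U) (h' : Cov off s M O) :
    Cov off s (max N M) (Nat.land U O) := by
  intro y h1 h2 h3
  rw [dec_land, Finset.mem_inter, not_and_or] at h3
  rcases h3 with h3 | h3
  · exact (h y h1 h2 h3).mono (le_max_left _ _)
  · exact (h' y h1 h2 h3).mono (le_max_right _ _)

theorem capG_eq {off : Cell} {g C1 C2 : ℕ} (hg : 2 ≤ g) : capG off g C1 C2 = capOf off C1 C2 g := by
  unfold capG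
  rw [if_neg (by omega)]

theorem capG_one {off : Cell} {g C1 C2 : ℕ} (hg : g = 1) (L : Finset Cell) :
    capG off g C1 C2 L = 1 := by
  unfold capG
  rw [if_pos hg]

/-- a library item with default cap 2 or 3 at an AND node -/
theorem cov_item {off : Cell} {s : St} {it : Item} {dx dy : ℕ} (hI : Inv off s)
    (hv : ItemValid it) (hg : 2 ≤ it.g) (hge : geOK it dx dy = true)
    (hf : fits s (it.inst dx dy) = true) :
    ∃ N, Cov off s N (Nat.lor (it.inst dx dy).K (cellsOf0 (mR0 s (it.inst dx dy)))) := by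
  obtain ⟨hdx, hdy⟩ := geOK_spec hge
  obtain ⟨N, hN⟩ := (hv.2.2 off dx dy hdx hdy).apply_plain
  obtain ⟨f1, f2, f3, f4⟩ := fits_spec hf
  obtain ⟨b1, b2⟩ := land_eq_spec (off := off) f1
  obtain ⟨w1, w2⟩ := land_eq_spec (off := off) f2
  refine ⟨N, fun y hyB hyW hyU => ?_⟩
  rw [dec_lor, Finset.mem_union, not_or] at hyU
  refine hN _ _ b1 b2 (w1.trans (Finset.subset_insert _ _)) ?_ ?_ ?_
  · rw [Finset.disjoint_left] at w2 ⊢
    intro c hc
    rw [Finset.mem_sdiff, Finset.mem_insert] at hc
    rcases hc.1 with rfl | hc'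
    · exact hyU.1
    · exact w2 (Finset.mem_sdiff.2 ⟨hc', hc.2⟩)
  · rw [Finset.disjoint_insert_right]
    exact ⟨hyB, hI.disj⟩
  · intro L hL hd
    have hcap := fits_cap hI (insOK_inst (dx := dx) (dy := dy) hg hv.2.1) f4 f3 hL hd
    obtain ⟨k1, k2, -, -⟩ := hcap
    have e : (it.data off dx dy).cap L =
        capOf off (it.inst dx dy).C1 (it.inst dx dy).C2 it.g L := by
      show capG off it.g (it.inst dx dy).C1 (it.inst dx dy).C2 L = _
      rw [capG_eq hg]
    rw [e]
    have hsub : (L ∩ (insert y (dec off s.w) \ (it.data off dx dy).W)).card ≤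
        (L ∩ insert y (dec off s.w)).card :=
      Finset.card_le_card (Finset.inter_subset_inter_left Finset.sdiff_subset)
    by_cases hc : capOf off (it.inst dx dy).C1 (it.inst dx dy).C2 it.g L ≤
        (L ∩ dec off s.w).card
    · have hyL : y ∉ L := fun h => hyU.2 (inMask_cells (k2 hc) h)
      rw [Finset.inter_insert_of_notMem hyL] at hsub
      exact hsub.trans k1
    · have := card_inter_insert (L := L) (W := dec off s.w) (y := y)
      omega

theorem single_spec {X : ℕ} (h : single X = true) : X = 0 ∨ X = 2 ^ Nat.log2 X := by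
  by_cases h0 : X = 0
  · exact Or.inl h0
  · right
    unfold single at h
    have h1 : X &&& (X - 1) = 0 := eq_of_beq h
    rw [Nat.and_sub_one_eq_zero_iff_isPowerOfTwo h0] at h1
    obtain ⟨k, rfl⟩ := h1
    rw [Nat.log2_two_pow]

theorem tb_xor (x y i : ℕ) : (Nat.xor x y).testBit i = (x.testBit i ^^ y.testBit i) :=
  Nat.testBit_xor _ _ _

/-- the white stones that are not stones of the item -/
theorem xor_spec {off : Cell} {w K W : ℕ} (h : Nat.land w K = W) :
    dec off (Nat.xor w W) = dec off w \ dec off W := by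
  subst h
  ext c
  rw [Finset.mem_sdiff, mem_dec, mem_dec, mem_dec]
  constructor
  · rintro ⟨i, hi, h1, rfl⟩
    rw [tb_xor, tb_land] at h1
    refine ⟨⟨i, hi, ?_, rfl⟩, ?_⟩
    · cases h2 : w.testBit i
      · rw [h2] at h1; simp at h1
      · rfl
    · rintro ⟨j, hj, h2, h3⟩
      have := cellOf_inj hi hj h3
      subst this
      rw [tb_land, Bool.and_eq_true] at h2
      rw [h2.1, h2.2] at h1
      simp at h1
  · rintro ⟨⟨i, hi, h1, rfl⟩, h2⟩
    refine ⟨i, hi, ?_, rfl⟩
    rw [tb_xor, tb_land, h1]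
    cases h3 : K.testBit i
    · rfl
    · exact absurd ⟨i, hi, by rw [tb_land, h1, h3]; rfl, rfl⟩ h2

/-- a library item with default cap 1 at an AND node -/
theorem cov_item1 {off : Cell} {s : St} {it : Item} {dx dy : ℕ} (hI : Inv off s)
    (hv : ItemValid it) (hg : it.g = 1) (hge : geOK it dx dy = true)
    (f1 : Nat.land s.b (it.inst dx dy).K = (it.inst dx dy).B)
    (f2 : Nat.land s.w (it.inst dx dy).K = (it.inst dx dy).W)
    (hs : single (Nat.xor s.w (it.inst dx dy).W) = true) :
    ∃ N, Cov off s N (Nat.lor (it.inst dx dy).K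
      (cond (Nat.beq (Nat.xor s.w (it.inst dx dy).W) 0) 0
        (cellsOf0 (Nat.land (WT (Nat.log2 (Nat.xor s.w (it.inst dx dy).W))) s.lv)))) := by
  obtain ⟨hdx, hdy⟩ := geOK_spec hge
  obtain ⟨N, hN⟩ := (hv.2.2 off dx dy hdx hdy).apply_plain
  obtain ⟨b1, b2⟩ := land_eq_spec (off := off) f1
  obtain ⟨w1, w2⟩ := land_eq_spec (off := off) f2
  have hx := xor_spec (off := off) f2
  refine ⟨N, fun y hyB hyW hyU => ?_⟩
  rw [dec_lor, Finset.mem_union, not_or] at hyU
  refine hN _ _ b1 b2 (w1.trans (Finset.subset_insert _ _)) ?_ ?_ ?_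
  · rw [Finset.disjoint_left] at w2 ⊢
    intro c hc
    rw [Finset.mem_sdiff, Finset.mem_insert] at hc
    rcases hc.1 with rfl | hc'
    · exact hyU.1
    · exact w2 (Finset.mem_sdiff.2 ⟨hc', hc.2⟩)
  · rw [Finset.disjoint_insert_right]
    exact ⟨hyB, hI.disj⟩
  · intro L hL hd
    have e : (it.data off dx dy).cap L = 1 := capG_one hg L
    rw [e]
    -- the extra stones
    have hsub : insert y (dec off s.w) \ (it.data off dx dy).W ⊆
        insert y (dec off s.w \ dec off (it.inst dx dy).W) := by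
      intro c hc
      rw [Finset.mem_sdiff, Finset.mem_insert] at hc
      rw [Finset.mem_insert, Finset.mem_sdiff]
      rcases hc.1 with rfl | hc'
      · exact Or.inl rfl
      · exact Or.inr ⟨hc', hc.2⟩
    rw [← hx] at hsub
    rcases single_spec hs with h0 | h0
    · rw [h0, dec_zero] at hsub
      have h1 := Finset.card_le_card (Finset.inter_subset_inter_left (s := L) hsub)
      refine h1.trans ?_
      exact (Finset.card_le_card Finset.inter_subset_right).trans (by simp)
    · set x := Nat.log2 (Nat.xor s.w (it.inst dx dy).W) with hxdef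
      have hbit : (Nat.xor s.w (it.inst dx dy).W).testBit x = true := by
        rw [h0, Nat.testBit_two_pow_self]
      have hwx : s.w.testBit x = true := by
        rw [tb_xor, ← f2, tb_land] at hbit
        cases h2 : s.w.testBit x
        · rw [h2] at hbit; simp at hbit
        · rfl
      have hinner := hI.wi x hwx
      have hxlt := inner_lt hinner
      have hdec : dec off (Nat.xor s.w (it.inst dx dy).W) = {cellOf off x} := by
        rw [h0]
        have : 2 ^ x = Nat.shiftLeft 1 x := (Nat.one_shiftLeft x).symm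
        rw [this]
        exact dec_bit hxlt
      rw [hdec] at hsub
      have hne : Nat.beq (Nat.xor s.w (it.inst dx dy).W) 0 = false := by
        cases hb : Nat.beq (Nat.xor s.w (it.inst dx dy).W) 0
        · rfl
        · have := eq_of_beq hb
          rw [this] at hbit
          simp at hbit
      rw [hne] at hyU
      have hyU2 : y ∉ dec off (cellsOf0 (Nat.land (WT x) s.lv)) := hyU.2
      refine (Finset.card_le_card (Finset.inter_subset_inter_left (s := L) hsub)).trans ?_
      by_cases hxL : cellOf off x ∈ L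
      · obtain ⟨k, hk, hLk⟩ := exists_winK hL hinner hxL
        have hmask : InMask off (Nat.land (WT x) s.lv) L := by
          refine ⟨k, hk, ?_, hLk⟩
          rw [tb_land, hI.lv k hk (hLk ▸ hd), Bool.and_true]
          exact (testBit_WT (off := off) hinner hk).2 (hLk ▸ hxL)
        have hyL : y ∉ L := fun h => hyU2 (inMask_cells hmask h)
        rw [Finset.inter_insert_of_notMem hyL]
        exact (Finset.card_le_card Finset.inter_subset_right).trans (by simp)
      · have hsub2 : L ∩ insert y {cellOf off x} ⊆ {y} := by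
          intro c hc
          rw [Finset.mem_inter, Finset.mem_insert, Finset.mem_singleton] at hc
          rw [Finset.mem_singleton]
          rcases hc.2 with h | h
          · exact h
          · exact absurd (h ▸ hc.1) hxL
        exact (Finset.card_le_card hsub2).trans (by simp)

/-- an inline line at an AND node -/
theorem cov_line {off : Cell} {s : St} {m wd Kv C1v C2v : ℕ} (hI : Inv off s)
    (h : evF m wd s (Nat.lor s.b s.w) 0 0 = R3.ok Kv C1v C2v) : ∃ N, Cov off s N Kv := by
  obtain ⟨h1, h2, h3, hV⟩ := evF_sound m wd s _ _ _ _ _ _ hI (sub_lor_left _ _)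
    (sub_lor_right _ _) h
  obtain ⟨N, hN⟩ := hV.apply_plain
  refine ⟨N, fun y hyB hyW hyU => ?_⟩
  have hsub : insert y (dec off s.w) \ dec off s.w ⊆ {y} := by
    intro c hc
    rw [Finset.mem_sdiff, Finset.mem_insert] at hc
    rw [Finset.mem_singleton]
    exact hc.1.resolve_right hc.2
  refine hN _ _ (Finset.Subset.refl _) ?_ (Finset.subset_insert _ _) ?_ ?_ ?_
  · rw [Finset.sdiff_self]; exact Finset.disjoint_empty_left _
  · refine Finset.disjoint_of_subset_left hsub ?_
    rw [Finset.disjoint_singleton_left]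
    exact hyU
  · rw [Finset.disjoint_insert_right]
    exact ⟨hyB, hI.disj⟩
  · intro L _ _
    have h5 : (L ∩ (insert y (dec off s.w) \ dec off s.w)).card ≤ 1 :=
      (Finset.card_le_card (Finset.inter_subset_right.trans hsub)).trans (by simp)
    refine h5.trans ?_
    show 1 ≤ capOf off C1v C2v 3 L
    unfold capOf
    split_ifs <;> omega

theorem nullsP_step {off : Cell} {gt : ℕ → Item} (hgt : ∀ i, ItemValid (gt i)) {m wd : ℕ} {s : St}
    {st st' : List ℕ} {U U' wd' : ℕ} (hI : Inv off s)
    (h : nullsP gt (m + 1) wd s st U = RQ.ok wd' st' U') :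
    ∃ O wd1 st1, (∃ N, Cov off s N O) ∧
      nullsP gt m wd1 s st1 (Nat.land U O) = RQ.ok wd' st' U' := by
  unfold nullsP at h
  simp only [cond_eq_ite] at h
  split_ifs at h with h1 h2 h3 h4 h5
  · rcases st with _ | ⟨w0, st0⟩
    · exact absurd h (by simp)
    · simp only at h
      rcases he : evF (Nat.mod w0 16) (Nat.shiftRight w0 4) s (Nat.lor s.b s.w) 0 0 with _ | ⟨Kv, C1v, C2v⟩
      · rw [he] at h
        exact absurd h (by simp)
      · rw [he] at h
        exact ⟨Kv, _, _, cov_line hI he, h⟩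
  · simp only [Bool.and_eq_true] at h3
    exact ⟨_, _, _, cov_item hI (hgt _) (Nat.le_of_ble_eq_true h2) h3.1 h3.2, h⟩
  all_goals
    simp only [Bool.and_eq_true] at h4
    obtain ⟨⟨⟨g1, g2⟩, g3⟩, g4⟩ := h4
    have hg1 : (gt (Nat.mod wd 1048576)).g = 1 := by
      have h6 := (hgt (Nat.mod wd 1048576)).1
      have h7 : ¬ 2 ≤ (gt (Nat.mod wd 1048576)).g := fun h7 => h2 (Nat.ble_eq_true_of_le h7)
      omega
    have hO := cov_item1 hI (hgt _) hg1 g1 (eq_of_beq g2) (eq_of_beq g3) g4
    rw [cond_eq_ite] at hO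
  · rw [if_pos h5] at hO
    exact ⟨_, _, _, hO, h⟩
  · rw [if_neg h5] at hO
    exact ⟨_, _, _, hO, h⟩

theorem nullsP_cov {off : Cell} {gt : ℕ → Item} (hgt : ∀ i, ItemValid (gt i)) {s : St}
    (hI : Inv off s) : ∀ (m wd : ℕ) (st st' : List ℕ) (U U' wd' : ℕ),
    nullsP gt m wd s st U = RQ.ok wd' st' U' → (∃ N, Cov off s N U) → ∃ N, Cov off s N U' := by
  intro m
  induction m with
  | zero =>
    intro wd st st' U U' wd' h hc
    unfold nullsP at h
    simp only [RQ.ok.injEq] at h
    rw [← h.2.2]; exact hc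
  | succ m ih =>
    intro wd st st' U U' wd' h hc
    obtain ⟨O, wd1, st1, ⟨N1, h1⟩, h2⟩ := nullsP_step hgt hI h
    obtain ⟨N2, h3⟩ := hc
    exact ih _ _ _ _ _ _ h2 ⟨_, h3.land h1⟩

theorem dec_land_FM {off : Cell} {O : ℕ} : dec off (Nat.land FM O) = dec off O := by
  ext c
  rw [mem_dec, mem_dec]
  have hFM : ∀ i, i < 1024 → FM.testBit i = true := by
    intro i hi
    have : FM = 2 ^ 1024 - 1 := by decide +kernel
    rw [this, Nat.testBit_two_pow_sub_one, decide_eq_true_eq]
    exact hi
  constructor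
  · rintro ⟨i, hi, h1, rfl⟩
    rw [tb_land, Bool.and_eq_true] at h1
    exact ⟨i, hi, h1.2, rfl⟩
  · rintro ⟨i, hi, h1, rfl⟩
    refine ⟨i, hi, ?_, rfl⟩
    rw [tb_land, hFM i hi, h1]; rfl

theorem loopP_sound {off : Cell} {f : St → List ℕ → RP}
    (hf : ∀ s st st', Inv off s → f s st = RP.ok st' → ∃ N, Win N (dec off s.b) (dec off s.w))
    {s : St} (hI : Inv off s) : ∀ (n cw U : ℕ) (st st' : List ℕ),
    loopP f n cw U s st = RP.ok st' → (∃ N, Cov off s N U) →
    ∃ N, ∀ y, y ∉ dec off s.b → y ∉ dec off s.w →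
      Win N (dec off s.b) (insert y (dec off s.w)) := by
  intro n
  induction n with
  | zero =>
    intro cw U st st' h hc
    unfold loopP at h
    simp only [cond_eq_ite] at h
    split_ifs at h with h1
    obtain ⟨N, hN⟩ := hc
    refine ⟨N, fun y h2 h3 => hN y h2 h3 fun h4 => ?_⟩
    have h5 := eq_of_beq h1
    have h6 : y ∈ dec off (Nat.lor s.b s.w) := by
      rw [← h5, dec_lor]
      exact Finset.mem_union_left _ h4
    rw [dec_lor, Finset.mem_union] at h6
    exact h6.elim h2 h3
  | succ n ih =>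
    intro cw U st st' h hc
    unfold loopP at h
    simp only [cond_eq_ite] at h
    split_ifs at h with h1
    have hlt : Nat.mod cw 1024 < 1024 := Nat.mod_lt _ (by norm_num)
    obtain ⟨hin, hb, hw⟩ := isFree_spec hlt h1
    rcases he : f (s.addW (Nat.mod cw 1024)) st with _ | st1
    · rw [he] at h
      exact absurd h (by simp)
    · rw [he] at h
      simp only at h
      obtain ⟨N1, hN1⟩ := hf _ _ _ (hI.addW hin hb) he
      have e : dec off (s.addW (Nat.mod cw 1024)).w =
          insert (cellOf off (Nat.mod cw 1024)) (dec off s.w) := dec_insert hlt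
      have e2 : dec off (s.addW (Nat.mod cw 1024)).b = dec off s.b := rfl
      rw [e, e2] at hN1
      obtain ⟨N, hN⟩ := hc
      refine ih _ _ _ _ h ⟨max N N1, fun z h2 h3 h4 => ?_⟩
      by_cases hz : z = cellOf off (Nat.mod cw 1024)
      · rw [hz]; exact hN1.mono (le_max_right _ _)
      · refine (hN z h2 h3 fun h5 => h4 ?_).mono (le_max_left _ _)
        rw [mem_dec] at h5 ⊢
        obtain ⟨i, hi, h6, rfl⟩ := h5
        refine ⟨i, hi, ?_, rfl⟩
        rw [tb_minus, h6, tb_bit, Bool.true_and, Bool.not_eq_true', decide_eq_false_iff_not]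
        rintro rfl
        exact hz rfl

/-- a library item at an OR node, default cap 2 or 3 -/
theorem win_item {off : Cell} {s : St} {it : Item} {dx dy : ℕ} (hI : Inv off s)
    (hv : ItemValid it) (hg : 2 ≤ it.g) (hge : geOK it dx dy = true)
    (hf : fits s (it.inst dx dy) = true) : ∃ N, Win N (dec off s.b) (dec off s.w) := by
  obtain ⟨hdx, hdy⟩ := geOK_spec hge
  obtain ⟨N, hN⟩ := (hv.2.2 off dx dy hdx hdy).apply_plain
  obtain ⟨f1, f2, f3, f4⟩ := fits_spec hf
  obtain ⟨b1, b2⟩ := land_eq_spec (off := off) f1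
  obtain ⟨w1, w2⟩ := land_eq_spec (off := off) f2
  refine ⟨N, hN _ _ b1 b2 w1 w2 hI.disj ?_⟩
  intro L hL hd
  have hcap := (fits_cap hI (insOK_inst (dx := dx) (dy := dy) hg hv.2.1) f4 f3 hL hd).1
  have e : (it.data off dx dy).cap L =
      capOf off (it.inst dx dy).C1 (it.inst dx dy).C2 it.g L := by
    show capG off it.g (it.inst dx dy).C1 (it.inst dx dy).C2 L = _
    rw [capG_eq hg]
  rw [e]
  exact (Finset.card_le_card (Finset.inter_subset_inter_left Finset.sdiff_subset)).trans hcap

/-- a library item at an OR node, default cap 1 -/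
theorem win_item1 {off : Cell} {s : St} {it : Item} {dx dy : ℕ} (hI : Inv off s)
    (hv : ItemValid it) (hg : it.g = 1) (hge : geOK it dx dy = true)
    (f1 : Nat.land s.b (it.inst dx dy).K = (it.inst dx dy).B)
    (f2 : Nat.land s.w (it.inst dx dy).K = (it.inst dx dy).W)
    (hs : single (Nat.xor s.w (it.inst dx dy).W) = true) :
    ∃ N, Win N (dec off s.b) (dec off s.w) := by
  obtain ⟨hdx, hdy⟩ := geOK_spec hge
  obtain ⟨N, hN⟩ := (hv.2.2 off dx dy hdx hdy).apply_plain
  obtain ⟨b1, b2⟩ := land_eq_spec (off := off) f1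
  obtain ⟨w1, w2⟩ := land_eq_spec (off := off) f2
  have hx := xor_spec (off := off) f2
  refine ⟨N, hN _ _ b1 b2 w1 w2 hI.disj ?_⟩
  intro L hL hd
  have e : (it.data off dx dy).cap L = 1 := capG_one hg L
  rw [e]
  refine (Finset.card_le_card Finset.inter_subset_right).trans ?_
  show (dec off s.w \ dec off (it.inst dx dy).W).card ≤ 1
  rw [← hx]
  rcases single_spec hs with h0 | h0
  · rw [h0, dec_zero]; simp
  · rw [h0, Finset.card_le_one]
    intro c hc d hd
    rw [mem_dec] at hc hd
    obtain ⟨i, hi, h1, rfl⟩ := hc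
    obtain ⟨j, hj, h2, rfl⟩ := hd
    rw [Nat.testBit_two_pow, decide_eq_true_eq] at h1 h2
    rw [← h1, ← h2]

/-- soundness of the plain evaluator -/
theorem evP_sound {off : Cell} {gt : ℕ → Item} {gp : ℕ → ℕ × ℕ} (hgt : ∀ i, ItemValid (gt i))
    (hgp : ∀ i, ∃ N, Win N (dec off (gp i).1) (dec off (gp i).2)) :
    ∀ (n : ℕ) (s : St) (st st' : List ℕ), Inv off s → evP gt gp n s st = RP.ok st' →
      ∃ N, Win N (dec off s.b) (dec off s.w) := by
  intro n
  induction n with
  | zero =>
    intro s st st' hI h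
    unfold evP at h
    exact absurd h (by simp)
  | succ n ih =>
    intro s st st' hI h
    rcases st with _ | ⟨w0, st0⟩
    · unfold evP at h
      exact absurd h (by simp)
    unfold evP at h
    simp only [cond_eq_ite] at h
    split_ifs at h with t1 t2 t3 t4 t9 t10 t5 t6 t7 t8
    · -- quiet move
      simp only [Bool.and_eq_true] at t2
      obtain ⟨hf, h4⟩ := t2
      have h4 := eq_of_beq h4
      have hlt : Nat.mod (Nat.shiftRight w0 2) 1024 < 1024 := Nat.mod_lt _ (by norm_num)
      obtain ⟨hin, hb, hw⟩ := isFree_spec hlt hf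
      have hI1 := hI.addB hin hw
      rcases he : nullsP gt (Nat.succ (Nat.mod (Nat.shiftRight (Nat.shiftRight w0 2) 10) 64))
        (Nat.shiftRight (Nat.shiftRight w0 2) 24) (s.addB (Nat.mod (Nat.shiftRight w0 2) 1024))
        st0 FM with _ | ⟨wd', st1, U⟩
      · rw [he] at h
        exact absurd h (by simp)
      · rw [he] at h
        simp only at h
        obtain ⟨O, wd1, st2, ⟨N1, h1⟩, h2⟩ := nullsP_step hgt hI1 he
        have hc1 : Cov off (s.addB (Nat.mod (Nat.shiftRight w0 2) 1024)) N1 (Nat.land FM O) := by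
          intro y hy1 hy2 hy3
          rw [dec_land_FM] at hy3
          exact h1 y hy1 hy2 hy3
        have hc2 := nullsP_cov hgt hI1 _ _ _ _ _ _ _ h2 ⟨N1, hc1⟩
        obtain ⟨N, hN⟩ := loopP_sound ih hI1 _ _ _ _ _ h hc2
        refine ⟨N + 1, Win.of_and (b := cellOf off (Nat.mod (Nat.shiftRight w0 2) 1024)) ?_ ?_ ?_⟩
        · rw [cellOf_mem_dec hlt, hb]; simp
        · rw [cellOf_mem_dec hlt, hw]; simp
        · intro y hy1 hy2
          have e : insert (cellOf off (Nat.mod (Nat.shiftRight w0 2) 1024)) (dec off s.b) =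
              dec off (s.addB (Nat.mod (Nat.shiftRight w0 2) 1024)).b := (dec_insert hlt).symm
          rw [e] at hy1 ⊢
          exact ⟨notHasFive_insert hI1 h4 hy1, hN y hy1 hy2⟩
    · -- a line
      rcases he : evF (Nat.mod (Nat.shiftRight w0 2) 16) (Nat.shiftRight (Nat.shiftRight w0 2) 4) s
        (Nat.lor s.b s.w) 0 0 with _ | ⟨Kv, C1v, C2v⟩
      · rw [he] at h
        exact absurd h (by simp)
      · obtain ⟨h1, h2, h3, hV⟩ := evF_sound _ _ s _ _ _ _ _ _ hI (sub_lor_left _ _)
          (sub_lor_right _ _) he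
        obtain ⟨N, hN⟩ := hV.apply_plain
        refine ⟨N, hN _ _ (Finset.Subset.refl _) ?_ (Finset.Subset.refl _) ?_ hI.disj ?_⟩
        · rw [Finset.sdiff_self]; exact Finset.disjoint_empty_left _
        · rw [Finset.sdiff_self]; exact Finset.disjoint_empty_left _
        · intro L _ _
          show (L ∩ (dec off s.w \ dec off s.w)).card ≤ _
          rw [Finset.sdiff_self, Finset.inter_empty, Finset.card_empty]
          exact Nat.zero_le _
    · -- a plain lemma
      simp only [Bool.and_eq_true] at t10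
      have g1 := eq_of_beq t10.1
      have g2 := eq_of_beq t10.2
      rw [g1, g2]
      exact hgp _
    · simp only [Bool.and_eq_true] at t6
      exact win_item hI (hgt _) (Nat.le_of_ble_eq_true t5) t6.1 t6.2
    · simp only [Bool.and_eq_true] at t7
      obtain ⟨⟨⟨g1, g2⟩, g3⟩, g4⟩ := t7
      refine win_item1 hI (hgt _) ?_ g1 (eq_of_beq g2) (eq_of_beq g3) g4
      have h5 := (hgt (Nat.mod (Nat.shiftRight w0 2) 1048576)).1
      have h6 : ¬ 2 ≤ (gt (Nat.mod (Nat.shiftRight w0 2) 1048576)).g :=
        fun h7 => t5 (Nat.ble_eq_true_of_le h7)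
      omega
    · -- a four
      simp only [Bool.and_eq_true] at t8
      obtain ⟨⟨⟨hf, hf2⟩, h5⟩, ha4⟩ := t8
      have ha4 := eq_of_beq ha4
      have hclt : Nat.mod (Nat.shiftRight w0 2) 1024 < 1024 := Nat.mod_lt _ (by norm_num)
      have htlt : Nat.mod (Nat.shiftRight (Nat.shiftRight w0 2) 10) 1024 < 1024 :=
        Nat.mod_lt _ (by norm_num)
      set c := Nat.mod (Nat.shiftRight w0 2) 1024 with hc
      set t := Nat.mod (Nat.shiftRight (Nat.shiftRight w0 2) 10) 1024 with ht
      obtain ⟨hin, hb, hw⟩ := isFree_spec hclt hf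
      obtain ⟨htin, htb, htw⟩ := isFree_spec htlt hf2
      obtain ⟨hl1, hl2⟩ := fiveOK_spec h5 off
      have hI1 : Inv off (s.addB c) := hI.addB hin hw
      have hI2 : Inv off ((s.addB c).addW t) := hI1.addW htin htb
      obtain ⟨N, hN⟩ := ih _ _ _ hI2 h
      have e1 : dec off ((s.addB c).addW t).w = insert (cellOf off t) (dec off s.w) :=
        dec_insert htlt
      have e2 : dec off ((s.addB c).addW t).b = dec off (s.addB c).b := rfl
      have e3 : insert (cellOf off c) (dec off s.b) = dec off (s.addB c).b := (dec_insert hclt).symm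
      rw [e1, e2] at hN
      refine ⟨max N 1 + 1, Win.of_and (b := cellOf off c) ?_ ?_ ?_⟩
      · rw [cellOf_mem_dec hclt, hb]; simp
      · rw [cellOf_mem_dec hclt, hw]; simp
      · intro y hy1 hy2
        rw [e3] at hy1 ⊢
        refine ⟨notHasFive_insert hI1 ha4 hy1, ?_⟩
        by_cases hyt : y = cellOf off t
        · rw [hyt]
          exact hN.mono (le_max_left _ _)
        · refine Win.mono (le_max_right _ _) (Win.of_five (b := cellOf off t) ?_ ?_ ?_)
          · rw [cellOf_mem_dec htlt, htb]; simp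
          · rw [Finset.mem_insert, not_or]
            refine ⟨fun h => hyt h.symm, ?_⟩
            have htw' : s.w.testBit t = false := htw
            rw [cellOf_mem_dec htlt, htw']; simp
          · refine ⟨_, hl1, ?_⟩
            rw [← dec_insert htlt]
            exact hl2

end Pool.Agent.Gomoku
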