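import Pool.Agent.Helper47.Gomoku.GCheck
import Pool.Agent.Helper47.Gomoku.EvPSound
import Pool.Agent.Helper93.Gomoku.Final

set_option autoImplicit false

namespace Pool.Agent.Gomoku

open Finset

/-! # Tables of checked items and positions, and the final assembly -/

/-- every entry of the table is valid -/
def CTb.Good (t : CTb) : Prop := ∀ i, ItemValid (t.get i)

theorem CTb.Good.node {l r : CTb} (hl : l.Good) (hr : r.Good) : (CTb.node l r).Good := by
  intro i
  unfold CTb.get
  rw [cond_eq_ite]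
  split_ifs
  · exact hl _
  · exact hr _

theorem CTb.good_of {t : CTb} (g : CTb) (hg : g.Good) (fuel : ℕ)
    (h : t.all g.get fuel = true) : t.Good := CTb.valid hg t h

/-- a table whose items are all lines (default cap 3) -/
def CTb.all3 : CTb → Bool
  | .leaf it _ _ _ _ => Nat.beq it.g 3
  | .node l r => l.all3 && r.all3

theorem CTb.good3 {t : CTb} {gt : ℕ → Item} (fuel : ℕ) (h3 : t.all3 = true)
    (h : t.all gt fuel = true) : t.Good := by
  induction t with
  | leaf it dx dy hd cert =>
    intro i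
    exact itemValid_of_chk' (Or.inl (eq_of_beq h3)) h
  | node l r ihl ihr =>
    unfold CTb.all at h
    unfold CTb.all3 at h3
    rw [Bool.and_eq_true] at h h3
    exact CTb.Good.node (ihl h3.1 h.1) (ihr h3.2 h.2)

/-- the four in a row `X X X X .` -/
def dummyItem : Item := ⟨0xf000000000000000000000000000000000000, 0,
  0x1f000000000000000000000000000000000000, 0, 0, 3, 0, 0⟩

def dummyT : CTb := .leaf dummyItem 0 0 (Nat.lor 4 (Nat.shiftLeft (Nat.add 144 (Nat.add
  (Nat.shiftLeft 145 10) (Nat.add (Nat.shiftLeft 146 20) (Nat.shiftLeft 147 30)))) 8))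
  [Nat.shiftLeft (Nat.add 148 (Nat.shiftLeft 144 10)) 4]

theorem dummyT_good : dummyT.Good :=
  CTb.good3 (gt := fun _ => dummyItem) 1 (by decide +kernel) (by decide +kernel)

/-! ### plain positions -/

/-- a pair of bitboards from which Black (to move) wins, at every offset -/
def PGood (p : ℕ × ℕ) : Prop := ∀ off, ∃ N, Win N (dec off p.1) (dec off p.2)

inductive PTb
  | leaf (b w hd : ℕ) (cert : List ℕ) : PTb
  | node (l r : PTb) : PTb

def PTb.get : PTb → ℕ → ℕ × ℕ
  | .leaf b w _ _, _ => (b, w)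
  | .node l r, i => cond (Nat.beq (Nat.mod i 2) 0) (l.get (Nat.shiftRight i 1))
      (r.get (Nat.shiftRight i 1))

def chkP (gt : ℕ → Item) (gp : ℕ → ℕ × ℕ) (fuel b w hd : ℕ) (cert : List ℕ) : Bool :=
  match initSt hd with
  | RS.bad => false
  | RS.ok _ s => (Nat.beq s.b b) && (Nat.beq s.w w) &&
    (match evP gt gp fuel s cert with
      | RP.bad => false
      | RP.ok _ => true)

def PTb.all (gt : ℕ → Item) (gp : ℕ → ℕ × ℕ) (fuel : ℕ) : PTb → Bool
  | .leaf b w hd cert => chkP gt gp fuel b w hd cert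
  | .node l r => (l.all gt gp fuel) && (r.all gt gp fuel)

def PTb.Good (t : PTb) : Prop := ∀ i, PGood (t.get i)

theorem pGood_of_chk {gt : ℕ → Item} {gp : ℕ → ℕ × ℕ} (hgt : ∀ i, ItemValid (gt i))
    (hgp : ∀ i, PGood (gp i)) {fuel b w hd : ℕ} {cert : List ℕ}
    (h : chkP gt gp fuel b w hd cert = true) : PGood (b, w) := by
  intro off
  unfold chkP at h
  split at h
  · simp at h
  · rename_i wd s hinit
    simp only [Bool.and_eq_true] at h
    obtain ⟨⟨hb, hw⟩, h⟩ := h
    have hb := eq_of_beq hb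
    have hw := eq_of_beq hw
    split at h
    · simp at h
    · rename_i st hev
      have := evP_sound (off := off) hgt (fun i => hgp i off) _ _ _ _ (initSt_inv hinit) hev
      rwa [hb, hw] at this

theorem PTb.Good.node {l r : PTb} (hl : l.Good) (hr : r.Good) : (PTb.node l r).Good := by
  intro i
  unfold PTb.get
  rw [cond_eq_ite]
  split_ifs
  · exact hl _
  · exact hr _

theorem PTb.valid {gt : ℕ → Item} {gp : ℕ → ℕ × ℕ} (hgt : ∀ i, ItemValid (gt i))
    (hgp : ∀ i, PGood (gp i)) {fuel : ℕ} {t : PTb} (h : t.all gt gp fuel = true) : t.Good := by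
  induction t with
  | leaf b w hd cert =>
    intro i
    exact pGood_of_chk hgt hgp h
  | node l r ihl ihr =>
    unfold PTb.all at h
    rw [Bool.and_eq_true] at h
    exact PTb.Good.node (ihl h.1) (ihr h.2)

def dummyP : PTb := .leaf dummyItem.B 0 0 []

theorem dummyP_good : dummyP.Good := by
  intro i off
  have h := (dummyT_good 0).2.2 off 0 0 (Nat.zero_le _) (Nat.zero_le _)
  obtain ⟨N, hN⟩ := win_of_valid h
  refine ⟨N, ?_⟩
  have e1 : (Item.data off (dummyT.get 0) 0 0).B = dec off (Nat.shiftLeft dummyItem.B 0) := rfl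
  have e2 : (Item.data off (dummyT.get 0) 0 0).W = dec off (Nat.shiftLeft dummyItem.W 0) := rfl
  rw [e1, e2] at hN
  exact hN

theorem PTb.good_of {t : PTb} (g : CTb) (hg : g.Good) (p : PTb) (hp : p.Good) (fuel : ℕ)
    (h : t.all g.get p.get fuel = true) : t.Good := PTb.valid hg hp h

/-- reading off the near table -/
theorem near_of_pgood {o x : ℕ} (ho : o < 1024) (hx : x < 1024) {a b : ℤ}
    (ha : ((x % 32 : ℕ) : ℤ) - ((o % 32 : ℕ) : ℤ) = a)
    (hb : ((x / 32 : ℕ) : ℤ) - ((o / 32 : ℕ) : ℤ) = b)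
    (h : PGood (Nat.shiftLeft 1 o, Nat.shiftLeft 1 x)) : ∃ n, Win n {(0, 0)} {(a, b)} := by
  obtain ⟨N, hN⟩ := h (-((o % 32 : ℕ) : ℤ), -((o / 32 : ℕ) : ℤ))
  refine ⟨N, ?_⟩
  simp only at hN
  rw [dec_bit ho, dec_bit hx] at hN
  have e1 : cellOf (-((o % 32 : ℕ) : ℤ), -((o / 32 : ℕ) : ℤ)) o = (0, 0) := by
    unfold cellOf; ext <;> simp
  have e2 : cellOf (-((o % 32 : ℕ) : ℤ), -((o / 32 : ℕ) : ℤ)) x = (a, b) := by
    unfold cellOf; ext
    · simp only; omega
    · simp only; omega
  rwa [e1, e2] at hN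

/-! ### the far part -/

/-- the two first black stones -/
def BB : Finset Cell := {(0, 0), (1, 1)}

def InBox1 (R : ℤ) (c : Cell) : Prop := 1 - R ≤ c.1 ∧ c.1 ≤ R ∧ 1 - R ≤ c.2 ∧ c.2 ≤ R

def FGood (R : ℤ) (y : Cell) : Prop :=
  ∃ K, (∀ c ∈ K, InBox1 R c) ∧ Valid ⟨BB, {y}, K, fun _ => 1⟩

theorem FGood.map {R : ℤ} {g : Cell ≃ Cell} (hg : Sym g) (hB : mv g BB = BB)
    (hbox : ∀ c, InBox1 R c → InBox1 R (g c)) {y : Cell} (h : FGood R y) : FGood R (g y) := by
  obtain ⟨K, hK, hV⟩ := h
  refine ⟨mv g K, ?_, ?_⟩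
  · intro c hc
    have e : c = g (g.symm c) := by simp
    rw [e] at hc ⊢
    exact hbox _ (hK _ (mem_mv'.1 hc))
  · have h1 := hV.mv hg
    have e : Data.mv g ⟨BB, {y}, K, fun _ => 1⟩ = ⟨BB, {g y}, mv g K, fun _ => 1⟩ := by
      unfold Data.mv
      simp only
      rw [hB, mv_singleton]
      rfl
    rwa [e] at h1

theorem FGood.sw {R : ℤ} {y : Cell} (h : FGood R y) : FGood R (y.2, y.1) := by
  have := h.map (g := Gomoku.sw) sym_sw (by decide) (by
    intro c hc
    unfold InBox1 at *
    simp only [Gomoku.sw, Equiv.coe_fn_mk]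
    tauto)
  exact this

/-- the point reflection that exchanges the two first stones -/
def pr : Cell ≃ Cell := (d4 false true true).trans (tr (1, 1))

theorem sym_pr : Sym pr := (sym_d4 _ _ _).trans (sym_tr _)

theorem FGood.pr {R : ℤ} {y : Cell} (h : FGood R y) : FGood R (1 - y.1, 1 - y.2) := by
  have e : ∀ c : Cell, Gomoku.pr c = (1 - c.1, 1 - c.2) := by
    intro c
    simp only [Gomoku.pr, d4, tr, Equiv.trans_apply, Equiv.coe_fn_mk, if_true, if_false,
      Bool.false_eq_true]
    ext <;> simp only <;> ring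
  have := h.map (g := Gomoku.pr) sym_pr (by decide) (by
    intro c hc
    rw [e]
    unfold InBox1 at *
    simp only
    omega)
  rwa [e] at this

/-- exchange of the coordinates of a board index -/
def swI (y : ℕ) : ℕ := Nat.add (Nat.mul 32 (Nat.mod y 32)) (Nat.div y 32)

/-- check of the F family. Entries: y (10 bits), item (20), dx (5), dy (5). -/
def fLoop (gt : ℕ → Item) (Bm M : ℕ) : List ℕ → ℕ → Bool
  | [], U => Nat.beq U 0
  | w :: l, U =>
    let y := Nat.mod w 1024
    let it := gt (Nat.mod (Nat.shiftRight w 10) 1048576)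
    let dx := Nat.mod (Nat.shiftRight w 30) 32
    let dy := Nat.mod (Nat.shiftRight w 35) 32
    let i := it.inst dx dy
    let y' := Nat.sub 1089 y
    cond ((geOK it dx dy) && (Nat.beq i.B Bm) && (Nat.beq i.W (Nat.shiftLeft 1 y)) &&
      (subB i.K M) && (Nat.ble 2 (Nat.mod y 32)) && (Nat.ble 2 (Nat.div y 32)))
      (fLoop gt Bm M l (minus U (Nat.lor
        (Nat.lor (Nat.shiftLeft 1 y) (Nat.shiftLeft 1 (swI y)))
        (Nat.lor (Nat.shiftLeft 1 y') (Nat.shiftLeft 1 (swI y'))))))
      false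

theorem capG_ge_one {off : Cell} {g C1 C2 : ℕ} (hg : 1 ≤ g) (L : Finset Cell) :
    1 ≤ capG off g C1 C2 L := by
  unfold capG
  split_ifs
  · exact le_refl _
  · unfold capOf
    split_ifs <;> omega

theorem fLoop_sound {gt : ℕ → Item} (hgt : ∀ i, ItemValid (gt i)) {R : ℤ} {Bm M : ℕ}
    (hB : dec (-16, -16) Bm = BB)
    (hM : ∀ c ∈ dec (-16, -16) M, InBox1 R c) :
    ∀ (l : List ℕ) (U : ℕ), fLoop gt Bm M l U = true →
      ∀ y ∈ dec (-16, -16) U, FGood R y := by
  intro l
  induction l with
  | nil =>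
    intro U h y hy
    unfold fLoop at h
    rw [eq_of_beq h, dec_zero] at hy
    exact absurd hy (notMem_empty _)
  | cons w l ih =>
    intro U h y hy
    unfold fLoop at h
    simp only at h
    rw [cond_eq_ite] at h
    split_ifs at h with hc
    set y0 := Nat.mod w 1024 with hy0
    set it := gt (Nat.mod (Nat.shiftRight w 10) 1048576) with hit
    set dx := Nat.mod (Nat.shiftRight w 30) 32 with hdx
    set dy := Nat.mod (Nat.shiftRight w 35) 32 with hdy
    simp only [Bool.and_eq_true] at hc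
    obtain ⟨⟨⟨⟨⟨c1, c2⟩, c3⟩, c4⟩, c5⟩, c6⟩ := hc
    obtain ⟨d1, d2⟩ := geOK_spec c1
    have c2 := eq_of_beq c2
    have c3 := eq_of_beq c3
    have c4 := subB_spec c4
    have c5 : 2 ≤ y0 % 32 := Nat.le_of_ble_eq_true c5
    have c6 : 2 ≤ y0 / 32 := Nat.le_of_ble_eq_true c6
    have hlt : y0 < 1024 := Nat.mod_lt _ (by norm_num)
    have hit' : ItemValid it := hgt _
    have hbase : FGood R (cellOf (-16, -16) y0) := by
      refine ⟨dec (-16, -16) (it.inst dx dy).K, fun c hc => hM c (c4.dec _ hc), ?_⟩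
      have hv := hit'.2.2 (-16, -16) dx dy d1 d2
      have hv2 : Valid ⟨(it.data (-16, -16) dx dy).B, (it.data (-16, -16) dx dy).W,
          (it.data (-16, -16) dx dy).K, fun _ => 1⟩ := by
        refine hv.weaken (Finset.Subset.refl _) ?_
        intro L _ _
        exact (min_le_left _ _).trans (capG_ge_one hit'.1 L)
      have e1 : (it.data (-16, -16) dx dy).B = BB := by
        rw [← hB, ← c2]; rfl
      have e2 : (it.data (-16, -16) dx dy).W = {cellOf (-16, -16) y0} := by
        rw [← dec_bit hlt, ← c3]; rfl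
      have e3 : (it.data (-16, -16) dx dy).K = dec (-16, -16) (it.inst dx dy).K := rfl
      rwa [e1, e2, e3] at hv2
    rw [mem_dec] at hy
    obtain ⟨i, hi, hbit, rfl⟩ := hy
    have e1 : Nat.sub 1089 y0 = 1089 - y0 := rfl
    have e2 : ∀ z, swI z = 32 * (z % 32) + z / 32 := fun z => rfl
    by_cases h1 : i = y0
    · rw [h1]; exact hbase
    by_cases h2 : i = swI y0
    · have h3 := hbase.sw
      have h4 : cellOf (-16, -16) i =
          ((cellOf (-16, -16) y0).2, (cellOf (-16, -16) y0).1) := by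
        rw [h2, e2]
        unfold cellOf
        ext
        · simp only; omega
        · simp only; omega
      rwa [h4]
    by_cases h3 : i = Nat.sub 1089 y0
    · have h5 := hbase.pr
      have h4 : cellOf (-16, -16) i =
          (1 - (cellOf (-16, -16) y0).1, 1 - (cellOf (-16, -16) y0).2) := by
        rw [h3, e1]
        unfold cellOf
        ext
        · simp only; omega
        · simp only; omega
      rwa [h4]
    by_cases h5 : i = swI (Nat.sub 1089 y0)
    · have h6 := hbase.pr.sw
      have m1 : (1089 - y0) % 32 = 33 - y0 % 32 := by omega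
      have m2 : (1089 - y0) / 32 = 33 - y0 / 32 := by omega
      have m3 : i = 32 * (33 - y0 % 32) + (33 - y0 / 32) := by rw [h5, e2, e1, m1, m2]
      have m4 : i % 32 = 33 - y0 / 32 := by omega
      have m5 : i / 32 = 33 - y0 % 32 := by omega
      have h4 : cellOf (-16, -16) i =
          (1 - (cellOf (-16, -16) y0).2, 1 - (cellOf (-16, -16) y0).1) := by
        unfold cellOf
        rw [m4, m5]
        ext
        · simp only; omega
        · simp only; omega
      rwa [h4]
    · apply ih _ h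
      rw [mem_dec]
      refine ⟨i, hi, ?_, rfl⟩
      rw [tb_minus, hbit, tb_lor, tb_lor, tb_lor, tb_bit, tb_bit, tb_bit, tb_bit]
      rw [Bool.true_and, Bool.not_eq_true', Bool.or_eq_false_iff, Bool.or_eq_false_iff,
        Bool.or_eq_false_iff, decide_eq_false_iff_not, decide_eq_false_iff_not,
        decide_eq_false_iff_not, decide_eq_false_iff_not]
      have g1 : ¬ y0 = i := fun h => h1 h.symm
      have g2 : ¬ swI y0 = i := fun h => h2 h.symm
      have g3 : ¬ Nat.sub 1089 y0 = i := fun h => h3 h.symm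
      have g4 : ¬ swI (Nat.sub 1089 y0) = i := fun h => h5 h.symm
      exact ⟨⟨g1, g2⟩, ⟨g3, g4⟩⟩

/-- the full check of the far part. `hd3`: the three black stones of G; `w0`, `st`: the G node;
`MG`: mask of the box `R - 6`; `M`: mask of the box `[1 - R, R]`. -/
def farChk (gt : ℕ → Item) (fuel b3 w0 : ℕ) (st fl : List ℕ) (MG M : ℕ) : Bool :=
  let s2 := (St.empty.addB 528).addB 561
  let s := s2.addB b3
  (isFree s2 b3) &&
  (match evJ gt fuel s w0 st with
    | RG.bad => false
    | RG.ok _ K _ => (subB K MG) && (fLoop gt s2.b M fl (minus K s2.b)))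

theorem far_of_chk {gt : ℕ → Item} (hgt : ∀ i, ItemValid (gt i)) {fuel b3 w0 : ℕ}
    {st fl : List ℕ} {MG M : ℕ} {R : ℤ}
    (hMG : ∀ c ∈ dec (-16, -16) MG, InBox (R - 6) c)
    (hM : ∀ c ∈ dec (-16, -16) M, InBox1 R c) (hb3 : b3 < 1024)
    (h : farChk gt fuel b3 w0 st fl MG M = true) :
    ∃ n, ∀ x, ¬ InBox R x → AndWin n {(0, 0), (1, 1)} {x} := by
  unfold farChk at h
  simp only [Bool.and_eq_true] at h
  obtain ⟨hf, h⟩ := h
  have hI0 : Inv (-16, -16) St.empty := Inv.empty
  have hI2 : Inv (-16, -16) ((St.empty.addB 528).addB 561) :=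
    (hI0.addB (by unfold Inner; omega) (by decide)).addB (by unfold Inner; omega) (by decide)
  have hs2 : dec (-16, -16) ((St.empty.addB 528).addB 561).b = BB := by
    have e1 : dec (-16, -16) ((St.empty.addB 528).addB 561).b =
        insert (cellOf (-16, -16) 561) (dec (-16, -16) (St.empty.addB 528).b) :=
      dec_insert (by norm_num)
    have e2 : dec (-16, -16) (St.empty.addB 528).b =
        insert (cellOf (-16, -16) 528) (dec (-16, -16) St.empty.b) :=
      dec_insert (by norm_num)
    have e3 : dec (-16, -16) St.empty.b = ∅ := dec_zero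
    rw [e1, e2, e3]
    decide
  obtain ⟨hin, hb, hw⟩ := isFree_spec hb3 hf
  have hI := hI2.addB hin hw
  split at h
  · simp at h
  · rename_i st' K C hev
    rw [Bool.and_eq_true] at h
    obtain ⟨hK, hfl⟩ := h
    have hK := subB_spec hK
    obtain ⟨hbK, hG⟩ := evJ_sound hgt hI hev
    have hins : dec (-16, -16) (((St.empty.addB 528).addB 561).addB b3).b =
        insert (cellOf (-16, -16) b3) BB := by
      rw [← hs2]
      exact dec_insert hb3
    rw [hins] at hG
    have hfar := far_lemma (R := R) (B2 := BB) (b3 := cellOf (-16, -16) b3)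
      (KG := dec (-16, -16) K) ?_ ?_ (fun c hc => hMG c (hK.dec _ hc)) hG ?_
    · exact hfar
    · rw [← hs2, cellOf_mem_dec hb3, hb]; simp
    · rw [← hins]
      exact hbK.dec _
    · intro y hy hyB
      have h1 := fLoop_sound hgt hs2 hM _ _ hfl y (by
        rw [mem_dec] at hy ⊢
        obtain ⟨i, hi, hbit, rfl⟩ := hy
        refine ⟨i, hi, ?_, rfl⟩
        rw [tb_minus, hbit]
        rw [← hs2, cellOf_mem_dec hi] at hyB
        simpa using hyB)
      obtain ⟨K', hK', hV⟩ := h1
      refine ⟨K', ?_, hV⟩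
      intro c hc
      have := hK' c hc
      unfold InBox1 at this
      unfold InBox
      omega

end Pool.Agent.Gomoku
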