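import Mathlib

set_option autoImplicit false

namespace Pool.Agent.Gomoku

/-- cells of the board -/
abbrev Cell := ℤ × ℤ

/-- the four directions -/
def IsDir (v : Cell) : Prop := v = (1,0) ∨ v = (0,1) ∨ v = (1,1) ∨ v = (1,-1)

/-- the window of five cells starting at `p` in direction `v` -/
def win5 (p v : Cell) : Finset Cell :=
  (Finset.range 5).image fun i : ℕ => (p.1 + (i:ℤ) * v.1, p.2 + (i:ℤ) * v.2)

/-- winning lines -/
def IsLine (L : Finset Cell) : Prop := ∃ p v : Cell, IsDir v ∧ L = win5 p v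

def HasFive (S : Finset Cell) : Prop := ∃ L, IsLine L ∧ L ⊆ S

/-- Black (to move) wins within `n` moves from the position with black stones `B`, white `W`. -/
def Win : ℕ → Finset Cell → Finset Cell → Prop
  | 0, _, _ => False
  | n+1, B, W => ∃ b, b ∉ B ∧ b ∉ W ∧ (HasFive (insert b B) ∨
      ∀ y, y ∉ insert b B → y ∉ W → ¬ HasFive (insert y W) ∧ Win n (insert b B) (insert y W))

/-- White to move, Black wins within `n` further black moves. -/
def AndWin (n : ℕ) (B W : Finset Cell) : Prop :=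
  ∀ y, y ∉ B → y ∉ W → ¬ HasFive (insert y W) ∧ Win n B (insert y W)

theorem Win.succ {n : ℕ} : ∀ {B W : Finset Cell}, Win n B W → Win (n+1) B W := by
  induction n with
  | zero => intro B W h; exact h.elim
  | succ n ih =>
    intro B W h
    obtain ⟨b, hb, hb', h⟩ := h
    refine ⟨b, hb, hb', ?_⟩
    rcases h with h | h
    · exact Or.inl h
    · refine Or.inr fun y hy hy' => ?_
      obtain ⟨h1, h2⟩ := h y hy hy'
      exact ⟨h1, ih h2⟩

theorem Win.mono {n m : ℕ} (hnm : n ≤ m) {B W : Finset Cell} (h : Win n B W) : Win m B W := by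
  induction hnm with
  | refl => exact h
  | step _ ih => exact ih.succ

theorem AndWin.mono {n m : ℕ} (hnm : n ≤ m) {B W : Finset Cell} (h : AndWin n B W) :
    AndWin m B W := fun y hy hy' => ⟨(h y hy hy').1, (h y hy hy').2.mono hnm⟩

/-- Playing `b` and reaching an AND node. -/
theorem Win.of_and {n : ℕ} {B W : Finset Cell} {b : Cell} (hb : b ∉ B) (hb' : b ∉ W)
    (h : AndWin n (insert b B) W) : Win (n+1) B W :=
  ⟨b, hb, hb', Or.inr h⟩

theorem Win.of_five {n : ℕ} {B W : Finset Cell} {b : Cell} (hb : b ∉ B) (hb' : b ∉ W)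
    (h : HasFive (insert b B)) : Win (n+1) B W :=
  ⟨b, hb, hb', Or.inl h⟩

theorem mem_win5 {p v c : Cell} :
    c ∈ win5 p v ↔ ∃ i : ℕ, i < 5 ∧ c = (p.1 + (i:ℤ) * v.1, p.2 + (i:ℤ) * v.2) := by
  unfold win5
  simp only [Finset.mem_image, Finset.mem_range]
  constructor
  · rintro ⟨i, hi, rfl⟩; exact ⟨i, hi, rfl⟩
  · rintro ⟨i, hi, rfl⟩; exact ⟨i, hi, rfl⟩

theorem card_win5 {p v : Cell} (hv : IsDir v) : (win5 p v).card = 5 := by
  unfold win5
  rw [Finset.card_image_of_injOn]
  · simp
  · intro i _ j _ h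
    simp only [Prod.mk.injEq] at h
    rcases hv with rfl | rfl | rfl | rfl <;> simp at h <;> omega

theorem IsLine.card {L : Finset Cell} (h : IsLine L) : L.card = 5 := by
  obtain ⟨p, v, hv, rfl⟩ := h
  exact card_win5 hv

theorem not_hasFive_of_card {S : Finset Cell} (h : S.card < 5) : ¬ HasFive S := by
  rintro ⟨L, hL, hLS⟩
  have := Finset.card_le_card hLS
  rw [hL.card] at this
  omega

end Pool.Agent.Gomoku
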