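import Pool.Agent.Helper47.Gomoku.Bits

set_option autoImplicit false

namespace Pool.Agent.Gomoku

/-! # The evaluators (executed by the kernel) -/

/-- state: black and white stones; masks of the live windows, and of the live windows with at
least 1, 2, 3, 4 white stones -/
structure St where
  b : ℕ
  w : ℕ
  lv : ℕ
  a1 : ℕ
  a2 : ℕ
  a3 : ℕ
  a4 : ℕ

/-- `x` without the bits of `t` -/
def minus (x t : ℕ) : ℕ := Nat.xor (Nat.lor x t) t

def St.addB (s : St) (c : ℕ) : St :=
  let t := WT c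
  ⟨Nat.lor s.b (Nat.shiftLeft 1 c), s.w, minus s.lv t, minus s.a1 t, minus s.a2 t, minus s.a3 t,
    minus s.a4 t⟩

def St.addW (s : St) (c : ℕ) : St :=
  let t := WT c
  ⟨s.b, Nat.lor s.w (Nat.shiftLeft 1 c), s.lv, Nat.lor s.a1 (Nat.land s.lv t),
    Nat.lor s.a2 (Nat.land s.a1 t), Nat.lor s.a3 (Nat.land s.a2 t), Nat.lor s.a4 (Nat.land s.a3 t)⟩

def St.empty : St := ⟨0, 0, VM, 0, 0, 0, 0⟩

/-- mask of the board cells that are not inner -/
def NIM : ℕ := 0xfffffffffffffffffffffffffffffffff000000ff000000ff000000ff000000ff000000ff000000ff000000ff000000ff000000ff000000ff000000ff000000ff000000ff000000ff000000ff000000ff000000ff000000ff000000ff000000ff000000ff000000ff000000ff000000fffffffffffffffffffffffffffffffff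

/-- the cell `c` is inner and empty -/
def isFree (s : St) (c : ℕ) : Bool :=
  Nat.beq (Nat.land (Nat.lor (Nat.lor s.b s.w) NIM) (Nat.shiftLeft 1 c)) 0

def PP : ℕ := 0x1000000020000000400000008000000100000010000000080000000400000002000000010000000100000001000000010000000100000001000000000000000000000000000000000000001f

def M160 : ℕ := 0xffffffffffffffffffffffffffffffffffffffff

/-- cells of the window `k` -/
def fivePat (k : ℕ) : ℕ :=
  Nat.shiftLeft (Nat.land (Nat.shiftRight PP (Nat.mul 160 (Nat.div k 1024))) M160) (Nat.mod k 1024)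

def fiveOK (S k : ℕ) : Bool :=
  let p := fivePat k
  (Nat.beq (Nat.land S p) p) && (Nat.testBit VM k)

/-- `cellsOf` with a shortcut for the empty mask -/
def cellsOf0 (E : ℕ) : ℕ := cond (Nat.beq E 0) 0 (cellsOf E)

/-- result of a VCF line -/
inductive R3
  | bad : R3
  | ok (K C1 C2 : ℕ) : R3

/-- A VCF line: `m` fours, then a five. `wd` packs the moves. -/
def evF : ℕ → ℕ → St → ℕ → ℕ → ℕ → R3
  | 0, wd, s, K, C1, C2 =>
    let c := Nat.mod wd 1024
    let k := Nat.mod (Nat.shiftRight wd 10) 4096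
    let cb := Nat.shiftLeft 1 c
    cond ((isFree s c) && (fiveOK (Nat.lor s.b cb) k)) (R3.ok (Nat.lor K cb) C1 C2) R3.bad
  | m+1, wd, s, K, C1, C2 =>
    let c := Nat.mod wd 1024
    let t := Nat.mod (Nat.shiftRight wd 10) 1024
    let k := Nat.mod (Nat.shiftRight wd 20) 4096
    let s1 := s.addB c
    let tb := Nat.shiftLeft 1 t
    cond ((isFree s c) && (isFree s1 t) && (fiveOK (Nat.lor s1.b tb) k) && (Nat.beq s1.a4 0))
      (evF m (Nat.shiftRight wd 32) (s1.addW t)
        (Nat.lor (Nat.lor K (Nat.lor (Nat.shiftLeft 1 c) tb)) (cellsOf0 s1.a3))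
        (Nat.lor C1 s1.a2) (Nat.lor C2 s1.a1)) R3.bad

/-- a library item; `g` is the default cap (1, 2 or 3); `dx <= mx`, `dy <= my` are the allowed
translations -/
structure Item where
  B : ℕ
  W : ℕ
  K : ℕ
  C1 : ℕ
  C2 : ℕ
  g : ℕ
  mx : ℕ
  my : ℕ

def ALLM : ℕ := VM

/-- instance of an item (after translation) -/
structure Ins where
  B : ℕ
  W : ℕ
  K : ℕ
  C1 : ℕ
  C2 : ℕ

end Pool.Agent.Gomoku
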