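import Pool.Agent.Helper47.Gomoku.EvalF
import Pool.Agent.Helper47.Gomoku.Far

set_option autoImplicit false

namespace Pool.Agent.Gomoku

open Finset

theorem tb_lor (x y i : ℕ) : (Nat.lor x y).testBit i = (x.testBit i || y.testBit i) :=
  Nat.testBit_or x y i

theorem tb_land (x y i : ℕ) : (Nat.land x y).testBit i = (x.testBit i && y.testBit i) :=
  Nat.testBit_and x y i

theorem tb_minus (x t i : ℕ) : (minus x t).testBit i = (x.testBit i && !t.testBit i) := by
  unfold minus
  have h1 : (Nat.xor (Nat.lor x t) t).testBit i =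
      ((Nat.lor x t).testBit i ^^ t.testBit i) := Nat.testBit_xor _ _ _
  rw [h1, tb_lor]
  cases x.testBit i <;> cases t.testBit i <;> rfl

theorem tb_bit (c i : ℕ) : (Nat.shiftLeft 1 c).testBit i = decide (c = i) := by
  have h1 : Nat.shiftLeft 1 c = 2 ^ c := Nat.one_shiftLeft c
  rw [h1, Nat.testBit_two_pow]

theorem eq_of_beq {a b : ℕ} (h : Nat.beq a b = true) : a = b := Nat.eq_of_beq_eq_true h

theorem nim_inner : ∀ c, c < 1024 → NIM.testBit c = false → Inner c := by
  unfold Inner
  decide +kernel

theorem isFree_spec {s : St} {c : ℕ} (hc : c < 1024) (h : isFree s c = true) :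
    Inner c ∧ s.b.testBit c = false ∧ s.w.testBit c = false := by
  unfold isFree at h
  have h1 := eq_of_beq h
  have h2 : (Nat.land (Nat.lor (Nat.lor s.b s.w) NIM) (Nat.shiftLeft 1 c)).testBit c = false := by
    rw [h1]; simp
  rw [tb_land, tb_lor, tb_lor, tb_bit] at h2
  simp only [decide_true, Bool.and_true, Bool.or_eq_false_iff] at h2
  exact ⟨nim_inner c hc h2.2, h2.1.1, h2.1.2⟩

/-- The invariant of the state. -/
structure Inv (off : Cell) (s : St) : Prop where
  bi : ∀ i, s.b.testBit i = true → Inner i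
  wi : ∀ i, s.w.testBit i = true → Inner i
  disj : Disjoint (dec off s.b) (dec off s.w)
  lv : ∀ k, VM.testBit k = true → Disjoint (winK off k) (dec off s.b) → s.lv.testBit k = true
  a1 : ∀ k, VM.testBit k = true → Disjoint (winK off k) (dec off s.b) →
    1 ≤ (winK off k ∩ dec off s.w).card → s.a1.testBit k = true
  a2 : ∀ k, VM.testBit k = true → Disjoint (winK off k) (dec off s.b) →
    2 ≤ (winK off k ∩ dec off s.w).card → s.a2.testBit k = true
  a3 : ∀ k, VM.testBit k = true → Disjoint (winK off k) (dec off s.b) →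
    3 ≤ (winK off k ∩ dec off s.w).card → s.a3.testBit k = true
  a4 : ∀ k, VM.testBit k = true → Disjoint (winK off k) (dec off s.b) →
    4 ≤ (winK off k ∩ dec off s.w).card → s.a4.testBit k = true

theorem Inv.empty {off : Cell} : Inv off St.empty := by
  have h0 : dec off St.empty.w = ∅ := dec_zero
  have h1 : dec off St.empty.b = ∅ := dec_zero
  constructor
  · intro i hi; simp [St.empty] at hi
  · intro i hi; simp [St.empty] at hi
  · rw [h0]; exact Finset.disjoint_empty_right _
  · intro k hk _; exact hk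
  all_goals
    intro k hk _ h
    rw [h0] at h
    simp at h

theorem dec_insert {off : Cell} {n c : ℕ} (hc : c < 1024) :
    dec off (Nat.lor n (Nat.shiftLeft 1 c)) = insert (cellOf off c) (dec off n) := by
  rw [dec_lor, dec_bit hc, Finset.union_comm, ← Finset.insert_eq]

theorem Inv.addB {off : Cell} {s : St} (h : Inv off s) {c : ℕ} (hc : Inner c)
    (hw : s.w.testBit c = false) : Inv off (s.addB c) := by
  have hc' := inner_lt hc
  have hdec : dec off (s.addB c).b = insert (cellOf off c) (dec off s.b) := dec_insert hc'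
  have hsub : ∀ k, Disjoint (winK off k) (dec off (s.addB c).b) →
      Disjoint (winK off k) (dec off s.b) := by
    intro k hd
    rw [hdec] at hd
    exact Finset.disjoint_of_subset_right (Finset.subset_insert _ _) hd
  have hWT : ∀ k, VM.testBit k = true → Disjoint (winK off k) (dec off (s.addB c).b) →
      (WT c).testBit k = false := by
    intro k hk hd
    by_contra hne
    have h1 : (WT c).testBit k = true := by simpa using hne
    rw [testBit_WT (off := off) hc hk] at h1
    rw [hdec] at hd
    exact Finset.disjoint_left.1 hd h1 (Finset.mem_insert_self _ _)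
  have hmin : ∀ x k, VM.testBit k = true → Disjoint (winK off k) (dec off (s.addB c).b) →
      x.testBit k = true → (minus x (WT c)).testBit k = true := by
    intro x k hk hd hx
    rw [tb_minus, hx, hWT k hk hd]
    rfl
  constructor
  · intro i hi
    have h1 : (Nat.lor s.b (Nat.shiftLeft 1 c)).testBit i = true := hi
    rw [tb_lor, tb_bit] at h1
    simp only [Bool.or_eq_true, decide_eq_true_eq] at h1
    rcases h1 with h1 | rfl
    · exact h.bi i h1
    · exact hc
  · exact h.wi
  · rw [hdec, Finset.disjoint_insert_left]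
    refine ⟨?_, h.disj⟩
    show cellOf off c ∉ dec off s.w
    rw [cellOf_mem_dec hc', hw]
    simp
  · intro k hk hd
    exact hmin _ k hk hd (h.lv k hk (hsub k hd))
  · intro k hk hd h1
    exact hmin _ k hk hd (h.a1 k hk (hsub k hd) h1)
  · intro k hk hd h1
    exact hmin _ k hk hd (h.a2 k hk (hsub k hd) h1)
  · intro k hk hd h1
    exact hmin _ k hk hd (h.a3 k hk (hsub k hd) h1)
  · intro k hk hd h1
    exact hmin _ k hk hd (h.a4 k hk (hsub k hd) h1)

theorem Inv.addW {off : Cell} {s : St} (h : Inv off s) {c : ℕ} (hc : Inner c)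
    (hb : s.b.testBit c = false) : Inv off (s.addW c) := by
  have hc' := inner_lt hc
  have hdec : dec off (s.addW c).w = insert (cellOf off c) (dec off s.w) := dec_insert hc'
  -- counting
  have hcount : ∀ k, VM.testBit k = true → ∀ j, j + 1 ≤ (winK off k ∩ dec off (s.addW c).w).card →
      (j + 1 ≤ (winK off k ∩ dec off s.w).card) ∨
      ((WT c).testBit k = true ∧ j ≤ (winK off k ∩ dec off s.w).card) := by
    intro k hk j hj
    rw [hdec] at hj
    by_cases hck : cellOf off c ∈ winK off k
    · right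
      refine ⟨(testBit_WT hc hk).2 hck, ?_⟩
      rw [Finset.inter_insert_of_mem hck] at hj
      have := Finset.card_insert_le (cellOf off c) (winK off k ∩ dec off s.w)
      omega
    · left
      rwa [Finset.inter_insert_of_notMem hck] at hj
  constructor
  · exact h.bi
  · intro i hi
    have h1 : (Nat.lor s.w (Nat.shiftLeft 1 c)).testBit i = true := hi
    rw [tb_lor, tb_bit] at h1
    simp only [Bool.or_eq_true, decide_eq_true_eq] at h1
    rcases h1 with h1 | rfl
    · exact h.wi i h1
    · exact hc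
  · rw [hdec, Finset.disjoint_insert_right]
    refine ⟨?_, h.disj⟩
    show cellOf off c ∉ dec off s.b
    rw [cellOf_mem_dec hc', hb]
    simp
  · exact h.lv
  · intro k hk hd h1
    show (Nat.lor s.a1 (Nat.land s.lv (WT c))).testBit k = true
    rw [tb_lor, tb_land]
    rcases hcount k hk 0 h1 with h2 | ⟨h2, h3⟩
    · rw [h.a1 k hk hd h2]; rfl
    · rw [h.lv k hk hd, h2]; simp
  · intro k hk hd h1
    show (Nat.lor s.a2 (Nat.land s.a1 (WT c))).testBit k = true
    rw [tb_lor, tb_land]
    rcases hcount k hk 1 h1 with h2 | ⟨h2, h3⟩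
    · rw [h.a2 k hk hd h2]; rfl
    · rw [h.a1 k hk hd h3, h2]; simp
  · intro k hk hd h1
    show (Nat.lor s.a3 (Nat.land s.a2 (WT c))).testBit k = true
    rw [tb_lor, tb_land]
    rcases hcount k hk 2 h1 with h2 | ⟨h2, h3⟩
    · rw [h.a3 k hk hd h2]; rfl
    · rw [h.a2 k hk hd h3, h2]; simp
  · intro k hk hd h1
    show (Nat.lor s.a4 (Nat.land s.a3 (WT c))).testBit k = true
    rw [tb_lor, tb_land]
    rcases hcount k hk 3 h1 with h2 | ⟨h2, h3⟩
    · rw [h.a4 k hk hd h2]; rfl
    · rw [h.a3 k hk hd h3, h2]; simp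

/-! ### Windows and counts -/

/-- A line with at least one white stone is a window of the board. -/
theorem Inv.window {off : Cell} {s : St} (h : Inv off s) {L : Finset Cell} (hL : IsLine L)
    (h1 : 1 ≤ (L ∩ dec off s.w).card) : ∃ k, VM.testBit k = true ∧ L = winK off k := by
  obtain ⟨c, hc⟩ := Finset.card_pos.1 h1
  rw [Finset.mem_inter, mem_dec] at hc
  obtain ⟨hcL, i, hi, hbit, rfl⟩ := hc
  exact exists_winK hL (h.wi i hbit) hcL

theorem Inv.le_of_a4 {off : Cell} {s : St} (h : Inv off s) (h4 : s.a4 = 0) {L : Finset Cell}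
    (hL : IsLine L) (hd : Disjoint L (dec off s.b)) : (L ∩ dec off s.w).card ≤ 3 := by
  by_contra hne
  obtain ⟨k, hk, rfl⟩ := h.window hL (by omega)
  have := h.a4 k hk hd (by omega)
  rw [h4] at this
  simp at this

theorem Inv.a3' {off : Cell} {s : St} (h : Inv off s) {L : Finset Cell}
    (hL : IsLine L) (hd : Disjoint L (dec off s.b)) (h3 : 3 ≤ (L ∩ dec off s.w).card) :
    InMask off s.a3 L := by
  obtain ⟨k, hk, rfl⟩ := h.window hL (by omega)
  exact ⟨k, hk, h.a3 k hk hd h3, rfl⟩

theorem Inv.a2' {off : Cell} {s : St} (h : Inv off s) {L : Finset Cell}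
    (hL : IsLine L) (hd : Disjoint L (dec off s.b)) (h3 : 2 ≤ (L ∩ dec off s.w).card) :
    InMask off s.a2 L := by
  obtain ⟨k, hk, rfl⟩ := h.window hL (by omega)
  exact ⟨k, hk, h.a2 k hk hd h3, rfl⟩

theorem Inv.a1' {off : Cell} {s : St} (h : Inv off s) {L : Finset Cell}
    (hL : IsLine L) (hd : Disjoint L (dec off s.b)) (h3 : 1 ≤ (L ∩ dec off s.w).card) :
    InMask off s.a1 L := by
  obtain ⟨k, hk, rfl⟩ := h.window hL (by omega)
  exact ⟨k, hk, h.a1 k hk hd h3, rfl⟩

/-- inclusion of bit masks -/
def Sub (x y : ℕ) : Prop := ∀ i, x.testBit i = true → y.testBit i = true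

theorem Sub.refl (x : ℕ) : Sub x x := fun _ h => h
theorem Sub.trans {x y z : ℕ} (h : Sub x y) (h' : Sub y z) : Sub x z := fun i hi => h' i (h i hi)
theorem sub_lor_left (x y : ℕ) : Sub x (Nat.lor x y) := fun i h => by rw [tb_lor, h]; rfl
theorem sub_lor_right (x y : ℕ) : Sub y (Nat.lor x y) := fun i h => by rw [tb_lor, h]; simp
theorem Sub.lor {x y z : ℕ} (h : Sub x z) (h' : Sub y z) : Sub (Nat.lor x y) z := by
  intro i hi
  rw [tb_lor, Bool.or_eq_true] at hi
  rcases hi with hi | hi
  · exact h i hi
  · exact h' i hi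
theorem Sub.of_lor_left {x y z : ℕ} (h : Sub (Nat.lor x y) z) : Sub x z :=
  (sub_lor_left x y).trans h
theorem Sub.of_lor_right {x y z : ℕ} (h : Sub (Nat.lor x y) z) : Sub y z :=
  (sub_lor_right x y).trans h

theorem Sub.dec {x y : ℕ} (h : Sub x y) (off : Cell) : dec off x ⊆ dec off y := by
  intro c hc
  rw [mem_dec] at hc ⊢
  obtain ⟨i, hi, hx, rfl⟩ := hc
  exact ⟨i, hi, h i hx, rfl⟩

theorem Sub.inMask {x y : ℕ} (h : Sub x y) {off : Cell} {L : Finset Cell} (hx : InMask off x L) :
    InMask off y L := by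
  obtain ⟨k, hk, h1, h2⟩ := hx
  exact ⟨k, hk, h k h1, h2⟩

theorem Sub.bit {x c : ℕ} (h : Sub (Nat.shiftLeft 1 c) x) : x.testBit c = true :=
  h c (by rw [tb_bit]; simp)

/-- cells of flagged windows are in `K`, so the effective cap vanishes -/
theorem ceff_zero {off : Cell} {E K : ℕ} {L : Finset Cell} {cap : Finset Cell → ℕ}
    (hE : InMask off E L) (hK : Sub (cellsOf0 E) K) : ceff (dec off K) cap L = 0 := by
  obtain ⟨k, hk, hE, rfl⟩ := hE
  have h1 : winK off k ⊆ dec off K := by
    refine (winK_subset_cellsOf hk hE).trans ?_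
    apply Sub.dec
    have h2 : cellsOf0 E = cellsOf E := by
      unfold cellsOf0
      have : Nat.beq E 0 = false := by
        cases hb : Nat.beq E 0
        · rfl
        · have := eq_of_beq hb
          subst this
          simp at hE
      rw [this]; rfl
    rwa [h2] at hK
  unfold ceff
  have : winK off k \ dec off K = ∅ := Finset.sdiff_eq_empty_iff_subset.2 h1
  rw [this]
  simp

theorem capOf_le_of_c1 {off : Cell} {C1 C2 g : ℕ} {L : Finset Cell} (h : InMask off C1 L) :
    capOf off C1 C2 g L = 1 := by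
  unfold capOf
  rw [if_pos h]

theorem capOf_le_of_c2 {off : Cell} {C1 C2 g : ℕ} {L : Finset Cell} (h : InMask off C2 L) :
    capOf off C1 C2 g L ≤ 2 := by
  unfold capOf
  split_ifs <;> omega

theorem capOf_le3 {off : Cell} {C1 C2 : ℕ} {L : Finset Cell} : capOf off C1 C2 3 L ≤ 3 := by
  unfold capOf
  split_ifs <;> omega

theorem capOf_le_g2 {off : Cell} {C1 C2 : ℕ} {L : Finset Cell} : capOf off C1 C2 2 L ≤ 2 := by
  unfold capOf
  split_ifs <;> omega

/-- AND-check for VCF nodes: windows with 3 white stones are in `K`, with 2 in `C1`, with 1 in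
`C2`. -/
theorem check3 {off : Cell} {s : St} (h : Inv off s) (h4 : s.a4 = 0) {K C1 C2 : ℕ}
    (hK : Sub (cellsOf0 s.a3) K) (h1 : Sub s.a2 C1) (h2 : Sub s.a1 C2) (L : Finset Cell)
    (hL : IsLine L) (hd : Disjoint L (dec off s.b)) :
    (L ∩ dec off s.w).card + ceff (dec off K) (capOf off C1 C2 3) L ≤ 3 := by
  have hle := h.le_of_a4 h4 hL hd
  have hc : ceff (dec off K) (capOf off C1 C2 3) L ≤ capOf off C1 C2 3 L := min_le_left _ _
  by_cases c3 : 3 ≤ (L ∩ dec off s.w).card
  · rw [ceff_zero (h.a3' hL hd c3) hK]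
    omega
  by_cases c2 : 2 ≤ (L ∩ dec off s.w).card
  · have := capOf_le_of_c1 (C2 := C2) (g := 3) (h1.inMask (h.a2' hL hd c2))
    omega
  by_cases c1 : 1 ≤ (L ∩ dec off s.w).card
  · have := capOf_le_of_c2 (C1 := C1) (g := 3) (h2.inMask (h.a1' hL hd c1))
    omega
  · have := capOf_le3 (off := off) (C1 := C1) (C2 := C2) (L := L)
    omega

/-! ### Five-check -/

theorem fivePat_bits : ∀ d, d < 4 → ∀ j, j < 5 →
    (Nat.land (Nat.shiftRight PP (Nat.mul 160 d)) M160).testBit (j * delta d) = true := by
  decide +kernel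

theorem fiveOK_spec {S k : ℕ} (h : fiveOK S k = true) (off : Cell) :
    IsLine (winK off k) ∧ winK off k ⊆ dec off S := by
  unfold fiveOK at h
  simp only [Bool.and_eq_true] at h
  obtain ⟨h1, hV⟩ := h
  have h1 := eq_of_beq h1
  refine ⟨isLine_winK hV, ?_⟩
  intro c hc
  unfold winK at hc
  rw [Finset.mem_image] at hc
  obtain ⟨j, hj, rfl⟩ := hc
  rw [Finset.mem_range] at hj
  have hlt := VM_cells hV hj
  rw [cellOf_mem_dec hlt]
  have hk : k < 4096 := VM_lt hV
  have hp : (fivePat k).testBit (k % 1024 + j * delta (k / 1024)) = true := by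
    have h2 := fivePat_bits (k / 1024) (by omega) j hj
    show (Nat.shiftLeft _ (k % 1024)).testBit _ = true
    have h3 : ∀ x : ℕ, (Nat.shiftLeft x (k % 1024)).testBit (k % 1024 + j * delta (k / 1024)) =
        x.testBit (j * delta (k / 1024)) := by
      intro x
      have := Nat.testBit_shiftLeft x (i := k % 1024) (j := k % 1024 + j * delta (k / 1024))
      have h4 : Nat.shiftLeft x (k % 1024) = x <<< (k % 1024) := rfl
      rw [h4, this]
      simp
    rw [h3]
    exact h2
  rw [← h1, tb_land] at hp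
  simp only [Bool.and_eq_true] at hp
  exact hp.1

/-- soundness of VCF lines -/
theorem evF_sound {off : Cell} : ∀ (m wd : ℕ) (s : St) (K C1 C2 K' C1' C2' : ℕ),
    Inv off s → Sub s.b K → Sub s.w K → evF m wd s K C1 C2 = R3.ok K' C1' C2' →
    Sub K K' ∧ Sub C1 C1' ∧ Sub C2 C2' ∧
    Valid ⟨dec off s.b, dec off s.w, dec off K', capOf off C1' C2' 3⟩ := by
  intro m
  induction m with
  | zero =>
    intro wd s K C1 C2 K' C1' C2' hI hbK hwK h
    unfold evF at h
    simp only at h
    set c := Nat.mod wd 1024 with hc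
    have hclt : c < 1024 := Nat.mod_lt _ (by norm_num)
    rw [cond_eq_ite] at h
    split_ifs at h with hcond
    · simp only [R3.ok.injEq] at h
      obtain ⟨rfl, rfl, rfl⟩ := h
      simp only [Bool.and_eq_true] at hcond
      obtain ⟨hf, h5⟩ := hcond
      obtain ⟨hin, hb, hw⟩ := isFree_spec hclt hf
      obtain ⟨hl1, hl2⟩ := fiveOK_spec h5 off
      refine ⟨sub_lor_left _ _, Sub.refl _, Sub.refl _, ?_⟩
      apply valid_of_five (b := cellOf off c)
      · rw [cellOf_mem_dec hclt, hb]; simp
      · rw [cellOf_mem_dec hclt, hw]; simp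
      · rw [cellOf_mem_dec hclt, tb_lor, tb_bit]; simp
      · refine ⟨_, hl1, ?_⟩
        rw [← dec_insert hclt]
        exact hl2
  | succ m ih =>
    intro wd s K C1 C2 K' C1' C2' hI hbK hwK h
    unfold evF at h
    simp only at h
    set c := Nat.mod wd 1024 with hc
    set t := Nat.mod (Nat.shiftRight wd 10) 1024 with ht
    have hclt : c < 1024 := Nat.mod_lt _ (by norm_num)
    have htlt : t < 1024 := Nat.mod_lt _ (by norm_num)
    rw [cond_eq_ite] at h
    split_ifs at h with hcond
    · simp only [Bool.and_eq_true] at hcond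
      obtain ⟨⟨⟨hf, hf2⟩, h5⟩, ha4⟩ := hcond
      have ha4 := eq_of_beq ha4
      obtain ⟨hin, hb, hw⟩ := isFree_spec hclt hf
      obtain ⟨htin, htb, htw⟩ := isFree_spec htlt hf2
      obtain ⟨hl1, hl2⟩ := fiveOK_spec h5 off
      have hI1 : Inv off (s.addB c) := hI.addB hin hw
      have hI2 : Inv off ((s.addB c).addW t) := hI1.addW htin htb
      have hs1b : (s.addB c).b = Nat.lor s.b (Nat.shiftLeft 1 c) := rfl
      have hs1w : (s.addB c).w = s.w := rfl
      obtain ⟨hKK, hC1, hC2, hV⟩ := ih _ _ _ _ _ _ _ _ hI2 (by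
          show Sub (Nat.lor s.b (Nat.shiftLeft 1 c)) _
          apply Sub.lor
          · exact hbK.trans ((sub_lor_left _ _).trans (sub_lor_left _ _))
          · exact (sub_lor_left _ _).trans ((sub_lor_right _ _).trans (sub_lor_left _ _)))
        (by
          show Sub (Nat.lor s.w (Nat.shiftLeft 1 t)) _
          apply Sub.lor
          · exact hwK.trans ((sub_lor_left _ _).trans (sub_lor_left _ _))
          · exact (sub_lor_right _ _).trans ((sub_lor_right _ _).trans (sub_lor_left _ _))) h
      have hKc := hKK.of_lor_left.of_lor_right.of_lor_left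
      have hKt := hKK.of_lor_left.of_lor_right.of_lor_right
      have hKK0 := hKK.of_lor_left.of_lor_left
      have hK3 := hKK.of_lor_right
      refine ⟨hKK0, hC1.of_lor_left, hC2.of_lor_left, ?_⟩
      apply valid_of_and (b := cellOf off c) (K' := dec off K') (cap' := capOf off C1' C2' 3)
      · rw [cellOf_mem_dec hclt, hb]; simp
      · rw [cellOf_mem_dec hclt, hw]; simp
      · rw [cellOf_mem_dec hclt]; exact hKc.bit
      · exact Finset.Subset.refl _
      · intro L _ _
        exact min_le_left _ _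
      rw [← dec_insert hclt]
      apply andValid_four (t := cellOf off t) (K' := dec off K') (cap' := capOf off C1' C2' 3)
      · apply Sub.dec
        exact (hbK.trans hKK0).lor hKc
      · apply Sub.dec
        exact hwK.trans hKK0
      · exact hI1.disj
      · rw [cellOf_mem_dec htlt]; rw [hs1b] at htb; rw [htb]; simp
      · rw [cellOf_mem_dec htlt]; rw [hs1w] at htw; rw [htw]; simp
      · rw [cellOf_mem_dec htlt]; exact hKt.bit
      · refine ⟨_, hl1, ?_⟩
        rw [← dec_insert htlt]
        exact hl2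
      · exact check3 hI1 ha4 hK3 hC1.of_lor_right hC2.of_lor_right
      · exact Finset.Subset.refl _
      · intro L _ _
        exact min_le_left _ _
      · have e : insert (cellOf off t) (dec off s.w) = dec off ((s.addB c).addW t).w := by
          show _ = dec off (Nat.lor s.w (Nat.shiftLeft 1 t))
          rw [dec_insert htlt]
        rw [e]
        exact hV

end Pool.Agent.Gomoku
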