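import Pool.Agent.Helper47.Gomoku.EvalF

set_option autoImplicit false

namespace Pool.Agent.Gomoku

/-- translate an item -/
def Item.inst (it : Item) (dx dy : ℕ) : Ins :=
  let sh := Nat.add dx (Nat.mul 32 dy)
  ⟨Nat.shiftLeft it.B sh, Nat.shiftLeft it.W sh, Nat.shiftLeft it.K sh, Nat.shiftLeft it.C1 sh,
    cond (Nat.beq it.g 3) (Nat.shiftLeft it.C2 sh) VM⟩

/-- result of an evaluation with accumulators -/
inductive RG
  | bad : RG
  | ok (st : List ℕ) (K C1 : ℕ) : RG

/-- result of the treatment of the null items -/
inductive RN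
  | bad : RN
  | ok (wd : ℕ) (st : List ℕ) (K C1 U : ℕ) : RN

/-- masks `r <= 0`, `r <= 1`, `r <= 2` of an item (cap minus number of white stones) -/
def mR0 (s : St) (i : Ins) : ℕ :=
  Nat.lor (Nat.lor (Nat.land i.C1 s.a1) (Nat.land i.C2 s.a2)) s.a3
def mR1 (s : St) (i : Ins) : ℕ :=
  Nat.lor (Nat.lor (Nat.land i.C1 s.lv) (Nat.land i.C2 s.a1)) s.a2
def mR2 (s : St) (i : Ins) : ℕ :=
  Nat.lor (Nat.land i.C2 s.lv) s.a1

/-- the stones fit and no cap is exceeded -/
def fits (s : St) (i : Ins) : Bool :=
  (Nat.beq (Nat.land s.b i.K) i.B) && (Nat.beq (Nat.land s.w i.K) i.W) &&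
    (Nat.beq (Nat.lor (Nat.land i.C1 s.a2) (Nat.land i.C2 s.a3)) 0) && (Nat.beq s.a4 0)

def geOK (it : Item) (dx dy : ℕ) : Bool := (Nat.ble dx it.mx) && (Nat.ble dy it.my)

/-- the code for an inline line instead of a library reference -/
def INL : ℕ := 1048575

/-- null items of an AND node (accumulating evaluators). `v`: level 2, otherwise level 1 -/
def nullsG (gt : ℕ → Item) (v : Bool) :
    ℕ → ℕ → St → List ℕ → ℕ → ℕ → ℕ → RN
  | 0, wd, _, st, K, C1, U => RN.ok wd st K C1 U
  | m+1, wd, s, st, K, C1, U =>
    let idx := Nat.mod wd 1048576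
    cond (Nat.beq idx INL)
      (match st with
        | [] => RN.bad
        | w0 :: st' =>
          match evF (Nat.mod w0 16) (Nat.shiftRight w0 4) s (Nat.lor s.b s.w) 0 0 with
          | R3.bad => RN.bad
          | R3.ok Kv C1v C2v =>
            nullsG gt v m (Nat.shiftRight wd 30) s st'
              (Nat.lor (Nat.lor K Kv) (cellsOf0 C1v)) (Nat.lor C1 C2v) (Nat.land U Kv))
      (let it := gt idx
       let dx := Nat.mod (Nat.shiftRight wd 20) 32
       let dy := Nat.mod (Nat.shiftRight wd 25) 32
       let i := it.inst dx dy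
       cond ((geOK it dx dy) && (fits s i) &&
          (cond v (Nat.beq it.g 3) (Nat.ble 2 it.g)))
        (nullsG gt v m (Nat.shiftRight wd 30) s st
          (Nat.lor (Nat.lor K i.K) (cellsOf0 (mR1 s i))) (Nat.lor C1 (mR2 s i))
          (Nat.land U (Nat.lor i.K (cellsOf0 (mR0 s i)))))
        RN.bad)

def loopG (f : St → List ℕ → ℕ → ℕ → RG) : ℕ → ℕ → ℕ → St → List ℕ → ℕ → ℕ → RG
  | 0, _, U, s, st, K, C1 =>
    let bw := Nat.lor s.b s.w
    cond (Nat.beq (Nat.lor U bw) bw) (RG.ok st K C1) RG.bad
  | n+1, cw, U, s, st, K, C1 =>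
    let y := Nat.mod cw 1024
    cond (isFree s y)
      (match f (s.addW y) st (Nat.lor K (Nat.shiftLeft 1 y)) C1 with
        | RG.bad => RG.bad
        | RG.ok st' K' C1' =>
          loopG f n (Nat.shiftRight cw 10) (minus U (Nat.shiftLeft 1 y)) s st' K' C1')
      RG.bad

/-- accumulating evaluator -/
def evG (gt : ℕ → Item) (v : Bool) : ℕ → St → List ℕ → ℕ → ℕ → RG
  | 0, _, _, _, _ => RG.bad
  | _+1, _, [], _, _ => RG.bad
  | n+1, s, w0 :: st, K, C1 =>
      let tag := Nat.mod w0 4
      let wd := Nat.shiftRight w0 2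
      cond (Nat.beq tag 3)
        (let c := Nat.mod wd 1024
         let m := Nat.mod (Nat.shiftRight wd 10) 64
         let nn := Nat.mod (Nat.shiftRight wd 16) 256
         let s1 := s.addB c
         cond ((isFree s c) && (Nat.beq s1.a4 0))
          (match nullsG gt v (Nat.succ m) (Nat.shiftRight wd 24) s1 st
              (Nat.lor (Nat.lor K (Nat.shiftLeft 1 c)) (cellsOf0 s1.a3)) (Nat.lor C1 s1.a2) FM with
            | RN.bad => RG.bad
            | RN.ok wd' st' K' C1' U => loopG (evG gt v n) nn wd' U s1 st' K' C1')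
          RG.bad)
        (cond (Nat.beq tag 0)
          (match evF (Nat.mod wd 16) (Nat.shiftRight wd 4) s K C1 0 with
            | R3.bad => RG.bad
            | R3.ok K' C1' _ => RG.ok st K' C1')
          (cond (Nat.beq tag 1)
            (let it := gt (Nat.mod wd 1048576)
             let dx := Nat.mod (Nat.shiftRight wd 20) 32
             let dy := Nat.mod (Nat.shiftRight wd 25) 32
             let i := it.inst dx dy
             cond (Nat.ble 2 it.g)
               (cond ((geOK it dx dy) && (fits s i))
                 (RG.ok st (Nat.lor (Nat.lor K i.K) (cellsOf0 (mR0 s i)))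
                   (Nat.lor C1 (mR1 s i))) RG.bad)
               (cond ((geOK it dx dy) && (!v) && (Nat.beq (Nat.land s.b i.K) i.B) &&
                  (Nat.beq s.w i.W))
                 (RG.ok st (Nat.lor K i.K) C1) RG.bad))
            (let c := Nat.mod wd 1024
             let t := Nat.mod (Nat.shiftRight wd 10) 1024
             let k := Nat.mod (Nat.shiftRight wd 20) 4096
             let s1 := s.addB c
             let tb := Nat.shiftLeft 1 t
             cond ((isFree s c) && (isFree s1 t) && (fiveOK (Nat.lor s1.b tb) k) &&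
                (Nat.beq s1.a4 0))
              (evG gt v n (s1.addW t) st
                (Nat.lor (Nat.lor K (Nat.lor (Nat.shiftLeft 1 c) tb)) (cellsOf0 s1.a3))
                (Nat.lor C1 s1.a2)) RG.bad)))

/-! ### The plain evaluator (no environment) -/

/-- result: remaining stream -/
inductive RP
  | bad : RP
  | ok (st : List ℕ) : RP

inductive RQ
  | bad : RQ
  | ok (wd : ℕ) (st : List ℕ) (U : ℕ) : RQ

/-- `X` has at most one bit -/
def single (X : ℕ) : Bool := Nat.beq (Nat.land X (Nat.sub X 1)) 0

def nullsP (gt : ℕ → Item) : ℕ → ℕ → St → List ℕ → ℕ → RQ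
  | 0, wd, _, st, U => RQ.ok wd st U
  | m+1, wd, s, st, U =>
    let idx := Nat.mod wd 1048576
    cond (Nat.beq idx INL)
      (match st with
        | [] => RQ.bad
        | w0 :: st' =>
          match evF (Nat.mod w0 16) (Nat.shiftRight w0 4) s (Nat.lor s.b s.w) 0 0 with
          | R3.bad => RQ.bad
          | R3.ok Kv _ _ => nullsP gt m (Nat.shiftRight wd 30) s st' (Nat.land U Kv))
      (let it := gt idx
       let dx := Nat.mod (Nat.shiftRight wd 20) 32
       let dy := Nat.mod (Nat.shiftRight wd 25) 32
       let i := it.inst dx dy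
       cond (Nat.ble 2 it.g)
        (cond ((geOK it dx dy) && (fits s i))
          (nullsP gt m (Nat.shiftRight wd 30) s st
            (Nat.land U (Nat.lor i.K (cellsOf0 (mR0 s i)))))
          RQ.bad)
        (let X0 := Nat.xor s.w i.W
         cond ((geOK it dx dy) && (Nat.beq (Nat.land s.b i.K) i.B) &&
            (Nat.beq (Nat.land s.w i.K) i.W) && (single X0))
          (nullsP gt m (Nat.shiftRight wd 30) s st
            (Nat.land U (Nat.lor i.K
              (cond (Nat.beq X0 0) 0 (cellsOf0 (Nat.land (WT (Nat.log2 X0)) s.lv))))))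
          RQ.bad))

def loopP (f : St → List ℕ → RP) : ℕ → ℕ → ℕ → St → List ℕ → RP
  | 0, _, U, s, st =>
    let bw := Nat.lor s.b s.w
    cond (Nat.beq (Nat.lor U bw) bw) (RP.ok st) RP.bad
  | n+1, cw, U, s, st =>
    let y := Nat.mod cw 1024
    cond (isFree s y)
      (match f (s.addW y) st with
        | RP.bad => RP.bad
        | RP.ok st' => loopP f n (Nat.shiftRight cw 10) (minus U (Nat.shiftLeft 1 y)) s st')
      RP.bad

/-- plain evaluator: Black to move. `gp`: library of plain positions (black, white) that are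
already known to be won. -/
def evP (gt : ℕ → Item) (gp : ℕ → ℕ × ℕ) : ℕ → St → List ℕ → RP
  | 0, _, _ => RP.bad
  | _+1, _, [] => RP.bad
  | n+1, s, w0 :: st =>
      let tag := Nat.mod w0 4
      let wd := Nat.shiftRight w0 2
      cond (Nat.beq tag 3)
        (let c := Nat.mod wd 1024
         let m := Nat.mod (Nat.shiftRight wd 10) 64
         let nn := Nat.mod (Nat.shiftRight wd 16) 256
         let s1 := s.addB c
         cond ((isFree s c) && (Nat.beq s1.a4 0))
          (match nullsP gt (Nat.succ m) (Nat.shiftRight wd 24) s1 st FM with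
            | RQ.bad => RP.bad
            | RQ.ok wd' st' U => loopP (evP gt gp n) nn wd' U s1 st')
          RP.bad)
        (cond (Nat.beq tag 0)
          (match evF (Nat.mod wd 16) (Nat.shiftRight wd 4) s (Nat.lor s.b s.w) 0 0 with
            | R3.bad => RP.bad
            | R3.ok _ _ _ => RP.ok st)
          (cond (Nat.beq tag 1)
            (let idx := Nat.mod wd 1048576
             cond (Nat.ble 524288 idx)
              (let pr := gp (Nat.sub idx 524288)
               cond ((Nat.beq s.b pr.1) && (Nat.beq s.w pr.2)) (RP.ok st) RP.bad)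
              (let it := gt idx
               let dx := Nat.mod (Nat.shiftRight wd 20) 32
               let dy := Nat.mod (Nat.shiftRight wd 25) 32
               let i := it.inst dx dy
               cond (Nat.ble 2 it.g)
                 (cond ((geOK it dx dy) && (fits s i)) (RP.ok st) RP.bad)
                 (cond ((geOK it dx dy) && (Nat.beq (Nat.land s.b i.K) i.B) &&
                    (Nat.beq (Nat.land s.w i.K) i.W) && (single (Nat.xor s.w i.W)))
                   (RP.ok st) RP.bad)))
            (let c := Nat.mod wd 1024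
             let t := Nat.mod (Nat.shiftRight wd 10) 1024
             let k := Nat.mod (Nat.shiftRight wd 20) 4096
             let s1 := s.addB c
             let tb := Nat.shiftLeft 1 t
             cond ((isFree s c) && (isFree s1 t) && (fiveOK (Nat.lor s1.b tb) k) &&
                (Nat.beq s1.a4 0))
              (evP gt gp n (s1.addW t) st) RP.bad)))

end Pool.Agent.Gomoku
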