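import Pool.Agent.Helper47.Gomoku.ItemCheckSound

set_option autoImplicit false

namespace Pool.Agent.Gomoku

open Finset

/-- explicit replies of the G node; the children are evaluated at level 2 -/
def loopJ (gt : ℕ → Item) (fuel : ℕ) : ℕ → ℕ → ℕ → St → List ℕ → ℕ → RG
  | 0, _, U, s, st, K =>
    let bw := Nat.lor s.b s.w
    cond (Nat.beq (Nat.lor U bw) bw) (RG.ok st K 0) RG.bad
  | n+1, cw, U, s, st, K =>
    let y := Nat.mod cw 1024
    cond (isFree s y)
      (match evG gt true fuel (s.addW y) st (Nat.lor K (Nat.shiftLeft 1 y)) 0 with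
        | RG.bad => RG.bad
        | RG.ok st' K' C1' =>
          loopJ gt fuel n (Nat.shiftRight cw 10) (minus U (Nat.shiftLeft 1 y)) s st'
            (Nat.lor K' (cellsOf0 (minus C1' (WT y)))))
      RG.bad

/-- the G node: `w0` packs m (6 bits), number of replies (8 bits), null descriptors (30 bits each),
replies (10 bits each) -/
def evJ (gt : ℕ → Item) (fuel : ℕ) (s : St) (w0 : ℕ) (st : List ℕ) : RG :=
  cond (Nat.beq s.w 0)
    (match nullsG gt false (Nat.succ (Nat.mod w0 64)) (Nat.shiftRight w0 14) s st s.b 0 FM with
      | RN.bad => RG.bad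
      | RN.ok wd' st' K' _ U =>
        loopJ gt fuel (Nat.mod (Nat.shiftRight w0 6) 256) wd' U s st' K')
    RG.bad

/-- `D` covers `y` with joint caps 2 -/
def CovJ (off : Cell) (s : St) (K _C1 : ℕ) (D : Data) (y : Cell) : Prop :=
  ∀ K', Sub K K' →
    Covers (dec off s.b) (dec off s.w) (dec off K') (capy (fun _ => 2) y) D y

theorem CovJ.mono {off : Cell} {s : St} {K C1 K2 C12 : ℕ} {D : Data} {y : Cell}
    (h : CovJ off s K C1 D y) (hK : Sub K K2) : CovJ off s K2 C12 D y :=
  fun K' h1 => h K' (hK.trans h1)

theorem capy_le {y : Cell} {L : Finset Cell} : capy (fun _ => 2) y L ≤ 2 := by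
  show 2 - (if y ∈ L then 1 else 0) ≤ 2
  omega

theorem capy_le1 {y : Cell} {L : Finset Cell} (h : y ∈ L) : capy (fun _ => 2) y L ≤ 1 := by
  show 2 - (if y ∈ L then 1 else 0) ≤ 1
  rw [if_pos h]

theorem covJ_item {off : Cell} {s : St} (hI : Inv off s) (hw0 : s.w = 0) {it : Item} {dx dy : ℕ}
    (h2 : 2 ≤ it.g) (h3 : it.g ≤ 3)
    (hf : fits s (it.inst dx dy) = true) {y : Cell} (hyW : y ∉ dec off s.w)
    (hy : y ∉ dec off (Nat.lor (it.inst dx dy).K (cellsOf0 (mR0 s (it.inst dx dy))))) :
    CovJ off s (Nat.lor (it.inst dx dy).K (cellsOf0 (mR1 s (it.inst dx dy))))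
      (mR2 s (it.inst dx dy)) (it.data off dx dy) y := by
  set i := it.inst dx dy with hi
  intro K' hK
  have hW0 : dec off s.w = ∅ := by rw [hw0]; exact dec_zero
  obtain ⟨hb, hw, hm, h4⟩ := fits_spec hf
  have hB := land_eq_spec (off := off) hb
  have hW := land_eq_spec (off := off) hw
  rw [dec_lor, Finset.mem_union, not_or] at hy
  have hcapG : (it.data off dx dy).cap = capOf off i.C1 i.C2 it.g := by
    show capG off it.g i.C1 i.C2 = _
    unfold capG
    rw [if_neg (by omega)]
  refine ⟨hB.1, hB.2, ?_, ?_, ?_, ?_⟩
  · exact hW.1.trans (Finset.subset_insert _ _)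
  · rw [Finset.disjoint_left]
    intro c hc
    rw [Finset.mem_sdiff, Finset.mem_insert] at hc
    rcases hc.1 with rfl | h
    · exact hy.1
    · exact fun hcK => Finset.disjoint_left.1 hW.2 (Finset.mem_sdiff.2 ⟨h, hc.2⟩) hcK
  · exact hK.of_lor_left.dec off
  · intro L hL hd
    have hOK : InsOK it.g i := insOK_inst h2 h3
    obtain ⟨c0, c1, c2, c3⟩ := fits_cap (off := off) hI hOK h4 hm hL hd
    rw [hcapG]
    have ha : (L ∩ dec off s.w).card = 0 := by rw [hW0]; simp
    have hle := card_ins_sdiff_le (L := L) (W := dec off s.w) (W' := (it.data off dx dy).W)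
      (y := y)
    have hceff : ceff (dec off K') (capy (fun _ => 2) y) L ≤ capy (fun _ => 2) y L :=
      min_le_left _ _
    have h2' := capy_le (y := y) (L := L)
    by_cases d0 : capOf off i.C1 i.C2 it.g L ≤ (L ∩ dec off s.w).card
    · have hle' := card_ins_sdiff_le' (L := L) (W := dec off s.w)
        (W' := (it.data off dx dy).W) (notMem_of_inMask (c1 d0) hy.2)
      rw [ceff_zero (c2 (by omega)) hK.of_lor_right]
      omega
    by_cases d1 : capOf off i.C1 i.C2 it.g L ≤ (L ∩ dec off s.w).card + 1
    · rw [ceff_zero (c2 d1) hK.of_lor_right]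
      omega
    by_cases hyL : y ∈ L
    · have := capy_le1 hyL
      omega
    · have hle' := card_ins_sdiff_le' (L := L) (W := dec off s.w)
        (W' := (it.data off dx dy).W) hyL
      omega

theorem covJ_line {off : Cell} {s : St} {Kv C1v C2v : ℕ}
    {y : Cell} (hyW : y ∉ dec off s.w) (hy : y ∉ dec off Kv) :
    CovJ off s (Nat.lor Kv (cellsOf0 C1v)) C2v
      ⟨dec off s.b, dec off s.w, dec off Kv, capOf off C1v C2v 3⟩ y := by
  intro K' hK
  have hsd : insert y (dec off s.w) \ dec off s.w = {y} := by
    ext c
    simp only [Finset.mem_sdiff, Finset.mem_insert, Finset.mem_singleton]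
    constructor
    · rintro ⟨h | h, h'⟩
      · exact h
      · exact absurd h h'
    · rintro rfl
      exact ⟨Or.inl rfl, hyW⟩
  refine ⟨Finset.Subset.refl _, ?_, Finset.subset_insert _ _, ?_, ?_, ?_⟩
  · simp
  · simp only
    rw [hsd, Finset.disjoint_singleton_left]
    exact hy
  · exact hK.of_lor_left.dec off
  · intro L hL hd
    simp only
    rw [hsd]
    have h1 : (L ∩ {y}).card ≤ 1 :=
      (Finset.card_le_card Finset.inter_subset_right).trans (by simp)
    have hceff : ceff (dec off K') (capy (fun _ => 2) y) L ≤ capy (fun _ => 2) y L :=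
      min_le_left _ _
    have h2' := capy_le (y := y) (L := L)
    by_cases d1 : InMask off C1v L
    · rw [ceff_zero d1 hK.of_lor_right, capOf_le_of_c1 d1]
      omega
    · have h3 : 2 ≤ capOf off C1v C2v 3 L := by
        unfold capOf
        rw [if_neg d1]
        split_ifs <;> omega
      by_cases hyL : y ∈ L
      · have := capy_le1 hyL
        omega
      · have h0 : L ∩ {y} = ∅ := by
          rw [Finset.inter_singleton_of_notMem hyL]
        rw [h0, Finset.card_empty]
        omega

theorem loopJ_sound {off : Cell} {gt : ℕ → Item} (hgt : ∀ i, ItemValid (gt i)) {fuel : ℕ}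
    {s : St} (hI : Inv off s) (hw0 : s.w = 0) : ∀ (n cw U : ℕ) (st : List ℕ) (K : ℕ)
    (st' : List ℕ) (K' C' : ℕ), Sub s.b K → loopJ gt fuel n cw U s st K = RG.ok st' K' C' →
    Sub K K' ∧ ∃ I : List Data, (∀ D ∈ I, Valid D) ∧
      ∀ y, y ∈ dec off U → y ∉ dec off s.b → y ∉ dec off s.w →
        ∃ D ∈ I, CovJ off s K' 0 D y := by
  have hW0 : dec off s.w = ∅ := by rw [hw0]; exact dec_zero
  intro n
  induction n with
  | zero =>
    intro cw U st K st' K' C' hbK h
    unfold loopJ at h
    simp only at h
    rw [cond_eq_ite] at h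
    split_ifs at h with hcond
    · simp only [RG.ok.injEq] at h
      obtain ⟨-, rfl, -⟩ := h
      refine ⟨Sub.refl _, [], by simp, ?_⟩
      intro y hyU hyb hyw
      exfalso
      have h1 : Nat.lor U (Nat.lor s.b s.w) = Nat.lor s.b s.w := eq_of_beq hcond
      have h2 : y ∈ dec off (Nat.lor U (Nat.lor s.b s.w)) := by
        rw [dec_lor, Finset.mem_union]; exact Or.inl hyU
      have h3 : dec off (Nat.lor U (Nat.lor s.b s.w)) = dec off (Nat.lor s.b s.w) :=
        congrArg _ h1
      have h4 : y ∈ dec off (Nat.lor s.b s.w) := h3 ▸ h2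
      rcases Finset.mem_union.1 ((dec_lor (off := off)) ▸ h4) with h | h
      · exact hyb h
      · exact hyw h
  | succ n ih =>
    intro cw U st K st' K' C' hbK h
    unfold loopJ at h
    simp only at h
    set y0 := Nat.mod cw 1024 with hy0
    have hlt : y0 < 1024 := Nat.mod_lt _ (by norm_num)
    rw [cond_eq_ite] at h
    split_ifs at h with hcond
    · obtain ⟨hin, hb, hw⟩ := isFree_spec hlt hcond
      split at h
      · simp at h
      · rename_i st1 K1 C11 hev
        have hsw : Sub (s.addW y0).w (Nat.lor K (Nat.shiftLeft 1 y0)) := by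
          show Sub (Nat.lor s.w (Nat.shiftLeft 1 y0)) _
          rw [hw0]
          refine Sub.lor ?_ (sub_lor_right _ _)
          intro i hi
          simp at hi
        have hsb : Sub (s.addW y0).b (Nat.lor K (Nat.shiftLeft 1 y0)) :=
          hbK.trans (sub_lor_left _ _)
        obtain ⟨hK1, -, hV⟩ := evG_sound (off := off) hgt _ _ _ _ _ _ _ _ (hI.addW hin hb)
          hsb hsw hev
        have hKK1 := hK1.of_lor_left
        obtain ⟨hK2, I, hIv, hcov⟩ := ih _ _ _ _ _ _ _
          (hbK.trans (hKK1.trans (sub_lor_left _ _))) h
        have hK12 : Sub K1 K' := hK2.of_lor_left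
        refine ⟨hKK1.trans hK12, dataV off true (s.addW y0) K1 C11 :: I, ?_, ?_⟩
        · intro D hD
          rw [List.mem_cons] at hD
          rcases hD with rfl | hD
          · exact hV
          · exact hIv D hD
        · intro y hyU hyb hyw
          by_cases hy : y = cellOf off y0
          · refine ⟨_, List.mem_cons_self, ?_⟩
            subst hy
            have hins : dec off (s.addW y0).w = insert (cellOf off y0) (dec off s.w) :=
              dec_insert hlt
            intro K'' hK''
            unfold dataV
            refine ⟨Finset.Subset.refl _, ?_, ?_, ?_, (hK12.trans hK'').dec off, ?_⟩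
            · show Disjoint (dec off s.b \ dec off s.b) _
              simp
            · show dec off (s.addW y0).w ⊆ _
              rw [hins]
            · show Disjoint (insert (cellOf off y0) (dec off s.w) \ dec off (s.addW y0).w) _
              rw [hins]; simp
            · intro L hL hd
              show (L ∩ (insert (cellOf off y0) (dec off s.w) \ dec off (s.addW y0).w)).card + _ ≤
                capV off true C11 L
              rw [hins]
              simp only [sdiff_self, Finset.bot_eq_empty, Finset.inter_empty, Finset.card_empty,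
                zero_add]
              unfold capV
              rw [if_pos rfl]
              by_cases d1 : InMask off C11 L
              · rw [capOf_le_of_c1 d1]
                by_cases hyL : cellOf off y0 ∈ L
                · exact (min_le_left _ _).trans (capy_le1 hyL)
                · have hm : InMask off (minus C11 (WT y0)) L := by
                    obtain ⟨k, hk, hbit, rfl⟩ := d1
                    refine ⟨k, hk, ?_, rfl⟩
                    rw [tb_minus, hbit]
                    have : (WT y0).testBit k = false := by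
                      by_contra hne
                      have h5 : (WT y0).testBit k = true := by simpa using hne
                      exact hyL ((testBit_WT hin hk).1 h5)
                    rw [this]
                    rfl
                  rw [ceff_zero hm (hK2.of_lor_right.trans hK'')]
                  omega
              · have h3 : capOf off C11 0 2 L = 2 := by
                  unfold capOf
                  rw [if_neg d1]
                  split_ifs <;> rfl
                rw [h3]
                exact (min_le_left _ _).trans capy_le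
          · have hyU' : y ∈ dec off (minus U (Nat.shiftLeft 1 y0)) := by
              rw [mem_dec] at hyU ⊢
              obtain ⟨i, hi, hbit, rfl⟩ := hyU
              refine ⟨i, hi, ?_, rfl⟩
              rw [tb_minus, hbit, tb_bit]
              have : y0 ≠ i := fun h => hy (by rw [h])
              simp [this]
            obtain ⟨D, hD, hc⟩ := hcov y hyU' hyb hyw
            exact ⟨D, List.mem_cons_of_mem _ hD, hc⟩

/-- soundness of the G check -/
theorem evJ_sound {off : Cell} {gt : ℕ → Item} (hgt : ∀ i, ItemValid (gt i)) {fuel : ℕ}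
    {s : St} (hI : Inv off s) {w0 : ℕ} {st st' : List ℕ} {K' C' : ℕ}
    (h : evJ gt fuel s w0 st = RG.ok st' K' C') :
    Sub s.b K' ∧ GValid (dec off s.b) ∅ (dec off K') (fun _ => 2) := by
  unfold evJ at h
  rw [cond_eq_ite] at h
  split_ifs at h with hw
  · have hw0 : s.w = 0 := eq_of_beq hw
    have hW0 : dec off s.w = ∅ := by rw [hw0]; exact dec_zero
    split at h
    · simp at h
    · rename_i wd1 st1 K1 C11 U1 hnull
      obtain ⟨hK1, -, I1, hI1v, hcov1⟩ := nullsG_gen (v := false) hgt hI (CovJ off s)
        (fun h h1 _ => h.mono h1)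
        (fun h2 h3 _ hf _ hyW hy => covJ_item hI hw0 h2 h3 hf hyW hy)
        (fun hyW hy => covJ_line hyW hy) _ _ _ _ _ _ _ _ _ _ _ hnull
      obtain ⟨hK2, I2, hI2v, hcov2⟩ := loopJ_sound hgt hI hw0 _ _ _ _ _ _ _ _ hK1 h
      have hbK : Sub s.b K' := hK1.trans hK2
      refine ⟨hbK, ?_⟩
      apply gValid_of_items (hbK.dec off) (Finset.empty_subset _)
        (Finset.disjoint_empty_right _) _ (I1 ++ I2)
      · intro D hD
        rw [List.mem_append] at hD
        rcases hD with hD | hD
        · exact hI1v D hD
        · exact hI2v D hD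
      · intro y hyb _
        have hyw : y ∉ dec off s.w := by rw [hW0]; exact Finset.notMem_empty _
        right
        obtain ⟨h1, h2⟩ := hcov1 y hyw
        have fin : ∀ D, CovJ off s K' 0 D y →
            Covers (dec off s.b) ∅ (dec off K') (capy (fun _ => 2) y) D y := by
          intro D hD
          have := hD K' (Sub.refl _)
          rwa [hW0] at this
        by_cases hout : OnBoard off y
        · by_cases hyU : y ∈ dec off U1
          · obtain ⟨D, hD, hcv⟩ := hcov2 y hyU hyb hyw
            exact ⟨D, List.mem_append_right _ hD, fin D hcv⟩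
          · rcases h1 hyU with h3 | ⟨D, hD, hcv⟩
            · exfalso
              apply h3
              obtain ⟨i, hi, rfl⟩ := hout
              rw [cellOf_mem_dec hi]
              exact fm_onBoard i hi
            · exact ⟨D, List.mem_append_left _ hD, fin D (hcv.mono hK2)⟩
        · obtain ⟨D, hD, hcv⟩ := h2 (by omega) hout
          exact ⟨D, List.mem_append_left _ hD, fin D (hcv.mono hK2)⟩
      · intro y _ _ L _ _
        have h3 : ceff (dec off K') (capy (fun _ => 2) y) L ≤ capy (fun _ => 2) y L :=
          min_le_left _ _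
        have h4 := capy_le (y := y) (L := L)
        simp only [Finset.inter_empty, Finset.card_empty]
        omega

end Pool.Agent.Gomoku
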