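import Pool.Agent.Helper47.Gomoku.EvalG

set_option autoImplicit false

namespace Pool.Agent.Gomoku

inductive RS
  | bad : RS
  | ok (wd : ℕ) (s : St) : RS

def addBs : ℕ → ℕ → St → RS
  | 0, wd, s => RS.ok wd s
  | n+1, wd, s =>
    let c := Nat.mod wd 1024
    cond (isFree s c) (addBs n (Nat.shiftRight wd 10) (s.addB c)) RS.bad

def addWs : ℕ → ℕ → St → RS
  | 0, wd, s => RS.ok wd s
  | n+1, wd, s =>
    let c := Nat.mod wd 1024
    cond (isFree s c) (addWs n (Nat.shiftRight wd 10) (s.addW c)) RS.bad

/-- initial position: `nb` (4 bits), `nw` (4 bits), then the cells (10 bits each) -/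
def initSt (hd : ℕ) : RS :=
  match addBs (Nat.mod hd 16) (Nat.shiftRight hd 8) St.empty with
  | RS.bad => RS.bad
  | RS.ok wd s => addWs (Nat.mod (Nat.shiftRight hd 4) 16) wd s

def subB (x y : ℕ) : Bool := Nat.beq (Nat.lor x y) y

def REP : ℕ := 0x100000001000000010000000100000001000000010000000100000001000000010000000100000001000000010000000100000001000000010000000100000001000000010000000100000001000000010000000100000001000000010000000100000001000000010000000100000001000000010000000100000001

/-- the columns `x` with `x + mx >= 32` -/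
def colMask : ℕ → ℕ
  | 0 => 0
  | n+1 => Nat.lor (colMask n) (Nat.shiftLeft REP (Nat.sub 31 n))

def boxOK (it : Item) : Bool :=
  let n := Nat.lor it.K (Nat.lor (cellsOf it.C1) (cellsOf it.C2))
  (Nat.ble it.mx 31) && (Nat.ble it.my 31) && (Nat.beq (Nat.land n (colMask it.mx)) 0) &&
    (Nat.beq (Nat.shiftRight n (Nat.sub 1024 (Nat.mul 32 it.my))) 0) &&
    (subB it.C1 VM) && (subB it.C2 VM) && (subB it.B it.K) && (subB it.W it.K)

/-- the check of an item: evaluation at the translation `(dx, dy)` -/
def chkItem (gt : ℕ → Item) (fuel : ℕ) (it : Item) (dx dy hd : ℕ) (cert : List ℕ) : Bool :=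
  (geOK it dx dy) && (boxOK it) &&
    (match initSt hd with
      | RS.bad => false
      | RS.ok _ s =>
        let i := it.inst dx dy
        (Nat.beq s.b i.B) && (Nat.beq s.w i.W) &&
        (cond (Nat.beq it.g 3)
          (match cert with
            | [] => false
            | w0 :: _ =>
              match evF (Nat.mod w0 16) (Nat.shiftRight w0 4) s (Nat.lor s.b s.w) 0 0 with
              | R3.bad => false
              | R3.ok K C1 C2 => (subB K i.K) && (subB C1 i.C1) && (subB C2 i.C2))
          (cond (Nat.beq it.g 2)
            (match evG gt true fuel s cert (Nat.lor s.b s.w) 0 with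
              | RG.bad => false
              | RG.ok _ K C1 => (subB K i.K) && (subB C1 i.C1))
            ((Nat.beq it.g 1) &&
              (match evG gt false fuel s cert (Nat.lor s.b s.w) 0 with
                | RG.bad => false
                | RG.ok _ K _ => subB K i.K)))))

/-- certified table of items, as a binary tree -/
inductive CTb
  | leaf (it : Item) (dx dy hd : ℕ) (cert : List ℕ) : CTb
  | node (l r : CTb) : CTb

def CTb.get : CTb → ℕ → Item
  | .leaf it _ _ _ _, _ => it
  | .node l r, i => cond (Nat.beq (Nat.mod i 2) 0) (l.get (Nat.shiftRight i 1))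
      (r.get (Nat.shiftRight i 1))

def CTb.all (gt : ℕ → Item) (fuel : ℕ) : CTb → Bool
  | .leaf it dx dy hd cert => chkItem gt fuel it dx dy hd cert
  | .node l r => (l.all gt fuel) && (r.all gt fuel)

end Pool.Agent.Gomoku
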