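import Pool.Agent.Helper47.Gomoku.ItemCheck
import Pool.Agent.Helper47.Gomoku.EvalGSound

set_option autoImplicit false

namespace Pool.Agent.Gomoku

open Finset

theorem addBs_inv {off : Cell} : ∀ (n wd : ℕ) (s : St) (wd' : ℕ) (s' : St), Inv off s →
    addBs n wd s = RS.ok wd' s' → Inv off s' := by
  intro n
  induction n with
  | zero =>
    intro wd s wd' s' hI h
    unfold addBs at h
    simp only [RS.ok.injEq] at h
    obtain ⟨-, rfl⟩ := h
    exact hI
  | succ n ih =>
    intro wd s wd' s' hI h
    unfold addBs at h
    simp only at h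
    rw [cond_eq_ite] at h
    split_ifs at h with hf
    · obtain ⟨hin, hb, hw⟩ := isFree_spec (nat_lt_1024 _) hf
      exact ih _ _ _ _ (hI.addB hin hw) h

theorem addWs_inv {off : Cell} : ∀ (n wd : ℕ) (s : St) (wd' : ℕ) (s' : St), Inv off s →
    addWs n wd s = RS.ok wd' s' → Inv off s' := by
  intro n
  induction n with
  | zero =>
    intro wd s wd' s' hI h
    unfold addWs at h
    simp only [RS.ok.injEq] at h
    obtain ⟨-, rfl⟩ := h
    exact hI
  | succ n ih =>
    intro wd s wd' s' hI h
    unfold addWs at h
    simp only at h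
    rw [cond_eq_ite] at h
    split_ifs at h with hf
    · obtain ⟨hin, hb, hw⟩ := isFree_spec (nat_lt_1024 _) hf
      exact ih _ _ _ _ (hI.addW hin hb) h

theorem initSt_inv {off : Cell} {hd wd : ℕ} {s : St} (h : initSt hd = RS.ok wd s) :
    Inv off s := by
  unfold initSt at h
  split at h
  · simp at h
  · rename_i wd1 s1 h1
    exact addWs_inv _ _ _ _ _ (addBs_inv _ _ _ _ _ Inv.empty h1) h

theorem subB_spec {x y : ℕ} (h : subB x y = true) : Sub x y := by
  unfold subB at h
  have h1 : Nat.lor x y = y := eq_of_beq h
  intro i hi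
  rw [← h1, tb_lor, hi]
  rfl

theorem rep_spec : ∀ y, y < 32 → REP.testBit (32 * y) = true := by
  decide +kernel

theorem colMask_spec : ∀ mx, mx ≤ 32 → ∀ i, i < 1024 → 32 ≤ i % 32 + mx →
    (colMask mx).testBit i = true := by
  intro mx
  induction mx with
  | zero => intro _ i _ h; omega
  | succ n ih =>
    intro hn i hi h
    unfold colMask
    rw [tb_lor, Bool.or_eq_true]
    by_cases h1 : 32 ≤ i % 32 + n
    · exact Or.inl (ih (by omega) i hi h1)
    · right
      have h2 : (REP <<< (31 - n)).testBit i = true := by
        rw [Nat.testBit_shiftLeft]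
        have h3 : i - (31 - n) = 32 * (i / 32) := by omega
        rw [h3, rep_spec (i / 32) (by omega)]
        have h4 : i ≥ 31 - n := by omega
        simp [h4]
      exact h2

theorem boxOK_spec {it : Item} (h : boxOK it = true) :
    it.mx ≤ 31 ∧ it.my ≤ 31 ∧
    (∀ i, i < 1024 → (Nat.lor it.K (Nat.lor (cellsOf it.C1) (cellsOf it.C2))).testBit i = true →
      i % 32 + it.mx < 32 ∧ i / 32 + it.my < 32) ∧
    (∀ i, 1024 ≤ i → (Nat.lor it.K (Nat.lor (cellsOf it.C1) (cellsOf it.C2))).testBit i = false) ∧
    Sub it.C1 VM ∧ Sub it.C2 VM ∧ Sub it.B it.K ∧ Sub it.W it.K := by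
  unfold boxOK at h
  simp only [Bool.and_eq_true] at h
  obtain ⟨⟨⟨⟨⟨⟨⟨h1, h2⟩, h3⟩, h4⟩, h5⟩, h6⟩, h7⟩, h8⟩ := h
  have h1 := Nat.le_of_ble_eq_true h1
  have h2 := Nat.le_of_ble_eq_true h2
  have h3 := eq_of_beq h3
  have h4 := eq_of_beq h4
  set n := Nat.lor it.K (Nat.lor (cellsOf it.C1) (cellsOf it.C2)) with hn
  have hhigh : ∀ i, 1024 - 32 * it.my ≤ i → n.testBit i = false := by
    intro i hi
    have h5 : (Nat.shiftRight n (Nat.sub 1024 (Nat.mul 32 it.my))).testBit
        (i - (1024 - 32 * it.my)) = false := by
      rw [h4]; simp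
    have h6 : (n >>> (1024 - 32 * it.my)).testBit (i - (1024 - 32 * it.my)) = false := h5
    rw [Nat.testBit_shiftRight] at h6
    have h7 : 1024 - 32 * it.my + (i - (1024 - 32 * it.my)) = i := by omega
    rwa [h7] at h6
  refine ⟨h1, h2, ?_, ?_, subB_spec h5, subB_spec h6, subB_spec h7, subB_spec h8⟩
  · intro i hi hbit
    constructor
    · by_contra hne
      have h5 := colMask_spec it.mx (by omega) i hi (by omega)
      have h6 : (Nat.land n (colMask it.mx)).testBit i = false := by
        rw [h3]; simp
      rw [tb_land, hbit, h5] at h6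
      simp at h6
    · by_contra hne
      have := hhigh i (by omega)
      rw [hbit] at this
      exact absurd this (by simp)
  · intro i hi
    exact hhigh i (by omega)

/-- normalised data at offset `o` -/
noncomputable def normData (o : Cell) (it : Item) : Data :=
  ⟨dec o it.B, dec o it.W, dec o it.K,
    if it.g = 1 then fun _ => 1 else
      capOf o it.C1 (if it.g = 3 then it.C2 else 0) it.g⟩

theorem cellsOf_bit {E k : ℕ} (hk : VM.testBit k = true) (hE : E.testBit k = true) {j : ℕ}
    (hj : j < 5) : (cellsOf E).testBit (k % 1024 + j * delta (k / 1024)) = true := by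
  have h1 := winK_subset_cellsOf (off := (0, 0)) hk hE
  have h2 : cellOf (0, 0) (k % 1024 + j * delta (k / 1024)) ∈ winK (0, 0) k := by
    unfold winK
    exact Finset.mem_image_of_mem _ (Finset.mem_range.2 hj)
  exact (cellOf_mem_dec (VM_cells hk hj)).1 (h1 h2)

theorem data_norm {it : Item} (hb : boxOK it = true) (hg1 : 1 ≤ it.g) (hg3 : it.g ≤ 3)
    {off : Cell} {dx dy : ℕ} (hdx : dx ≤ it.mx) (hdy : dy ≤ it.my) :
    it.data off dx dy = normData (off.1 + dx, off.2 + dy) it := by
  obtain ⟨hmx, hmy, hlow, hhigh, hC1, hC2, hBK, hWK⟩ := boxOK_spec hb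
  set n := Nat.lor it.K (Nat.lor (cellsOf it.C1) (cellsOf it.C2)) with hn
  have hlow' : ∀ x, Sub x n → ∀ i, i < 1024 → x.testBit i = true →
      i % 32 + dx < 32 ∧ i / 32 + dy < 32 := by
    intro x hx i hi hbit
    have := hlow i hi (hx i hbit)
    omega
  have hhigh' : ∀ x, Sub x n → ∀ i, 1024 ≤ i → x.testBit i = false := by
    intro x hx i hi
    by_contra hne
    have h1 : x.testBit i = true := by simpa using hne
    have := hhigh i hi
    rw [hx i h1] at this
    exact absurd this (by simp)
  have hKn : Sub it.K n := sub_lor_left _ _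
  have sh : ∀ x, Sub x n → dec off (Nat.shiftLeft x (Nat.add dx (Nat.mul 32 dy))) =
      dec (off.1 + dx, off.2 + dy) x := fun x hx => dec_shift (hlow' x hx) (hhigh' x hx)
  have shM : ∀ E, Sub E VM → Sub (cellsOf E) n → ∀ L,
      (InMask off (Nat.shiftLeft E (Nat.add dx (Nat.mul 32 dy))) L ↔
        InMask (off.1 + dx, off.2 + dy) E L) := by
    intro E hE hEn L
    apply inMask_shift (n := n) (hlow' n (Sub.refl _)) hE
    intro k hk j hj
    exact hEn _ (cellsOf_bit (hE k hk) hk hj)
  have sh1 := shM it.C1 hC1 ((sub_lor_left _ _).trans (sub_lor_right _ _))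
  have sh2 := shM it.C2 hC2 ((sub_lor_right _ _).trans (sub_lor_right _ _))
  unfold Item.data normData
  simp only
  have e1 : dec off (it.inst dx dy).B = dec (off.1 + dx, off.2 + dy) it.B :=
    sh it.B (hBK.trans hKn)
  have e2 : dec off (it.inst dx dy).W = dec (off.1 + dx, off.2 + dy) it.W :=
    sh it.W (hWK.trans hKn)
  have e3 : dec off (it.inst dx dy).K = dec (off.1 + dx, off.2 + dy) it.K :=
    sh it.K hKn
  have e4 : capG off it.g (it.inst dx dy).C1 (it.inst dx dy).C2 =
      (if it.g = 1 then fun _ => 1 else
      capOf (off.1 + dx, off.2 + dy) it.C1 (if it.g = 3 then it.C2 else 0) it.g) := by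
    unfold capG
    by_cases h1 : it.g = 1
    · rw [if_pos h1, if_pos h1]
    · rw [if_neg h1, if_neg h1]
      funext L
      have hc1 : (InMask off (it.inst dx dy).C1 L ↔
          InMask (off.1 + dx, off.2 + dy) it.C1 L) := sh1 L
      by_cases h3 : it.g = 3
      · have hc2 : (InMask off (it.inst dx dy).C2 L ↔
            InMask (off.1 + dx, off.2 + dy) it.C2 L) := by
          have : (it.inst dx dy).C2 = Nat.shiftLeft it.C2 (Nat.add dx (Nat.mul 32 dy)) := by
            unfold Item.inst
            rw [h3]
            rfl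
          rw [this]
          exact sh2 L
        rw [if_pos h3]
        by_cases d1 : InMask (off.1 + dx, off.2 + dy) it.C1 L
        · rw [capOf_le_of_c1 (hc1.2 d1), capOf_le_of_c1 d1]
        · unfold capOf
          rw [if_neg (fun h => d1 (hc1.1 h)), if_neg d1]
          by_cases d2 : InMask (off.1 + dx, off.2 + dy) it.C2 L
          · rw [if_pos (hc2.2 d2), if_pos d2]
          · rw [if_neg (fun h => d2 (hc2.1 h)), if_neg d2]
      · have h2 : it.g = 2 := by omega
        rw [if_neg h3, h2]
        by_cases d1 : InMask (off.1 + dx, off.2 + dy) it.C1 L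
        · rw [capOf_le_of_c1 (hc1.2 d1), capOf_le_of_c1 d1]
        · unfold capOf
          rw [if_neg (fun h => d1 (hc1.1 h)), if_neg d1]
          split_ifs <;> rfl
  rw [e1, e2, e3, e4]

theorem itemValid_of_chk' {gt : ℕ → Item} {fuel : ℕ} {it : Item}
    (hgt : it.g = 3 ∨ ∀ i, ItemValid (gt i))
    {dx dy hd : ℕ} {cert : List ℕ} (h : chkItem gt fuel it dx dy hd cert = true) :
    ItemValid it := by
  unfold chkItem at h
  simp only [Bool.and_eq_true] at h
  obtain ⟨⟨hge, hbox⟩, h⟩ := h
  obtain ⟨hdx, hdy⟩ := geOK_spec hge
  split at h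
  · simp at h
  · rename_i wd s hinit
    simp only [Bool.and_eq_true] at h
    obtain ⟨⟨hb, hw⟩, h⟩ := h
    have hb := eq_of_beq hb
    have hw := eq_of_beq hw
    -- enough: validity at (dx, dy) for every offset
    have main : (1 ≤ it.g ∧ it.g ≤ 3) → (∀ off : Cell, Valid (it.data off dx dy)) →
        ItemValid it := by
      rintro ⟨hg1, hg3⟩ hv
      refine ⟨hg1, hg3, fun off dx' dy' hdx' hdy' => ?_⟩
      have e1 := data_norm hbox hg1 hg3 (off := off) hdx' hdy'
      have e2 := data_norm hbox hg1 hg3 (off := (off.1 + dx' - dx, off.2 + dy' - dy)) hdx hdy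
      have e3 : ((off.1 + dx' - dx : ℤ) + dx, (off.2 + dy' - dy : ℤ) + dy) =
          (off.1 + dx', off.2 + dy') := by
        ext <;> simp
      simp only at e2
      rw [e3] at e2
      rw [e1, ← e2]
      exact hv _
    rw [cond_eq_ite] at h
    split_ifs at h with h3
    · -- g = 3
      have h3 := eq_of_beq h3
      apply main ⟨by omega, by omega⟩
      intro off
      split at h
      · simp at h
      · rename_i w0 tl
        split at h
        · simp at h
        · rename_i K C1 C2 hev
          simp only [Bool.and_eq_true] at h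
          obtain ⟨⟨hK, hC1⟩, hC2⟩ := h
          have hI : Inv off s := initSt_inv hinit
          obtain ⟨-, -, -, hV⟩ := evF_sound (off := off) _ _ _ _ _ _ _ _ _ hI
            (sub_lor_left _ _) (sub_lor_right _ _) hev
          have hK := subB_spec hK
          have hC1 := subB_spec hC1
          have hC2 := subB_spec hC2
          have hV2 : Valid ⟨dec off s.b, dec off s.w, dec off (it.inst dx dy).K,
              capOf off (it.inst dx dy).C1 (it.inst dx dy).C2 3⟩ := by
            apply hV.weaken (hK.dec off)
            intro L _ _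
            refine (min_le_left _ _).trans ?_
            by_cases d1 : InMask off C1 L
            · rw [capOf_le_of_c1 (hC1.inMask d1), capOf_le_of_c1 d1]
            · by_cases d2 : InMask off C2 L
              · have h5 : capOf off C1 C2 3 L = 2 := by
                  unfold capOf
                  rw [if_neg d1, if_pos d2]
                rw [h5]
                exact capOf_le_of_c2 (hC2.inMask d2)
              · have h5 : capOf off C1 C2 3 L = 3 := by
                  unfold capOf
                  rw [if_neg d1, if_neg d2]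
                rw [h5]
                exact capOf_le3
          unfold Item.data capG
          simp only
          rw [if_neg (by omega), h3, ← hb, ← hw]
          exact hV2
    rw [cond_eq_ite] at h
    split_ifs at h with h2
    · -- g = 2
      have h2 := eq_of_beq h2
      have hgt : ∀ i, ItemValid (gt i) := hgt.resolve_left (by omega)
      apply main ⟨by omega, by omega⟩
      intro off
      split at h
      · simp at h
      · rename_i st K C1 hev
        simp only [Bool.and_eq_true] at h
        obtain ⟨hK, hC1⟩ := h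
        have hI : Inv off s := initSt_inv hinit
        obtain ⟨-, -, hV⟩ := evG_sound (off := off) hgt _ _ _ _ _ _ _ _ hI
          (sub_lor_left _ _) (sub_lor_right _ _) hev
        have hV2 := validV_mono (subB_spec hK) (subB_spec hC1) hV
        unfold dataV at hV2
        unfold Item.data capG
        simp only
        rw [if_neg (by omega), h2, ← hb, ← hw]
        apply hV2.weaken (Finset.Subset.refl _)
        intro L _ _
        refine (min_le_left _ _).trans ?_
        unfold capV
        rw [if_pos rfl]
        by_cases d1 : InMask off (it.inst dx dy).C1 L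
        · rw [capOf_le_of_c1 d1, capOf_le_of_c1 d1]
        · have : 2 ≤ capOf off (it.inst dx dy).C1 0 2 L := by
            unfold capOf
            rw [if_neg d1]
            split_ifs <;> omega
          exact capOf_le_g2.trans this
    · -- g = 1
      simp only [Bool.and_eq_true] at h
      obtain ⟨h1, h⟩ := h
      have h1 := eq_of_beq h1
      have hgt : ∀ i, ItemValid (gt i) := hgt.resolve_left (by omega)
      apply main ⟨by omega, by omega⟩
      intro off
      split at h
      · simp at h
      · rename_i st K C1 hev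
        have hI : Inv off s := initSt_inv hinit
        obtain ⟨-, -, hV⟩ := evG_sound (off := off) hgt _ _ _ _ _ _ _ _ hI
          (sub_lor_left _ _) (sub_lor_right _ _) hev
        have hV2 := validV_mono (subB_spec h) (Sub.refl _) hV
        unfold dataV capV at hV2
        unfold Item.data capG
        simp only
        rw [if_pos h1, ← hb, ← hw]
        simpa using hV2

theorem itemValid_of_chk {gt : ℕ → Item} (hgt : ∀ i, ItemValid (gt i)) {fuel : ℕ} {it : Item}
    {dx dy hd : ℕ} {cert : List ℕ} (h : chkItem gt fuel it dx dy hd cert = true) :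
    ItemValid it := itemValid_of_chk' (Or.inr hgt) h

theorem CTb.valid {gt : ℕ → Item} (hgt : ∀ i, ItemValid (gt i)) {fuel : ℕ} :
    ∀ t : CTb, t.all gt fuel = true → ∀ i, ItemValid (t.get i) := by
  intro t
  induction t with
  | leaf it dx dy hd cert =>
    intro h i
    exact itemValid_of_chk hgt h
  | node l r ihl ihr =>
    intro h i
    unfold CTb.all at h
    rw [Bool.and_eq_true] at h
    unfold CTb.get
    rw [cond_eq_ite]
    split_ifs
    · exact ihl h.1 _
    · exact ihr h.2 _

end Pool.Agent.Gomoku
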