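import Pool.Agent.Helper47.Gomoku.EvalG
import Pool.Agent.Helper47.Gomoku.EvalFSound

set_option autoImplicit false

namespace Pool.Agent.Gomoku

open Finset

/-- cap function of an instance with default cap `g` -/
noncomputable def capG (off : Cell) (g C1 C2 : ℕ) : Finset Cell → ℕ :=
  if g = 1 then fun _ => 1 else capOf off C1 C2 g

/-- the data of an item at a translation -/
noncomputable def Item.data (off : Cell) (it : Item) (dx dy : ℕ) : Data :=
  let i := it.inst dx dy
  ⟨dec off i.B, dec off i.W, dec off i.K, capG off it.g i.C1 i.C2⟩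

def ItemValid (it : Item) : Prop :=
  1 ≤ it.g ∧ it.g ≤ 3 ∧
    ∀ off dx dy, dx ≤ it.mx → dy ≤ it.my → Valid (it.data off dx dy)

/-- instances with default cap 2 have `C2 = VM` -/
def InsOK (g : ℕ) (i : Ins) : Prop := g = 3 ∨ (g = 2 ∧ i.C2 = VM)

theorem insOK_inst {it : Item} {dx dy : ℕ} (h2 : 2 ≤ it.g) (h3 : it.g ≤ 3) :
    InsOK it.g (it.inst dx dy) := by
  unfold InsOK Item.inst
  rcases (show it.g = 2 ∨ it.g = 3 by omega) with h | h
  · right; rw [h]; exact ⟨rfl, rfl⟩
  · left; exact h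

/-- what the stone tests mean -/
theorem land_eq_spec {off : Cell} {x K B : ℕ} (h : Nat.land x K = B) :
    dec off B ⊆ dec off x ∧ Disjoint (dec off x \ dec off B) (dec off K) := by
  subst h
  rw [dec_land]
  refine ⟨Finset.inter_subset_left, ?_⟩
  rw [Finset.disjoint_left]
  intro c hc hcK
  rw [Finset.mem_sdiff, Finset.mem_inter] at hc
  exact hc.2 ⟨hc.1, hcK⟩

/-- the cap of a live window, compared with the number of white stones -/
theorem fits_cap {off : Cell} {s : St} (hI : Inv off s) {i : Ins} {g : ℕ} (hg : InsOK g i)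
    (h4 : s.a4 = 0) (hm : Nat.lor (Nat.land i.C1 s.a2) (Nat.land i.C2 s.a3) = 0)
    {L : Finset Cell} (hL : IsLine L) (hd : Disjoint L (dec off s.b)) :
    (L ∩ dec off s.w).card ≤ capOf off i.C1 i.C2 g L ∧
    (capOf off i.C1 i.C2 g L ≤ (L ∩ dec off s.w).card → InMask off (mR0 s i) L) ∧
    (capOf off i.C1 i.C2 g L ≤ (L ∩ dec off s.w).card + 1 → InMask off (mR1 s i) L) ∧
    (g = 3 → capOf off i.C1 i.C2 g L = (L ∩ dec off s.w).card + 2 →
      InMask off (mR2 s i) L) := by
  have h3 := hI.le_of_a4 h4 hL hd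
  have hm' : ∀ k, ¬ (i.C1.testBit k = true ∧ s.a2.testBit k = true) ∧
      ¬ (i.C2.testBit k = true ∧ s.a3.testBit k = true) := by
    intro k
    have h1 : (Nat.lor (Nat.land i.C1 s.a2) (Nat.land i.C2 s.a3)).testBit k = false := by
      rw [hm]; simp
    rw [tb_lor, tb_land, tb_land] at h1
    simp only [Bool.or_eq_false_iff, Bool.and_eq_false_iff] at h1
    constructor
    · rintro ⟨h, h'⟩
      rcases h1.1 with h2 | h2
      · rw [h] at h2; exact absurd h2 (by simp)
      · rw [h'] at h2; exact absurd h2 (by simp)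
    · rintro ⟨h, h'⟩
      rcases h1.2 with h2 | h2
      · rw [h] at h2; exact absurd h2 (by simp)
      · rw [h'] at h2; exact absurd h2 (by simp)
  -- masks from window numbers
  have r0 : ∀ k, VM.testBit k = true → L = winK off k →
      ((i.C1.testBit k = true ∧ s.a1.testBit k = true) ∨
       (i.C2.testBit k = true ∧ s.a2.testBit k = true) ∨ s.a3.testBit k = true) →
      InMask off (mR0 s i) L := by
    intro k hk hLk h
    refine ⟨k, hk, ?_, hLk⟩
    unfold mR0
    rw [tb_lor, tb_lor, tb_land, tb_land]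
    rcases h with ⟨h1, h2⟩ | ⟨h1, h2⟩ | h1
    · rw [h1, h2]; simp
    · rw [h1, h2]; simp
    · rw [h1]; simp
  have r1 : ∀ k, VM.testBit k = true → L = winK off k →
      ((i.C1.testBit k = true ∧ s.lv.testBit k = true) ∨
       (i.C2.testBit k = true ∧ s.a1.testBit k = true) ∨ s.a2.testBit k = true) →
      InMask off (mR1 s i) L := by
    intro k hk hLk h
    refine ⟨k, hk, ?_, hLk⟩
    unfold mR1
    rw [tb_lor, tb_lor, tb_land, tb_land]
    rcases h with ⟨h1, h2⟩ | ⟨h1, h2⟩ | h1
    · rw [h1, h2]; simp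
    · rw [h1, h2]; simp
    · rw [h1]; simp
  have r2 : ∀ k, VM.testBit k = true → L = winK off k →
      ((i.C2.testBit k = true ∧ s.lv.testBit k = true) ∨ s.a1.testBit k = true) →
      InMask off (mR2 s i) L := by
    intro k hk hLk h
    refine ⟨k, hk, ?_, hLk⟩
    unfold mR2
    rw [tb_lor, tb_land]
    rcases h with ⟨h1, h2⟩ | h1
    · rw [h1, h2]; simp
    · rw [h1]; simp
  -- bits of the state at a window number of L
  have b0 : ∀ k, VM.testBit k = true → L = winK off k → s.lv.testBit k = true := by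
    rintro k hk rfl
    exact hI.lv k hk hd
  have b1 : ∀ k, VM.testBit k = true → L = winK off k → 1 ≤ (L ∩ dec off s.w).card →
      s.a1.testBit k = true := by
    rintro k hk rfl h
    exact hI.a1 k hk hd h
  have b2 : ∀ k, VM.testBit k = true → L = winK off k → 2 ≤ (L ∩ dec off s.w).card →
      s.a2.testBit k = true := by
    rintro k hk rfl h
    exact hI.a2 k hk hd h
  have b3 : ∀ k, VM.testBit k = true → L = winK off k → 3 ≤ (L ∩ dec off s.w).card →
      s.a3.testBit k = true := by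
    rintro k hk rfl h
    exact hI.a3 k hk hd h
  by_cases hC1 : InMask off i.C1 L
  · have hcap := capOf_le_of_c1 (C2 := i.C2) (g := g) hC1
    rw [hcap]
    obtain ⟨k, hk, hC1k, hLk⟩ := hC1
    have hle : (L ∩ dec off s.w).card ≤ 1 := by
      by_contra hne
      exact (hm' k).1 ⟨hC1k, b2 k hk hLk (by omega)⟩
    refine ⟨hle, fun h => ?_, fun _ => ?_, fun _ h => ?_⟩
    · exact r0 k hk hLk (Or.inl ⟨hC1k, b1 k hk hLk h⟩)
    · exact r1 k hk hLk (Or.inl ⟨hC1k, b0 k hk hLk⟩)
    · omega
  · rcases hg with rfl | ⟨rfl, hVM⟩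
    · by_cases hC2 : InMask off i.C2 L
      · have hcap : capOf off i.C1 i.C2 3 L = 2 := by
          unfold capOf
          rw [if_neg hC1, if_pos hC2]
        rw [hcap]
        obtain ⟨k, hk, hC2k, hLk⟩ := hC2
        have hle : (L ∩ dec off s.w).card ≤ 2 := by
          by_contra hne
          exact (hm' k).2 ⟨hC2k, b3 k hk hLk (by omega)⟩
        refine ⟨hle, fun h => ?_, fun h => ?_, fun _ h => ?_⟩
        · exact r0 k hk hLk (Or.inr (Or.inl ⟨hC2k, b2 k hk hLk h⟩))
        · exact r1 k hk hLk (Or.inr (Or.inl ⟨hC2k, b1 k hk hLk (by omega)⟩))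
        · exact r2 k hk hLk (Or.inl ⟨hC2k, b0 k hk hLk⟩)
      · have hcap : capOf off i.C1 i.C2 3 L = 3 := by
          unfold capOf
          rw [if_neg hC1, if_neg hC2]
        rw [hcap]
        refine ⟨h3, fun h => ?_, fun h => ?_, fun _ h => ?_⟩
        · obtain ⟨k, hk, hLk⟩ := hI.window hL (by omega)
          exact r0 k hk hLk (Or.inr (Or.inr (b3 k hk hLk h)))
        · obtain ⟨k, hk, hLk⟩ := hI.window hL (by omega)
          exact r1 k hk hLk (Or.inr (Or.inr (b2 k hk hLk (by omega))))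
        · obtain ⟨k, hk, hLk⟩ := hI.window hL (by omega)
          exact r2 k hk hLk (Or.inr (b1 k hk hLk (by omega)))
    · have hcap : capOf off i.C1 i.C2 2 L = 2 := by
        unfold capOf
        rw [if_neg hC1]
        split_ifs <;> rfl
      rw [hcap]
      have hle : (L ∩ dec off s.w).card ≤ 2 := by
        by_contra hne
        obtain ⟨k, hk, hLk⟩ := hI.window hL (by omega)
        exact (hm' k).2 ⟨by rw [hVM]; exact hk, b3 k hk hLk (by omega)⟩
      refine ⟨hle, fun h => ?_, fun h => ?_, fun h => ?_⟩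
      · obtain ⟨k, hk, hLk⟩ := hI.window hL (by omega)
        exact r0 k hk hLk (Or.inr (Or.inl ⟨by rw [hVM]; exact hk, b2 k hk hLk h⟩))
      · obtain ⟨k, hk, hLk⟩ := hI.window hL (by omega)
        exact r1 k hk hLk (Or.inr (Or.inl ⟨by rw [hVM]; exact hk, b1 k hk hLk (by omega)⟩))
      · omega

/-- what `fits` gives -/
theorem fits_spec {s : St} {i : Ins} (h : fits s i = true) :
    Nat.land s.b i.K = i.B ∧ Nat.land s.w i.K = i.W ∧
    Nat.lor (Nat.land i.C1 s.a2) (Nat.land i.C2 s.a3) = 0 ∧ s.a4 = 0 := by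
  unfold fits at h
  simp only [Bool.and_eq_true] at h
  obtain ⟨⟨⟨h1, h2⟩, h3⟩, h4⟩ := h
  exact ⟨eq_of_beq h1, eq_of_beq h2, eq_of_beq h3, eq_of_beq h4⟩

theorem geOK_spec {it : Item} {dx dy : ℕ} (h : geOK it dx dy = true) : dx ≤ it.mx ∧ dy ≤ it.my := by
  unfold geOK at h
  simp only [Bool.and_eq_true] at h
  exact ⟨Nat.le_of_ble_eq_true h.1, Nat.le_of_ble_eq_true h.2⟩

/-- use of valid data at an OR node -/
theorem valid_of_item {B W K : Finset Cell} {cap : Finset Cell → ℕ} {D : Data}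
    (hBK : B ⊆ K) (hWK : W ⊆ K) (hBW : Disjoint B W)
    (hDB : D.B ⊆ B) (hBD : Disjoint (B \ D.B) D.K)
    (hDW : D.W ⊆ W) (hWD : Disjoint (W \ D.W) D.K) (hKK : D.K ⊆ K)
    (hcap : ∀ L, IsLine L → Disjoint L B → (L ∩ (W \ D.W)).card + ceff K cap L ≤ D.cap L)
    (h : Valid D) : Valid ⟨B, W, K, cap⟩ := by
  obtain ⟨n, hn⟩ := h
  refine ⟨n, fun X Y P hE => ?_⟩
  simp only at hE ⊢
  have hYK := hE.disj_YK
  have hWY : Disjoint W Y := (Finset.disjoint_of_subset_right hWK hYK).symm
  have htr : Env D.B D.K D.cap ((W \ D.W) ∪ X) ((B \ D.B) ∪ Y) P := by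
    refine hE.transfer (A := W \ D.W) (C := B \ D.B) hKK ?_ ?_ hBD hWD ?_ ?_ ?_ ?_
    · intro c hc
      rw [Finset.mem_union, Finset.mem_sdiff]
      tauto
    · exact Finset.sdiff_subset.trans hBK
    · exact Finset.disjoint_of_subset_left Finset.sdiff_subset hWY
    · exact Finset.disjoint_of_subset_left Finset.sdiff_subset
        (Finset.disjoint_of_subset_right Finset.sdiff_subset hBW.symm)
    · intro p q hP
      subst hP
      obtain ⟨⟨hpq, hpK, hqK, -⟩, -⟩ := hE
      exact ⟨fun h => hpK (hWK (Finset.mem_sdiff.1 h).1),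
        fun h => hqK (hWK (Finset.mem_sdiff.1 h).1)⟩
    · intro L hL hd
      apply hcap L hL
      refine Finset.disjoint_of_subset_right ?_ hd
      intro c hc
      rw [Finset.mem_union, Finset.mem_sdiff]
      tauto
  have hw := hn _ _ P htr
  rwa [← Finset.union_assoc, Finset.union_sdiff_of_subset hDB, ← Finset.union_assoc,
    Finset.union_sdiff_of_subset hDW] at hw

/-- without environment -/
theorem win_of_valid {D : Data} (h : Valid D) : ∃ N, Win N D.B D.W := by
  obtain ⟨n, hn⟩ := h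
  have := hn ∅ ∅ none ⟨Finset.disjoint_empty_left _, Finset.disjoint_empty_left _,
    Finset.disjoint_empty_left _, fun L _ _ => by simp⟩
  rw [Finset.union_empty, Finset.union_empty] at this
  exact ⟨n, this⟩

end Pool.Agent.Gomoku
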