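import Pool.Agent.Helper47.Gomoku.Basic

set_option autoImplicit false

namespace Pool.Agent.Gomoku

open Finset

/-- The position data: black stones `B`, white stones `W`, the protected set `K` (no stone of the
environment lies in `K`), and the caps (maximal number of extra white stones in a live window). -/
structure Data where
  B : Finset Cell
  W : Finset Cell
  K : Finset Cell
  cap : Finset Cell → ℕ

/-- effective cap -/
def ceff (K : Finset Cell) (cap : Finset Cell → ℕ) (L : Finset Cell) : ℕ :=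
  min (cap L) (L \ K).card

/-- window condition without pair -/
def WinOK (B : Finset Cell) (cap : Finset Cell → ℕ) (X Y : Finset Cell) : Prop :=
  ∀ L, IsLine L → Disjoint L (B ∪ Y) → (L ∩ X).card ≤ cap L

/-- window condition with an unresolved pair `p, q` -/
def WinOKP (B : Finset Cell) (cap : Finset Cell → ℕ) (X Y : Finset Cell) (p q : Cell) : Prop :=
  ∀ L, IsLine L → Disjoint L (B ∪ Y) → ¬ (p ∈ L ∧ q ∈ L) → (L ∩ X).card ≤ cap L

/-- The environment condition: extra white stones `X`, extra black stones `Y`, maybe one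
protected pair. -/
def Env (B K : Finset Cell) (cap : Finset Cell → ℕ) (X Y : Finset Cell) :
    Option (Cell × Cell) → Prop
  | none => Disjoint X Y ∧ Disjoint X K ∧ Disjoint Y K ∧ WinOK B cap X Y
  | some (p, q) => (p ≠ q ∧ p ∉ K ∧ q ∉ K ∧ p ∉ X ∧ q ∉ X ∧ p ∉ Y ∧ q ∉ Y) ∧
      Disjoint X Y ∧ Disjoint X K ∧ Disjoint Y K ∧ WinOKP B cap X Y p q ∧
      WinOK B cap (insert p X) (insert q Y) ∧ WinOK B cap (insert q X) (insert p Y)

def Valid (D : Data) : Prop :=
  ∃ n, ∀ X Y P, Env D.B D.K D.cap X Y P → Win n (D.B ∪ Y) (D.W ∪ X)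

def AndValid (D : Data) : Prop :=
  ∃ n, ∀ X Y P, Env D.B D.K D.cap X Y P → AndWin n (D.B ∪ Y) (D.W ∪ X)

/-! ### Elementary facts on environments -/

theorem Env.disj_XY {B K : Finset Cell} {cap : Finset Cell → ℕ} {X Y : Finset Cell}
    {P : Option (Cell × Cell)} (h : Env B K cap X Y P) : Disjoint X Y := by
  rcases P with _ | ⟨p, q⟩
  · exact h.1
  · exact h.2.1

theorem Env.disj_XK {B K : Finset Cell} {cap : Finset Cell → ℕ} {X Y : Finset Cell}
    {P : Option (Cell × Cell)} (h : Env B K cap X Y P) : Disjoint X K := by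
  rcases P with _ | ⟨p, q⟩
  · exact h.2.1
  · exact h.2.2.1

theorem Env.disj_YK {B K : Finset Cell} {cap : Finset Cell → ℕ} {X Y : Finset Cell}
    {P : Option (Cell × Cell)} (h : Env B K cap X Y P) : Disjoint Y K := by
  rcases P with _ | ⟨p, q⟩
  · exact h.2.2.1
  · exact h.2.2.2.1

theorem Env.resolve1 {B K : Finset Cell} {cap : Finset Cell → ℕ} {X Y : Finset Cell}
    {p q : Cell} (h : Env B K cap X Y (some (p, q))) :
    Env B K cap (insert p X) (insert q Y) none := by
  obtain ⟨⟨hpq, hpK, hqK, hpX, hqX, hpY, hqY⟩, hXY, hXK, hYK, -, h1, -⟩ := h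
  refine ⟨?_, ?_, ?_, h1⟩
  · rw [Finset.disjoint_left]
    intro c hc hc'
    rw [Finset.mem_insert] at hc hc'
    rcases hc with rfl | hc <;> rcases hc' with h2 | hc'
    · exact hpq h2
    · exact hpY hc'
    · exact hqX (h2 ▸ hc)
    · exact Finset.disjoint_left.1 hXY hc hc'
  · simp only [Finset.disjoint_insert_left]
    exact ⟨hpK, hXK⟩
  · simp only [Finset.disjoint_insert_left]
    exact ⟨hqK, hYK⟩

theorem Env.resolve2 {B K : Finset Cell} {cap : Finset Cell → ℕ} {X Y : Finset Cell}
    {p q : Cell} (h : Env B K cap X Y (some (p, q))) :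
    Env B K cap (insert q X) (insert p Y) none := by
  obtain ⟨⟨hpq, hpK, hqK, hpX, hqX, hpY, hqY⟩, hXY, hXK, hYK, -, -, h1⟩ := h
  refine ⟨?_, ?_, ?_, h1⟩
  · rw [Finset.disjoint_left]
    intro c hc hc'
    rw [Finset.mem_insert] at hc hc'
    rcases hc with rfl | hc <;> rcases hc' with h2 | hc'
    · exact hpq h2.symm
    · exact hqY hc'
    · exact hpX (h2 ▸ hc)
    · exact Finset.disjoint_left.1 hXY hc hc'
  · simp only [Finset.disjoint_insert_left]
    exact ⟨hqK, hXK⟩
  · simp only [Finset.disjoint_insert_left]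
    exact ⟨hpK, hYK⟩

theorem card_inter_le_sdiff {L X K : Finset Cell} (h : Disjoint X K) :
    (L ∩ X).card ≤ (L \ K).card := by
  apply Finset.card_le_card
  intro c hc
  rw [Finset.mem_inter] at hc
  rw [Finset.mem_sdiff]
  exact ⟨hc.1, Finset.disjoint_left.1 h hc.2⟩

theorem card_inter_union_le {L A X : Finset Cell} :
    (L ∩ (A ∪ X)).card ≤ (L ∩ A).card + (L ∩ X).card := by
  rw [Finset.inter_union_distrib_left]
  exact Finset.card_union_le _ _

/-- Transfer of an environment to another piece of data. `A` is the set of white stones of the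
present position which are not stones of the item. -/
theorem Env.transfer {B K : Finset Cell} {cap : Finset Cell → ℕ} {X Y : Finset Cell}
    {P : Option (Cell × Cell)} (h : Env B K cap X Y P)
    {B' K' A C : Finset Cell} {cap' : Finset Cell → ℕ}
    (hK : K' ⊆ K)
    (hB : B ⊆ B' ∪ C) (hC : C ⊆ K) (hCK : Disjoint C K')
    (hA : Disjoint A K') (hAY : Disjoint A Y) (hAC : Disjoint A C)
    (hAP : ∀ p q, P = some (p, q) → p ∉ A ∧ q ∉ A)
    (hcap : ∀ L, IsLine L → Disjoint L (B' ∪ C) → (L ∩ A).card + ceff K cap L ≤ cap' L) :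
    Env B' K' cap' (A ∪ X) (C ∪ Y) P := by
  -- common facts
  have key : ∀ X1 Y1 : Finset Cell, Disjoint X1 K → ∀ L, IsLine L →
      Disjoint L (B' ∪ (C ∪ Y1)) → (L ∩ X1).card ≤ cap L →
      (L ∩ (A ∪ X1)).card ≤ cap' L := by
    intro X1 Y1 hX1 L hL hd hc
    have h1 := card_inter_union_le (L := L) (A := A) (X := X1)
    have h2 := card_inter_le_sdiff (L := L) hX1
    have h3 : (L ∩ X1).card ≤ ceff K cap L := le_min hc h2
    have h4 := hcap L hL (by
      refine Finset.disjoint_of_subset_right ?_ hd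
      intro c hc
      simp only [Finset.mem_union] at hc ⊢
      tauto)
    omega
  have hlive : ∀ Y1 L, Disjoint L (B' ∪ (C ∪ Y1)) → Disjoint L (B ∪ Y1) := by
    intro Y1 L hd
    refine Finset.disjoint_of_subset_right ?_ hd
    intro c hc
    simp only [Finset.mem_union] at hc ⊢
    rcases hc with hc | hc
    · have := hB hc
      simp only [Finset.mem_union] at this
      tauto
    · tauto
  have hXC : ∀ X1 : Finset Cell, Disjoint X1 K → Disjoint X1 C := fun X1 h1 =>
    Finset.disjoint_of_subset_right hC h1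
  rcases P with _ | ⟨p, q⟩
  · obtain ⟨hXY, hXK, hYK, hW⟩ := h
    refine ⟨?_, ?_, ?_, ?_⟩
    · rw [Finset.disjoint_union_left, Finset.disjoint_union_right, Finset.disjoint_union_right]
      exact ⟨⟨hAC, hAY⟩, hXC X hXK, hXY⟩
    · rw [Finset.disjoint_union_left]
      exact ⟨hA, Finset.disjoint_of_subset_right hK hXK⟩
    · rw [Finset.disjoint_union_left]
      exact ⟨hCK, Finset.disjoint_of_subset_right hK hYK⟩
    · intro L hL hd
      exact key X Y hXK L hL hd (hW L hL (hlive Y L hd))
  · have r1 := h.resolve1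
    have r2 := h.resolve2
    obtain ⟨⟨hpq, hpK, hqK, hpX, hqX, hpY, hqY⟩, hXY, hXK, hYK, hWP, hW1, hW2⟩ := h
    obtain ⟨hpA, hqA⟩ := hAP p q rfl
    have hpC : p ∉ C := fun hc => hpK (hC hc)
    have hqC : q ∉ C := fun hc => hqK (hC hc)
    refine ⟨⟨hpq, fun hc => hpK (hK hc), fun hc => hqK (hK hc), ?_, ?_, ?_, ?_⟩, ?_, ?_, ?_,
      ?_, ?_, ?_⟩
    · rw [Finset.mem_union]; tauto
    · rw [Finset.mem_union]; tauto
    · rw [Finset.mem_union]; tauto
    · rw [Finset.mem_union]; tauto
    · rw [Finset.disjoint_union_left, Finset.disjoint_union_right, Finset.disjoint_union_right]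
      exact ⟨⟨hAC, hAY⟩, hXC X hXK, hXY⟩
    · rw [Finset.disjoint_union_left]
      exact ⟨hA, Finset.disjoint_of_subset_right hK hXK⟩
    · rw [Finset.disjoint_union_left]
      exact ⟨hCK, Finset.disjoint_of_subset_right hK hYK⟩
    · intro L hL hd hn
      exact key X Y hXK L hL hd (hWP L hL (hlive Y L hd) hn)
    · intro L hL hd
      rw [← Finset.union_insert] at hd
      rw [← Finset.union_insert]
      exact key (insert p X) (insert q Y) r1.2.1 L hL hd (hW1 L hL (hlive _ L hd))
    · intro L hL hd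
      rw [← Finset.union_insert] at hd
      rw [← Finset.union_insert]
      exact key (insert q X) (insert p Y) r2.2.1 L hL hd (hW2 L hL (hlive _ L hd))

/-- no five for White after any reply -/
theorem Env.no_five {B K : Finset Cell} {cap : Finset Cell → ℕ} {X Y : Finset Cell}
    {P : Option (Cell × Cell)} (h : Env B K cap X Y P) {W : Finset Cell}
    (hWY : Disjoint W Y) (hWB : Disjoint B W) (hBK : B ⊆ K) (hWK : W ⊆ K)
    (hchk : ∀ L, IsLine L → Disjoint L B → (L ∩ W).card + ceff K cap L ≤ 3)
    {y : Cell} (hy : y ∉ B ∪ Y) : ¬ HasFive (insert y (W ∪ X)) := by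
  rintro ⟨L, hL, hLS⟩
  have hXK := h.disj_XK
  have hXY := h.disj_XY
  -- L is disjoint from B ∪ Y
  have hd : Disjoint L (B ∪ Y) := by
    rw [Finset.disjoint_left]
    intro c hc hc'
    have h1 := hLS hc
    rw [Finset.mem_insert, Finset.mem_union] at h1
    rcases h1 with rfl | h1 | h1
    · exact hy hc'
    · rw [Finset.mem_union] at hc'
      rcases hc' with hc' | hc'
      · exact Finset.disjoint_left.1 hWB hc' h1
      · exact Finset.disjoint_left.1 hWY h1 hc'
    · rw [Finset.mem_union] at hc'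
      rcases hc' with hc' | hc'
      · exact Finset.disjoint_left.1 hXK h1 (hBK hc')
      · exact Finset.disjoint_left.1 hXY h1 hc'
  have hdB : Disjoint L B := Finset.disjoint_of_subset_right Finset.subset_union_left hd
  have hc := hchk L hL hdB
  have h5 := hL.card
  have hle : L.card ≤ (L ∩ W).card + (L ∩ X).card + 1 := by
    have : L ⊆ insert y ((L ∩ W) ∪ (L ∩ X)) := by
      intro c hc
      have h1 := hLS hc
      simp only [Finset.mem_insert, Finset.mem_union, Finset.mem_inter] at h1 ⊢
      tauto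
    calc L.card ≤ (insert y ((L ∩ W) ∪ (L ∩ X))).card := Finset.card_le_card this
      _ ≤ ((L ∩ W) ∪ (L ∩ X)).card + 1 := Finset.card_insert_le _ _
      _ ≤ (L ∩ W).card + (L ∩ X).card + 1 := by
        have := Finset.card_union_le (L ∩ W) (L ∩ X)
        omega
  have h2 := card_inter_le_sdiff (L := L) hXK
  have hcapL : (L ∩ X).card ≤ cap L := by
    rcases P with _ | ⟨p, q⟩
    · exact h.2.2.2 L hL hd
    · obtain ⟨⟨hpq, hpK, hqK, hpX, hqX, hpY, hqY⟩, -, -, -, hWP, -, -⟩ := h
      apply hWP L hL hd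
      rintro ⟨hp, hq⟩
      have h1 := hLS hp
      have h1' := hLS hq
      simp only [Finset.mem_insert, Finset.mem_union] at h1 h1'
      rcases h1 with h1 | h1 | h1
      · rcases h1' with h1' | h1' | h1'
        · exact hpq (h1.trans h1'.symm)
        · exact hqK (hWK h1')
        · exact hqX h1'
      · exact hpK (hWK h1)
      · exact hpX h1
  have h3 : (L ∩ X).card ≤ ceff K cap L := le_min hcapL h2
  omega

/-- `D` covers the white reply `y` at the AND node `(B, W)` with result constraints `K, cap`. -/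
def Covers (B W K : Finset Cell) (cap : Finset Cell → ℕ) (D : Data) (y : Cell) : Prop :=
  D.B ⊆ B ∧ Disjoint (B \ D.B) D.K ∧ D.W ⊆ insert y W ∧ Disjoint (insert y W \ D.W) D.K ∧
  D.K ⊆ K ∧
  ∀ L, IsLine L → Disjoint L B → (L ∩ (insert y W \ D.W)).card + ceff K cap L ≤ D.cap L

/-- Black has an immediate win at a cell `t ≠ y`. -/
def ImmWin (B W K : Finset Cell) (y : Cell) : Prop :=
  ∃ t, t ∈ K ∧ t ∉ B ∧ t ∉ W ∧ t ≠ y ∧ HasFive (insert t B)

theorem exists_bound (I : List Data) (hI : ∀ D ∈ I, Valid D) :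
    ∃ n, ∀ D ∈ I, ∀ X Y P, Env D.B D.K D.cap X Y P → Win n (D.B ∪ Y) (D.W ∪ X) := by
  induction I with
  | nil => exact ⟨0, fun D hD => by simp at hD⟩
  | cons D I ih =>
    obtain ⟨n, hn⟩ := ih fun D' hD' => hI D' (by simp [hD'])
    obtain ⟨m, hm⟩ := hI D (by simp)
    refine ⟨max n m, fun D' hD' X Y P hE => ?_⟩
    simp only [List.mem_cons] at hD'
    rcases hD' with rfl | hD'
    · exact (hm X Y P hE).mono (le_max_right _ _)
    · exact (hn D' hD' X Y P hE).mono (le_max_left _ _)

/-- One white reply `y` (not in the pair) at an AND node. -/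
theorem and_step {B W K : Finset Cell} {cap : Finset Cell → ℕ}
    (hBK : B ⊆ K) (hWK : W ⊆ K) (hBW : Disjoint B W)
    (hchk : ∀ L, IsLine L → Disjoint L B → (L ∩ W).card + ceff K cap L ≤ 3)
    {I : List Data} {n : ℕ}
    (hn : ∀ D ∈ I, ∀ X Y P, Env D.B D.K D.cap X Y P → Win n (D.B ∪ Y) (D.W ∪ X))
    {y : Cell} (hcov : y ∉ B → y ∉ W → ImmWin B W K y ∨ ∃ D ∈ I, Covers B W K cap D y)
    {X Y : Finset Cell} {P : Option (Cell × Cell)} (hE : Env B K cap X Y P)
    (hyB : y ∉ B ∪ Y) (hyW : y ∉ W ∪ X)
    (hyP : ∀ p q, P = some (p, q) → y ≠ p ∧ y ≠ q) :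
    ¬ HasFive (insert y (W ∪ X)) ∧ Win (n+1) (B ∪ Y) (insert y (W ∪ X)) := by
  have hXY := hE.disj_XY
  have hXK := hE.disj_XK
  have hYK := hE.disj_YK
  have hWY : Disjoint W Y :=
    (Finset.disjoint_of_subset_right hWK hYK).symm
  refine ⟨hE.no_five hWY hBW hBK hWK hchk hyB, ?_⟩
  rw [Finset.mem_union, not_or] at hyB hyW
  rcases hcov hyB.1 hyW.1 with ⟨t, htK, htB, htW, hty, h5⟩ | ⟨D, hD, hc⟩
  · have htX : t ∉ X := fun h => Finset.disjoint_left.1 hXK h htK
    have htY : t ∉ Y := fun h => Finset.disjoint_left.1 hYK h htK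
    apply Win.of_five (b := t)
    · rw [Finset.mem_union]; tauto
    · rw [Finset.mem_insert, Finset.mem_union]; tauto
    · obtain ⟨L, hL, hLB⟩ := h5
      refine ⟨L, hL, hLB.trans ?_⟩
      apply Finset.insert_subset_insert
      exact Finset.subset_union_left
  · obtain ⟨hDB, hBK', hDW, hWK', hKK, hcap⟩ := hc
    have htr : Env D.B D.K D.cap ((insert y W \ D.W) ∪ X) ((B \ D.B) ∪ Y) P := by
      refine hE.transfer (A := insert y W \ D.W) (C := B \ D.B) hKK ?_ ?_ hBK' hWK' ?_ ?_ ?_ ?_
      · intro c hc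
        rw [Finset.mem_union, Finset.mem_sdiff]
        tauto
      · exact Finset.sdiff_subset.trans hBK
      · rw [Finset.disjoint_left]
        intro c hc hcY
        rw [Finset.mem_sdiff, Finset.mem_insert] at hc
        rcases hc.1 with rfl | h1
        · exact hyB.2 hcY
        · exact Finset.disjoint_left.1 hWY h1 hcY
      · rw [Finset.disjoint_left]
        intro c hc hcB
        rw [Finset.mem_sdiff, Finset.mem_insert] at hc
        rw [Finset.mem_sdiff] at hcB
        rcases hc.1 with rfl | h1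
        · exact hyB.1 hcB.1
        · exact Finset.disjoint_left.1 hBW hcB.1 h1
      · intro p q hP
        obtain ⟨h1, h2⟩ := hyP p q hP
        subst hP
        obtain ⟨⟨hpq, hpK, hqK, hpX, hqX, hpY, hqY⟩, -⟩ := hE
        constructor
        · rw [Finset.mem_sdiff, Finset.mem_insert]
          rintro ⟨h3 | h3, -⟩
          · exact h1 h3.symm
          · exact hpK (hWK h3)
        · rw [Finset.mem_sdiff, Finset.mem_insert]
          rintro ⟨h3 | h3, -⟩
          · exact h2 h3.symm
          · exact hqK (hWK h3)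
      · intro L hL hd
        apply hcap L hL
        refine Finset.disjoint_of_subset_right ?_ hd
        intro c hc
        rw [Finset.mem_union, Finset.mem_sdiff]
        tauto
    have hw := hn D hD _ _ P htr
    have e1 : D.B ∪ ((B \ D.B) ∪ Y) = B ∪ Y := by
      rw [← Finset.union_assoc, Finset.union_sdiff_of_subset hDB]
    have e2 : D.W ∪ ((insert y W \ D.W) ∪ X) = insert y (W ∪ X) := by
      rw [← Finset.union_assoc, Finset.union_sdiff_of_subset hDW, Finset.insert_union]
    rw [e1, e2] at hw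
    exact hw.succ

/-- The protected pair is handled once: if every reply outside the pair is fine (uniformly in the
environment), then every reply is. -/
theorem andValid_of_step {B W K : Finset Cell} {cap : Finset Cell → ℕ}
    (hBK : B ⊆ K) (hWK : W ⊆ K) (hBW : Disjoint B W)
    (hchk : ∀ L, IsLine L → Disjoint L B → (L ∩ W).card + ceff K cap L ≤ 3) {n : ℕ}
    (main : ∀ X Y P, Env B K cap X Y P → ∀ y, y ∉ B ∪ Y → y ∉ W ∪ X →
      (∀ p q, P = some (p, q) → y ≠ p ∧ y ≠ q) →
      ¬ HasFive (insert y (W ∪ X)) ∧ Win n (B ∪ Y) (insert y (W ∪ X))) :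
    AndValid ⟨B, W, K, cap⟩ := by
  refine ⟨n + 1, fun X Y P hE => ?_⟩
  intro y hyB hyW
  simp only at hyB hyW ⊢
  rcases P with _ | ⟨p, q⟩
  · obtain ⟨h1, h2⟩ := main X Y none hE y hyB hyW (by intro p q h; simp at h)
    exact ⟨h1, h2.succ⟩
  · by_cases hyp : y = p ∨ y = q
    · obtain ⟨⟨hpq, hpK, hqK, hpX, hqX, hpY, hqY⟩, hrest⟩ := id hE
      have hWY : Disjoint W Y :=
        (Finset.disjoint_of_subset_right hWK hE.disj_YK).symm
      refine ⟨hE.no_five hWY hBW hBK hWK hchk hyB, ?_⟩
      rcases hyp with rfl | rfl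
      · have r := hE.resolve1
        apply Win.of_and (b := q)
        · rw [Finset.mem_union, not_or]; exact ⟨fun h => hqK (hBK h), hqY⟩
        · rw [Finset.mem_insert, Finset.mem_union, not_or, not_or]
          exact ⟨hpq.symm, fun h => hqK (hWK h), hqX⟩
        · intro z hz hz'
          have := main _ _ none r z (by rwa [Finset.union_insert])
            (by rwa [Finset.union_insert]) (by intro p q h; simp at h)
          rwa [Finset.union_insert, Finset.union_insert] at this
      · have r := hE.resolve2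
        apply Win.of_and (b := p)
        · rw [Finset.mem_union, not_or]; exact ⟨fun h => hpK (hBK h), hpY⟩
        · rw [Finset.mem_insert, Finset.mem_union, not_or, not_or]
          exact ⟨hpq, fun h => hpK (hWK h), hpX⟩
        · intro z hz hz'
          have := main _ _ none r z (by rwa [Finset.union_insert])
            (by rwa [Finset.union_insert]) (by intro p q h; simp at h)
          rwa [Finset.union_insert, Finset.union_insert] at this
    · rw [not_or] at hyp
      obtain ⟨h1, h2⟩ := main X Y (some (p, q)) hE y hyB hyW (by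
        intro p' q' h
        simp only [Option.some.injEq, Prod.mk.injEq] at h
        obtain ⟨rfl, rfl⟩ := h
        exact hyp)
      exact ⟨h1, h2.succ⟩

/-- The general rule for an AND node. -/
theorem andValid_of_items {B W K : Finset Cell} {cap : Finset Cell → ℕ}
    (hBK : B ⊆ K) (hWK : W ⊆ K) (hBW : Disjoint B W)
    (hchk : ∀ L, IsLine L → Disjoint L B → (L ∩ W).card + ceff K cap L ≤ 3)
    (I : List Data) (hI : ∀ D ∈ I, Valid D)
    (hcov : ∀ y, y ∉ B → y ∉ W → ImmWin B W K y ∨ ∃ D ∈ I, Covers B W K cap D y) :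
    AndValid ⟨B, W, K, cap⟩ := by
  obtain ⟨n, hn⟩ := exists_bound I hI
  exact andValid_of_step (n := n + 1) hBK hWK hBW hchk
    (fun X Y P hE y hyB hyW hyP => and_step hBK hWK hBW hchk hn (hcov y) hE hyB hyW hyP)

/-- The OR node: Black plays `b`. -/
theorem valid_of_and {B W K K' : Finset Cell} {cap cap' : Finset Cell → ℕ} {b : Cell}
    (hb : b ∉ B) (hbW : b ∉ W) (hbK : b ∈ K) (hKK : K' ⊆ K)
    (hcap : ∀ L, IsLine L → Disjoint L (insert b B) → ceff K cap L ≤ cap' L)
    (h : AndValid ⟨insert b B, W, K', cap'⟩) : Valid ⟨B, W, K, cap⟩ := by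
  obtain ⟨n, hn⟩ := h
  refine ⟨n + 1, fun X Y P hE => ?_⟩
  have hXK := hE.disj_XK
  have hYK := hE.disj_YK
  simp only at hE hn ⊢
  have hE' : Env (insert b B) K' cap' X Y P := by
    have := hE.transfer (A := ∅) (C := ∅) (B' := insert b B) (K' := K') (cap' := cap') hKK
      (by rw [Finset.union_empty]; exact Finset.subset_insert _ _)
      (Finset.empty_subset _) (Finset.disjoint_empty_left _) (Finset.disjoint_empty_left _)
      (Finset.disjoint_empty_left _) (Finset.disjoint_empty_left _) (by simp)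
      (by
        intro L hL hd
        rw [Finset.union_empty] at hd
        simpa using hcap L hL hd)
    rwa [Finset.empty_union, Finset.empty_union] at this
  have hw := hn X Y P hE'
  rw [Finset.insert_union] at hw
  apply Win.of_and (b := b) _ _ hw
  · rw [Finset.mem_union]; rintro (h1 | h1)
    · exact hb h1
    · exact Finset.disjoint_left.1 hYK h1 hbK
  · rw [Finset.mem_union]; rintro (h1 | h1)
    · exact hbW h1
    · exact Finset.disjoint_left.1 hXK h1 hbK

/-- FIVE rule. -/
theorem valid_of_five {B W K : Finset Cell} {cap : Finset Cell → ℕ} {b : Cell}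
    (hb : b ∉ B) (hbW : b ∉ W) (hbK : b ∈ K) (h : HasFive (insert b B)) :
    Valid ⟨B, W, K, cap⟩ := by
  refine ⟨1, fun X Y P hE => ?_⟩
  have hXK := hE.disj_XK
  have hYK := hE.disj_YK
  apply Win.of_five (b := b)
  · simp only [Finset.mem_union]; rintro (h1 | h1)
    · exact hb h1
    · exact Finset.disjoint_left.1 hYK h1 hbK
  · simp only [Finset.mem_union]; rintro (h1 | h1)
    · exact hbW h1
    · exact Finset.disjoint_left.1 hXK h1 hbK
  · obtain ⟨L, hL, hLB⟩ := h
    exact ⟨L, hL, hLB.trans (Finset.insert_subset_insert _ Finset.subset_union_left)⟩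

/-- Weakening of the constraints. -/
theorem Valid.weaken {B W K K' : Finset Cell} {cap cap' : Finset Cell → ℕ}
    (hKK : K' ⊆ K) (hcap : ∀ L, IsLine L → Disjoint L B → ceff K cap L ≤ cap' L)
    (h : Valid ⟨B, W, K', cap'⟩) : Valid ⟨B, W, K, cap⟩ := by
  obtain ⟨n, hn⟩ := h
  refine ⟨n, fun X Y P hE => ?_⟩
  simp only at hE hn ⊢
  have hE' : Env B K' cap' X Y P := by
    have := hE.transfer (A := ∅) (C := ∅) (B' := B) (K' := K') (cap' := cap') hKK
      (by rw [Finset.union_empty])
      (Finset.empty_subset _) (Finset.disjoint_empty_left _) (Finset.disjoint_empty_left _)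
      (Finset.disjoint_empty_left _) (Finset.disjoint_empty_left _) (by simp)
      (by
        intro L hL hd
        rw [Finset.union_empty] at hd
        simpa using hcap L hL hd)
    rwa [Finset.empty_union, Finset.empty_union] at this
  exact hn X Y P hE'

/-- The FOUR rule: `insert t B` contains a five; all replies other than `t` lose at once. -/
theorem andValid_four {B W K K' : Finset Cell} {cap cap' : Finset Cell → ℕ} {t : Cell}
    (hBK : B ⊆ K) (hWK : W ⊆ K) (hBW : Disjoint B W)
    (ht : t ∉ B) (htW : t ∉ W) (htK : t ∈ K) (h5 : HasFive (insert t B))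
    (hchk : ∀ L, IsLine L → Disjoint L B → (L ∩ W).card + ceff K cap L ≤ 3)
    (hKK : K' ⊆ K) (hcap : ∀ L, IsLine L → Disjoint L B → ceff K cap L ≤ cap' L)
    (h : Valid ⟨B, insert t W, K', cap'⟩) : AndValid ⟨B, W, K, cap⟩ := by
  apply andValid_of_items hBK hWK hBW hchk [⟨B, insert t W, K', cap'⟩] (by simpa using h)
  intro y hyB hyW
  by_cases hy : y = t
  · subst hy
    right
    refine ⟨_, List.mem_singleton.2 rfl, ?_⟩
    refine ⟨Finset.Subset.refl _, ?_, Finset.Subset.refl _, ?_, hKK, ?_⟩
    · simp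
    · simp
    · intro L hL hd
      simpa using hcap L hL hd
  · left
    exact ⟨t, htK, ht, htW, fun h => hy h.symm, h5⟩

end Pool.Agent.Gomoku
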